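import Pool.Agent.MP_71ac24_nt.H17.Four

attribute [-instance] AddQuantale.instAddLeftMono IdemSemiring.toCanonicallyOrderedAdd
  RKHS.instFunLike IdemSemiring.toMulLeftMono NumberField.to_charZero Fintype.decidableForallFintype
  AddQuantale.instAddRightMono IsOrderedMonoid.toMulLeftMono instCoeTOfCoeDep instCoeT
  instCoeOTCOfCoeOut instCoeHTCOfCoeHeadOfCoeOTC continuousSub_of_discreteTopology
  Quantale.instMulLeftMono Quantale.instMulRightMono instCoeHTCTOfCoeTailOfCoeHTC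
  continuousSub_of_indiscreteTopology instCoeTCOfCoe covariant_swap_mul_of_covariant_mul
  CompletePartialOrder.toPartialOrder CanonicallyOrderedAdd.toMulLeftMono
  TestFunctionClass.toDFunLike Finset.decidableDforallFinset ContDiffMapSupportedInClass.toDFunLike

/-! Counting: the diagonal shift, minor and major arcs. -/

set_option autoImplicit false

namespace Pool.Agent.MP_71ac24_nt.H17

open Finset Real
open scoped ComplexConjugate
open Pool.Agent.MP_71ac24_nt.H14 (ei Sep ei_add norm_ei ei_zero conj_ei norm_ei_sub continuous_ei)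

section

/-- Points of an interval of length `L` at mutual distance at least `δ`. -/
theorem far_sep {α : Type} (S : Finset α) (f : α → ℝ) {y w δ : ℝ} (hδ : 0 < δ) (hw : 0 ≤ w)
    (h : ∀ x ∈ S, |y - f x| ≤ w) (hs : ∀ x ∈ S, ∀ x' ∈ S, x ≠ x' → δ ≤ |f x - f x'|) :
    (#S : ℝ) ≤ 1 + 2 * w / δ := by
  have h1 : #S ≤ #(range (⌊2 * w / δ⌋₊ + 1)) := by
    refine card_le_card_of_injOn (fun x => ⌊(f x - (y - w)) / δ⌋₊) (fun x hx => ?_)
      fun x hx x' hx' e => ?_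
    · have := abs_le.1 (h x hx)
      exact mem_coe.2 (mem_range.2 (Nat.lt_succ_of_le (Nat.floor_le_floor
        (div_le_div_of_nonneg_right (by linarith) hδ.le))))
    · by_contra ne
      have a := abs_le.1 (h x hx)
      have a' := abs_le.1 (h x' hx')
      have b : 0 ≤ (f x - (y - w)) / δ := div_nonneg (by linarith only [a]) hδ.le
      have b' : 0 ≤ (f x' - (y - w)) / δ := div_nonneg (by linarith only [a']) hδ.le
      have c1 := Nat.floor_le b
      have c2 := Nat.lt_floor_add_one ((f x - (y - w)) / δ)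
      have c3 := Nat.floor_le b'
      have c4 := Nat.lt_floor_add_one ((f x' - (y - w)) / δ)
      simp only at e
      rw [e] at c1 c2
      have : |(f x - f x') / δ| < 1 := by
        rw [show (f x - f x') / δ = (f x - (y - w)) / δ - (f x' - (y - w)) / δ by ring, abs_lt]
        constructor <;> linarith only [c1, c4, c2, c3]
      rw [abs_div, abs_of_pos hδ, div_lt_one hδ] at this
      exact (hs x hx x' hx' ne).not_gt this
  rw [card_range] at h1
  have h2 := Nat.floor_le (show 0 ≤ 2 * w / δ by positivity)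
  have h3 : (#S : ℝ) ≤ (⌊2 * w / δ⌋₊ + 1 : ℕ) := by exact_mod_cast h1
  push_cast at h3
  linarith only [h2, h3]

/-- Two different fractions with the same `gcd` of numerator and denominator. -/
theorem far_frac {p p' : ℤ} {k k' K : ℕ} (hk : 1 ≤ k) (hk' : 1 ≤ k') (h : k ≤ K) (h' : k' ≤ K)
    (e : Int.gcd p k = Int.gcd p' k') (ne : (p, k) ≠ (p', k')) :
    ((Int.gcd p k : ℝ) / K) ^ 2 ≤ |(p : ℝ) / k - p' / k'| := by
  have g0 : 0 < Int.gcd p k := Int.gcd_pos_of_ne_zero_right _ (by omega)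
  obtain ⟨a, b, c1, ha, hb⟩ := Int.exists_gcd_one g0
  obtain ⟨a', b', c1', ha', hb'⟩ := Int.exists_gcd_one (e ▸ g0 : 0 < Int.gcd p' k')
  rw [← e] at ha' hb'
  generalize Int.gcd p k = g at *
  have g1 : (0 : ℤ) < g := by exact_mod_cast g0
  have b0 : 0 < b := (mul_pos_iff_of_pos_right g1).1 (by omega)
  have b0' : 0 < b' := (mul_pos_iff_of_pos_right g1).1 (by omega)
  have n1 : a * b' - a' * b ≠ 0 := fun h0 => by
    have := Rat.div_int_inj b0 b0' c1 c1' (by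
      rw [div_eq_div_iff (by exact_mod_cast b0.ne') (by exact_mod_cast b0'.ne')]
      exact_mod_cast sub_eq_zero.1 h0)
    exact ne (Prod.ext (by rw [ha, ha', this.1]) (by
      have : (k : ℤ) = k' := by rw [hb, hb', this.2]
      exact_mod_cast this))
  have n2 : (1 : ℝ) ≤ |(a : ℝ) * b' - a' * b| := by exact_mod_cast Int.one_le_abs n1
  have e1 : (k : ℝ) = b * g := by exact_mod_cast hb
  have e2 : (k' : ℝ) = b' * g := by exact_mod_cast hb'
  have r0 : (0 : ℝ) < g := by exact_mod_cast g0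
  have r1 : (0 : ℝ) < b := by exact_mod_cast b0
  have r2 : (0 : ℝ) < b' := by exact_mod_cast b0'
  have r3 : (b : ℝ) * g ≤ K := e1 ▸ Nat.cast_le.2 h
  have r4 : (b' : ℝ) * g ≤ K := e2 ▸ Nat.cast_le.2 h'
  have r5 : (0 : ℝ) < K := (mul_pos r1 r0).trans_le r3
  rw [ha, ha', e1, e2, show ((a * g : ℤ) : ℝ) / (b * g) - ((a' * g : ℤ) : ℝ) / (b' * g) =
    ((a : ℝ) * b' - a' * b) / (b * b') by push_cast; field_simp, abs_div,
    abs_of_pos (mul_pos r1 r2), div_pow, div_le_div_iff₀ (by positivity) (by positivity)]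
  have := mul_le_mul r3 r4 (by positivity) r5.le
  linarith only [mul_le_mul_of_nonneg_right n2 (sq_nonneg (K : ℝ)), this]

/-- The count for integer numerators. -/
theorem far_int (S : Finset (ℤ × ℕ)) (K : ℕ) {H y w : ℝ} (hH : 0 < H) (hw : 0 ≤ w)
    (h : ∀ x ∈ S, 1 ≤ x.2 ∧ x.2 ≤ K ∧ H * Int.gcd x.1 x.2 < x.2 ∧ |y - x.1 / x.2| ≤ w) :
    (#S : ℝ) ≤ K / H + 4 * w * K ^ 2 := by
  have h1 := card_eq_sum_card_fiberwise (f := fun x : ℤ × ℕ => Int.gcd x.1 x.2) (s := S)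
    (t := Icc 1 ⌊K / H⌋₊) fun x hx => by
      obtain ⟨a, b, c, -⟩ := h x hx
      refine mem_coe.2 (mem_Icc.2 ⟨Int.gcd_pos_of_ne_zero_right _ (by omega), Nat.le_floor ?_⟩)
      rw [le_div_iff₀' hH]
      exact c.le.trans (Nat.cast_le.2 b)
  have h2 : ∀ g ∈ Icc 1 ⌊K / H⌋₊, (#{x ∈ S | Int.gcd x.1 x.2 = g} : ℝ) ≤
      1 + 2 * w * K ^ 2 * ((g : ℝ) ^ 2)⁻¹ := fun g hg => by
    have g0 : (0 : ℝ) < g := by exact_mod_cast (mem_Icc.1 hg).1
    rcases Nat.eq_zero_or_pos K with rfl | K0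
    · have := mem_Icc.1 hg
      simp at this
      omega
    have K1 : (0 : ℝ) < K := by exact_mod_cast K0
    refine (far_sep _ (fun x : ℤ × ℕ => (x.1 : ℝ) / x.2) (δ := (g / K) ^ 2) (by positivity) hw
      (fun x hx => (h x (mem_filter.1 hx).1).2.2.2) fun x hx x' hx' ne => ?_).trans_eq
      (by field_simp)
    obtain ⟨a, e⟩ := mem_filter.1 hx
    obtain ⟨a', e'⟩ := mem_filter.1 hx'
    exact e ▸ far_frac (h x a).1 (h x' a').1 (h x a).2.1 (h x' a').2.1 (e.trans e'.symm) ne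
  have h3 : ∑ g ∈ Icc 1 ⌊K / H⌋₊, ((g : ℝ) ^ 2)⁻¹ ≤ 2 := by
    have := sum_Ioo_inv_sq_le (α := ℝ) 0 (⌊K / H⌋₊ + 1)
    rw [show Ioo 0 (⌊K / H⌋₊ + 1) = Icc 1 ⌊K / H⌋₊ from rfl] at this
    simpa only [ge_iff_le, CharP.cast_eq_zero, zero_add, div_one] using this
  rw [h1, Nat.cast_sum]
  refine (sum_le_sum h2).trans ?_
  rw [sum_add_distrib, ← mul_sum, sum_const, Nat.card_Icc, Nat.add_sub_cancel, nsmul_eq_mul, mul_one]
  have := Nat.floor_le (show 0 ≤ K / H by positivity)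
  linarith only [mul_le_mul_of_nonneg_left h3 (show 0 ≤ 2 * w * K ^ 2 by positivity), this]

theorem farey (K : ℕ) {H w : ℝ} (hH : 0 < H) (hw : 0 < w) (y : ℝ) (A : Finset (ℕ × ℕ))
    (hA : ∀ p ∈ A, 1 ≤ p.2 ∧ p.2 ≤ K ∧ H * Nat.gcd p.1 p.2 < p.2 ∧ |y - p.1 / p.2| ≤ w) :
    (#A : ℝ) ≤ K / H + 4 * w * K ^ 2 := by
  rw [← card_image_of_injective (f := fun p : ℕ × ℕ => ((p.1 : ℤ), p.2)) A fun p q e => by
    simpa [Prod.ext_iff] using e]
  refine far_int _ K hH hw.le (y := y) fun x hx => ?_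
  obtain ⟨p, hp, rfl⟩ := mem_image.1 hx
  simpa only [Int.gcd_natCast_natCast, Int.cast_natCast] using hA p hp

theorem minor : ∃ C : ℝ, 0 < C ∧ ∀ N T : ℕ, 1 ≤ N → N ≤ T → ∀ x : ℝ, |x| ≤ 2 →
    nu T (minp N T) x ≤ C * N ^ 2 := by
  refine ⟨70, by norm_num, fun N T hN hT x _ => ?_⟩
  have N0 : (0 : ℝ) < N := by exact_mod_cast hN
  have T1 : (1 : ℝ) ≤ T := by exact_mod_cast hN.trans hT
  have T0 : (0 : ℝ) < 1 / T := by positivity
  have h := farey (2 * N) (H := T / (3 * N)) (w := 4 / T) (by positivity) (by positivity) (exp x)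
    (((minp N T).filter fun p => tri (1 / T) (x + Real.log p.1 - Real.log p.2) ≠ 0).map
      (Equiv.prodComm ℕ ℕ).toEmbedding) fun q hq => by
    obtain ⟨p, hp, rfl⟩ := mem_map.1 hq
    obtain ⟨h1, h2⟩ := mem_filter.1 hp
    obtain ⟨h3, h4⟩ := mem_filter.1 h1
    obtain ⟨h5, h6⟩ := mem_product.1 h3
    obtain ⟨a1, a2⟩ := mem_Ioc.1 h5
    obtain ⟨b1, b2⟩ := mem_Ioc.1 h6
    have h7 := lt_of_tri_ne T0 h2
    have p1 : (0 : ℝ) < p.1 := by exact_mod_cast (by omega : 0 < p.1)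
    have p2 : (0 : ℝ) < p.2 := by exact_mod_cast (by omega : 0 < p.2)
    refine ⟨(by omega : 1 ≤ p.1), a2, ?_, ?_⟩
    · show (T : ℝ) / (3 * N) * Nat.gcd p.2 p.1 < p.1
      rw [div_mul_eq_mul_div, div_lt_iff₀ (by positivity), Nat.gcd_comm]
      exact_mod_cast (not_le.1 h4).trans_le (by nlinarith only [a1, b2])
    · show |exp x - (p.2 : ℝ) / p.1| ≤ 4 / T
      have h8 := abs_exp_sub_one_le (h7.le.trans ((div_le_one (by positivity)).2 T1))
      have h9 : (p.2 : ℝ) / p.1 ≤ 2 := by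
        rw [div_le_iff₀ p1]
        exact_mod_cast (by omega : p.2 ≤ 2 * p.1)
      rw [show exp x - (p.2 : ℝ) / p.1 =
        p.2 / p.1 * (exp (x + Real.log p.1 - Real.log p.2) - 1) by
          rw [exp_sub, exp_add, exp_log p1, exp_log p2]
          field_simp, abs_mul, abs_of_pos (div_pos p2 p1)]
      refine (mul_le_mul h9 (h8.trans (mul_le_mul_of_nonneg_left h7.le zero_le_two))
        (abs_nonneg _) zero_le_two).trans_eq (by ring)
  rw [card_map] at h
  rw [nu, ← sum_filter_ne_zero]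
  refine (sum_le_card_nsmul _ _ _ fun p _ => tri_le T0 _).trans ?_
  rw [nsmul_eq_mul]
  refine (mul_le_mul_of_nonneg_right h (by positivity)).trans_eq ?_
  push_cast
  field_simp
  ring

end

section

/-! ### block ZER -/

lemma zer_near {N T E m m' n n' z z' : ℝ} (hE : 1 ≤ E) (hT : 1 ≤ T) (hm : 0 ≤ m) (hn : 0 < n)
    (hn' : 0 < n') (h1 : n ≤ 2 * N) (h2 : m * n' ≤ 4 * E * T) (hz : -1 ≤ z')
    (a : |z - z' + Real.log n - Real.log n'| < 1 / T)
    (b : |m * exp z - m' * exp z'| < 1 / (8 * N)) : |m * n' - m' * n| ≤ 9 * E := by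
  have T0 : 0 < T := by linarith only [hT]
  have N0 : 0 < N := by linarith only [hn, h1]
  have e0 := exp_pos z'
  have e1 : exp (z - z' + Real.log n - Real.log n') * (n' * exp z') = n * exp z := by
    rw [exp_sub, exp_add, exp_sub, exp_log hn, exp_log hn']
    field_simp
  have e2 := Real.abs_exp_sub_one_le (a.le.trans ((div_le_one T0).2 hT))
  have e3 : (m * n' - m' * n) * exp z' = -(m * n' * exp z') *
      (exp (z - z' + Real.log n - Real.log n') - 1) + n * (m * exp z - m' * exp z') := by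
    linear_combination m * e1
  have e4 : 1 ≤ 3 * exp z' := by
    have h3 := exp_le_exp.2 hz
    have h4 : exp (-1) * exp 1 = 1 := by rw [← exp_add]; simp
    nlinarith only [Real.exp_one_lt_three, exp_pos (-1), h3, h4]
  have e5 : |-(m * n' * exp z') * (exp (z - z' + Real.log n - Real.log n') - 1)| ≤
      4 * E * T * exp z' * (2 * (1 / T)) := by
    rw [abs_mul, abs_neg, abs_of_nonneg (by positivity)]
    exact mul_le_mul (mul_le_mul_of_nonneg_right h2 e0.le) (by linarith only [a, e2]) (abs_nonneg _)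
      (by positivity)
  have e6 : |n * (m * exp z - m' * exp z')| ≤ 2 * N * (1 / (8 * N)) := by
    rw [abs_mul, abs_of_pos hn]
    exact mul_le_mul h1 b.le (abs_nonneg _) (by positivity)
  have e7 : 4 * E * T * exp z' * (2 * (1 / T)) = 8 * (E * exp z') := by field_simp; ring
  have e8 : 2 * N * (1 / (8 * N)) = 1 / 4 := by field_simp; ring
  have e9 := (abs_add_le _ _).trans (add_le_add e5 e6)
  rw [← e3, abs_mul, abs_of_pos e0, e7, e8] at e9
  refine le_of_mul_le_mul_right ?_ e0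
  linarith only [le_mul_of_one_le_left e0.le hE, e4, e9]

lemma zer_fib {E : ℝ} {M : ℕ} (hE : 1 ≤ E) (tau : ∀ n : ℕ, n ≠ 0 → n ≤ M → (#n.divisors : ℝ) ≤ E)
    (c : ℕ) {S : Finset (ℕ × ℕ)}
    (hS : ∀ p ∈ S, p.1 * p.2 ≠ 0 ∧ p.1 * p.2 ≤ M ∧ |(c : ℝ) - p.1 * p.2| ≤ 9 * E) :
    (#S : ℝ) ≤ 19 * E ^ 2 := by
  have h1 : ∀ p ∈ S, p.1 * p.2 ∈ Icc (c - ⌊9 * E⌋₊) (c + ⌊9 * E⌋₊) := fun p hp => by
    have a := abs_le.1 (hS p hp).2.2
    have b : c - p.1 * p.2 ≤ ⌊9 * E⌋₊ := by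
      rcases le_total c (p.1 * p.2) with h | h
      · omega
      · exact Nat.le_floor (by rw [Nat.cast_sub h]; push_cast; exact a.2)
    have b' : p.1 * p.2 - c ≤ ⌊9 * E⌋₊ := by
      rcases le_total (p.1 * p.2) c with h | h
      · omega
      · exact Nat.le_floor (by rw [Nat.cast_sub h]; push_cast; linarith only [a.1])
    rw [mem_Icc]
    omega
  have h2 : ∀ q ∈ Icc (c - ⌊9 * E⌋₊) (c + ⌊9 * E⌋₊),
      ((#{p ∈ S | p.1 * p.2 = q} : ℕ) : ℝ) ≤ E := fun q _ => by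
    rcases (S.filter fun p => p.1 * p.2 = q).eq_empty_or_nonempty with h | ⟨p, hq⟩
    · rw [h, card_empty, Nat.cast_zero]
      linarith
    · obtain ⟨hp, rfl⟩ := mem_filter.1 hq
      refine le_trans (Nat.cast_le.2 (card_le_card_of_injOn Prod.fst (fun x hx => ?_)
        fun x hx y hy e => ?_)) (tau _ (hS p hp).1 (hS p hp).2.1)
      · exact mem_coe.2 (Nat.mem_divisors.2 ⟨⟨x.2, (mem_filter.1 hx).2.symm⟩, (hS p hp).1⟩)
      · have a := (mem_filter.1 hx).2.trans (mem_filter.1 hy).2.symm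
        have b := left_ne_zero_of_mul (hS y (mem_filter.1 hy).1).1
        rw [e] at a
        exact Prod.ext e (mul_left_cancel₀ b a)
  have h3 : ((#(Icc (c - ⌊9 * E⌋₊) (c + ⌊9 * E⌋₊)) : ℕ) : ℝ) ≤ 19 * E := by
    have a : #(Icc (c - ⌊9 * E⌋₊) (c + ⌊9 * E⌋₊)) ≤ 2 * ⌊9 * E⌋₊ + 1 := by
      rw [Nat.card_Icc]
      omega
    have b : ((#(Icc (c - ⌊9 * E⌋₊) (c + ⌊9 * E⌋₊)) : ℕ) : ℝ) ≤ 2 * (⌊9 * E⌋₊ : ℝ) + 1 := by
      exact_mod_cast a
    linarith only [Nat.floor_le (show 0 ≤ 9 * E by linarith only [hE]), hE, b]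
  rw [card_eq_sum_card_fiberwise (f := fun p : ℕ × ℕ => p.1 * p.2) h1, Nat.cast_sum]
  refine (sum_le_card_nsmul _ _ _ h2).trans ?_
  rw [nsmul_eq_mul]
  nlinarith only [h3]

theorem zero : ∃ (C : ℝ) (k : ℕ), 0 < C ∧ ∀ (N T P X : ℕ) (E θ V : ℝ) (W : Finset ℤ) (a : ℕ → ℂ),
    World N T P X E θ V W a → ∀ F : ℝ → ℝ, Continuous F → (∀ z, 0 ≤ F z) →
      QQ N P F (fun _ => 1) (nu T (allp N)) {0} ≤
        C * E ^ k * (N ^ 2 * P * ∫ z in (-1 : ℝ)..1, F z) := by
  classical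
  refine ⟨152, 2, by norm_num, fun N T P X E θ V W a h F hF F0 => ?_⟩
  have N0 : (0 : ℝ) < N := by exact_mod_cast h.N1
  have T1 : (1 : ℝ) ≤ T := by exact_mod_cast h.T1
  have δ0 : (0 : ℝ) < 1 / T := by positivity
  have δ1 : (0 : ℝ) < 1 / (8 * N) := by positivity
  have I0 : 0 ≤ ∫ z in (-1 : ℝ)..1, F z :=
    intervalIntegral.integral_nonneg (by norm_num) fun z _ => F0 z
  have key : ∀ m ∈ Ico P (2 * P), ∀ m' : ℕ, ∫ z in (-1 : ℝ)..1, ∫ z' in (-1 : ℝ)..1,
      F z * 1 * nu T (allp N) (z - z') * tri (1 / (8 * N)) (m * exp z - m' * exp z' - (0 : ℤ)) ≤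
      (#{p ∈ allp N | |(m : ℝ) * p.2 - m' * p.1| ≤ 9 * E} : ℕ) *
        (8 * N * ∫ z in (-1 : ℝ)..1, F z) := by
    intro m hm m'
    set A := {p ∈ allp N | |(m : ℝ) * p.2 - m' * p.1| ≤ 9 * E} with hA
    refine (ii_mono (g := fun z z' => 8 * N * F z *
      ∑ p ∈ A, tri (1 / T) (z' - (z + Real.log p.1 - Real.log p.2))) (by fun_prop) (by fun_prop)
      (by norm_num) (by norm_num) fun z _ z' hz' => ?_).trans ?_
    · rw [Int.cast_zero, sub_zero, mul_one, mul_assoc, mul_comm (8 * N : ℝ), mul_assoc]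
      refine mul_le_mul_of_nonneg_left ?_ (F0 z)
      rw [nu, sum_mul, mul_sum, hA, sum_filter]
      refine sum_le_sum fun p hp => ?_
      have e : z' - (z + Real.log p.1 - Real.log p.2) = -(z - z' + Real.log p.1 - Real.log p.2) := by
        ring
      rw [e, tri_neg]
      split_ifs with hc
      · rw [mul_comm]
        exact mul_le_mul_of_nonneg_right ((tri_le δ1 _).trans (one_div_one_div _).le)
          (tri_nonneg δ0 _)
      · refine le_of_eq (mul_eq_zero.2 (or_iff_not_imp_left.2 fun a1 => not_not.1 fun a2 => hc ?_))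
        obtain ⟨b1, b2⟩ := mem_product.1 hp
        rw [mem_Ioc] at b1 b2
        have c1 : (m : ℝ) ≤ 2 * P := by exact_mod_cast (mem_Ico.1 hm).2.le
        have c2 : (p.2 : ℝ) ≤ 2 * N := by exact_mod_cast b2.2
        refine zer_near h.E1 T1 (Nat.cast_nonneg m) (N0.trans (by exact_mod_cast b1.1))
          (N0.trans (by exact_mod_cast b2.1)) (by exact_mod_cast b1.2) ?_ hz'.1
          (lt_of_tri_ne δ0 a1) (lt_of_tri_ne δ1 a2)
        linarith only [mul_le_mul c1 c2 (Nat.cast_nonneg _) (by positivity), h.PN]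
    · rw [← intervalIntegral.integral_const_mul, ← intervalIntegral.integral_const_mul]
      refine intervalIntegral.integral_mono_on (by norm_num)
        ((ii_cont (by fun_prop) _ _).intervalIntegrable _ _)
        (Continuous.intervalIntegrable (by fun_prop) _ _) fun z _ => ?_
      rw [intervalIntegral.integral_const_mul, intervalIntegral.integral_finsetSum
        fun p _ => Continuous.intervalIntegrable (by fun_prop) _ _, mul_comm]
      refine mul_le_mul_of_nonneg_right ?_ (mul_nonneg (by positivity) (F0 z))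
      exact (sum_le_card_nsmul _ _ 1 fun p _ => tri_int_le δ0 (by norm_num) _).trans (by simp)
  have cnt : ∀ m ∈ Ico P (2 * P), ∑ m' ∈ Ico P (2 * P),
      ((#{p ∈ allp N | |(m : ℝ) * p.2 - m' * p.1| ≤ 9 * E} : ℕ) : ℝ) ≤ N * (19 * E ^ 2) := by
    intro m _
    have e : ∑ m' ∈ Ico P (2 * P), #{p ∈ allp N | |(m : ℝ) * p.2 - m' * p.1| ≤ 9 * E} =
        ∑ n' ∈ Ioc N (2 * N), #{p ∈ Ico P (2 * P) ×ˢ Ioc N (2 * N) |
          |(m : ℝ) * n' - p.1 * p.2| ≤ 9 * E} := by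
      simp only [card_filter, allp, sum_product]
      exact (sum_congr rfl fun _ _ => sum_comm).trans sum_comm
    rw [← Nat.cast_sum, e, Nat.cast_sum]
    refine (sum_le_card_nsmul _ _ (19 * E ^ 2) fun n' _ =>
      zer_fib h.E1 h.tau (m * n') fun p hp => ?_).trans ?_
    · obtain ⟨b, c⟩ := mem_filter.1 hp
      obtain ⟨b1, b2⟩ := mem_product.1 b
      rw [mem_Ico] at b1
      rw [mem_Ioc] at b2
      have d1 := h.PX
      have d2 := h.XN
      have d3 := h.P1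
      refine ⟨mul_ne_zero (by omega) (by omega), ?_, by rw [Nat.cast_mul]; exact c⟩
      calc p.1 * p.2 ≤ 2 * P * (2 * N) := Nat.mul_le_mul b1.2.le b2.2
        _ = 4 * P * N := by ring
        _ ≤ N * N := Nat.mul_le_mul_right _ (by omega)
        _ = N ^ 2 := by ring
        _ ≤ N ^ 4 := Nat.pow_le_pow_right h.N1 (by norm_num)
    · rw [Nat.card_Ioc, show 2 * N - N = N by omega, nsmul_eq_mul]
  unfold QQ
  simp only [sum_singleton]
  refine (sum_le_card_nsmul _ _ (N * (19 * E ^ 2) * (8 * N * ∫ z in (-1 : ℝ)..1, F z))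
    fun m hm => (sum_le_sum fun m' _ => key m hm m').trans ?_).trans (le_of_eq ?_)
  · rw [← sum_mul]
    exact mul_le_mul_of_nonneg_right (cnt m hm) (by positivity)
  · rw [Nat.card_Ico, show 2 * P - P = P by omega, nsmul_eq_mul]
    ring

end

section

/-! ### block LOW -/

lemma low_TN {N T : ℕ} (h : T ^ 2 ≤ N ^ 3) (hN : 1 ≤ N) : T ≤ N ^ 2 := by
  refine le_of_pow_le_pow_left₀ two_ne_zero (Nat.zero_le _) (h.trans ?_)
  rw [← pow_mul]
  exact Nat.pow_le_pow_right hN (by norm_num)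

theorem qq_one : ∃ (C : ℝ) (k : ℕ), 0 < C ∧ ∀ (N T P X : ℕ) (E θ V : ℝ) (W : Finset ℤ) (a : ℕ → ℂ),
    World N T P X E θ V W a → ∀ F : ℝ → ℝ, Continuous F → (∀ z, 0 ≤ F z) → ∀ J : Finset ℤ,
      QQ N P F F (fun _ => 1) J ≤
        C * E ^ k * (P ^ 2 * (∫ z in (-1 : ℝ)..1, F z) ^ 2 + P * ∫ z in (-1 : ℝ)..1, F z ^ 2) := by
  obtain ⟨C, hC, hb⟩ := bil
  refine ⟨C, 1, hC, fun N T P X E θ V W a h F hF F0 J => ?_⟩
  have hE := h.E1
  have N1 : (1 : ℝ) ≤ N := by exact_mod_cast h.N1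
  have P1 := h.P1
  have i1 : Function.Injective fun m : ℕ => (m : ℤ) := fun x y e => by simpa using e
  have i2 : Function.Injective fun m : ℕ => -(m : ℤ) := fun x y e => by simpa using e
  have key := hb (1 / (8 * N)) E (2 * P) ((Ico P (2 * P)).image fun m : ℕ => (m : ℤ))
    ((Ico P (2 * P)).image fun m : ℕ => -(m : ℤ)) J (by positivity)
    (by rw [div_le_one (by positivity)]; linarith only [N1]) (by linarith only [hE])
    (fun x hx => by
      obtain ⟨m, hm, rfl⟩ := mem_image.1 hx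
      rw [mem_Ico] at hm
      exact ⟨by omega, abs_le.2 ⟨by omega, by omega⟩⟩)
    (fun x hx => by
      obtain ⟨m, hm, rfl⟩ := mem_image.1 hx
      rw [mem_Ico] at hm
      exact ⟨by omega, abs_le.2 ⟨by omega, by omega⟩⟩)
    (fun n hn hl => by
      refine h.tau n hn ?_
      have h1 : (T : ℝ) ≤ (N : ℝ) ^ 2 := by exact_mod_cast low_TN h.T2 h.N1
      have h2 : ((2 * P : ℕ) : ℝ) / (1 / (8 * N)) = 16 * (P * N) := by push_cast; field_simp; ring
      have h3 : E * T ≤ N / 1000 * (N : ℝ) ^ 2 :=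
        mul_le_mul (by linarith only [h.EN]) h1 (Nat.cast_nonneg T) (by positivity)
      have h4 : (N : ℝ) ^ 3 ≤ (N : ℝ) ^ 4 := pow_le_pow_right₀ N1 (by norm_num)
      have h5 : (n : ℝ) ≤ (N : ℝ) ^ 4 := by
        have : (0 : ℝ) ≤ (N : ℝ) ^ 3 := by positivity
        linarith only [h.PN, hl, h2, h3, h4]
      exact_mod_cast h5)
    (-1) 1 (-1) 1 (by norm_num) (by norm_num) (by norm_num) (by norm_num) (by norm_num)
    (by norm_num) F F hF hF F0 F0
  rw [card_image_of_injective _ i1, card_image_of_injective _ i2, Nat.card_Ico,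
    show 2 * P - P = P by omega, sum_image fun x _ y _ e => i1 e] at key
  simp only [sum_image fun x _ y _ e => i2 e] at key
  have I0 : 0 ≤ ∫ z in (-1 : ℝ)..1, F z ^ 2 :=
    intervalIntegral.integral_nonneg (by norm_num) fun _ _ => by positivity
  rw [mul_assoc E, Real.mul_self_sqrt (by positivity)] at key
  have e : QQ N P F F (fun _ => 1) J = ∑ m ∈ Ico P (2 * P), ∑ m' ∈ Ico P (2 * P), ∑ j ∈ J,
      ∫ x in (-1 : ℝ)..1, ∫ x' in (-1 : ℝ)..1, F x * F x' *
        tri (1 / (8 * N)) (((m : ℤ) : ℝ) * exp x + ((-(m' : ℤ) : ℤ) : ℝ) * exp x' - j) := by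
    simp only [QQ, mul_one, Int.cast_neg, Int.cast_natCast, neg_mul, ← sub_eq_add_neg]
  rw [e]
  refine key.trans ?_
  rw [pow_one, mul_assoc C]
  refine mul_le_mul_of_nonneg_left ?_ hC.le
  have := mul_le_mul_of_nonneg_right hE
    (by positivity : 0 ≤ (P : ℝ) ^ 2 * (∫ z in (-1 : ℝ)..1, F z) ^ 2)
  linarith only [this]

end

section

theorem bqh_fib {E : ℝ} {M : ℕ}
    (tau : ∀ n : ℕ, n ≠ 0 → n ≤ M → (#n.divisors : ℝ) ≤ E) (A : Finset (ℕ × ℕ × ℕ))
    (hA : ∀ y ∈ A, y.1 * y.2.2 ≠ 0 ∧ y.1 * y.2.2 ≤ M) :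
    (#A : ℝ) ≤ E * #(A.image fun y => (y.1 * y.2.2, y.2.1)) := by
  rw [card_eq_sum_card_image (fun y : ℕ × ℕ × ℕ => (y.1 * y.2.2, y.2.1)) A, Nat.cast_sum,
    mul_comm, ← nsmul_eq_mul]
  refine sum_le_card_nsmul _ _ _ fun b hb => ?_
  obtain ⟨y, hy, rfl⟩ := mem_image.1 hb
  refine le_trans ?_ (tau _ (hA y hy).1 (hA y hy).2)
  refine Nat.cast_le.2 (card_le_card_of_injOn (fun x => x.1) (fun x hx => ?_) fun x hx x' hx' e => ?_)
  · obtain ⟨h1, h2⟩ := mem_filter.1 (mem_coe.1 hx)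
    exact mem_coe.2 (Nat.mem_divisors.2 ⟨⟨x.2.2, (congrArg Prod.fst h2).symm⟩, (hA y hy).1⟩)
  · obtain ⟨h1, h2⟩ := mem_filter.1 (mem_coe.1 hx)
    obtain ⟨-, h3⟩ := mem_filter.1 (mem_coe.1 hx')
    have h4 := h2.trans h3.symm
    simp only [Prod.mk.injEq] at h4 e
    refine Prod.ext e (Prod.ext h4.2 ?_)
    rw [← e] at h4
    exact Nat.eq_of_mul_eq_mul_left (Nat.pos_of_ne_zero (left_ne_zero_of_mul (hA x h1).1)) h4.1

theorem bqh : ∃ (C : ℝ) (k : ℕ), 0 < C ∧ ∀ (N T P X : ℕ) (E θ V : ℝ) (W : Finset ℤ) (a : ℕ → ℂ),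
    World N T P X E θ V W a → ∀ (Q K : ℕ) (A : Finset (ℕ × ℕ × ℕ)), 1 ≤ Q → 1 ≤ K →
      (∀ y ∈ A, Q ≤ y.1 ∧ y.1 < 2 * Q ∧ y.1 * N ≤ T ∧ K ≤ y.2.1 ∧ y.2.1 < 2 * K ∧
        y.2.1 ≤ 4 * P * y.1 ∧ 1 ≤ y.2.2 ∧ y.2.2 ≤ 6 * P + 1 ∧
        T * Nat.gcd (y.1 * y.2.2) y.2.1 < y.2.1 * N) →
      ∑ y ∈ A, ∫ z in (-1 : ℝ)..1,
        ‖rho W (-z)‖ ^ 2 * cut (y.1 * (23 * E / N)) (y.2.1 * exp z - y.1 * y.2.2) ≤
        C * E ^ k * (Q * #W) := by
  refine ⟨192000, 3, by norm_num, fun N T P X E θ V W a w Q K A hQ hK hA => ?_⟩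
  have N1 := w.N1000
  have N0 : (0 : ℝ) < N := by exact_mod_cast w.N1
  have T0 : (0 : ℝ) < T := by exact_mod_cast w.T1
  have Q0 : (0 : ℝ) < Q := by exact_mod_cast hQ
  have K0 : (0 : ℝ) < K := by exact_mod_cast hK
  have E1 := w.E1
  have E0 : 0 < E := by linarith only [E1]
  rcases A.eq_empty_or_nonempty with rfl | ⟨y₀, hy₀⟩
  · rw [sum_empty]
    positivity
  have KP : (K : ℝ) ≤ 8 * P * Q := by
    obtain ⟨-, h2, -, h4, -, h6, -⟩ := hA y₀ hy₀
    have : K ≤ 8 * P * Q := h4.trans (h6.trans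
      ((Nat.mul_le_mul_left _ h2.le).trans (le_of_eq (by ring))))
    exact_mod_cast this
  have QN : (Q : ℝ) * N ≤ T := by
    obtain ⟨h1, -, h3, -⟩ := hA y₀ hy₀
    exact_mod_cast (Nat.mul_le_mul_right N h1).trans h3
  have PQ : (P : ℝ) * Q ≤ E * N := by
    have h1 : (T : ℝ) ^ 2 ≤ N ^ 3 := by exact_mod_cast w.T2
    refine le_of_mul_le_mul_right ?_ (pow_pos N0 2)
    calc _ = (P * N) * (Q * N : ℝ) := by ring
      _ ≤ (E * T) * T := mul_le_mul w.PN QN (by positivity) (by positivity)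
      _ = E * T ^ 2 := by ring
      _ ≤ E * N ^ 3 := by gcongr
      _ = _ := by ring
  have b1 : ((2 * K : ℕ) : ℝ) / (T / N) ≤ 16 * E ^ 2 * Q := by
    rw [div_div_eq_mul_div, div_le_iff₀ T0]
    push_cast
    calc _ ≤ 2 * (8 * P * Q) * (N : ℝ) := by gcongr
      _ = 16 * Q * (P * N : ℝ) := by ring
      _ ≤ 16 * Q * (E * T) := mul_le_mul_of_nonneg_left w.PN (by positivity)
      _ = 16 * E ^ 1 * Q * T := by ring
      _ ≤ _ := by gcongr; norm_num
  have b2 : 4 * (4 * Q * (23 * E / N) / K) * ((2 * K : ℕ) : ℝ) ^ 2 ≤ 11776 * E ^ 2 * Q := by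
    calc _ = 1472 * E * Q * (K / N : ℝ) := by push_cast; field_simp; norm_num
      _ ≤ 1472 * E * Q * (8 * E) := by
        gcongr
        rw [div_le_iff₀ N0]
        linarith only [KP, PQ]
      _ = _ := by ring
  have pt : ∀ z : ℝ, ∑ y ∈ A, cut (y.1 * (23 * E / N)) (y.2.1 * exp z - y.1 * y.2.2) ≤
      24000 * E ^ 3 * Q := by
    intro z
    classical
    have q0 : ∀ y ∈ A, (0 : ℝ) < y.1 * (23 * E / N) := fun y hy => by
      have : (0 : ℝ) < y.1 := by exact_mod_cast hQ.trans (hA y hy).1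
      positivity
    rw [← sum_filter_ne_zero]
    set B := A.filter fun y => cut (y.1 * (23 * E / N)) (y.2.1 * exp z - y.1 * y.2.2) ≠ 0 with hB
    have h1 := sum_le_card_nsmul B
      (fun y => cut (y.1 * (23 * E / N)) (y.2.1 * exp z - y.1 * y.2.2)) 2
      fun y hy => cut_le (q0 y (mem_filter.1 hy).1) _
    have h2 := bqh_fib w.tau B fun y hy => by
      obtain ⟨c1, -, c3, -, -, -, c7, c8, -⟩ := hA y (mem_filter.1 hy).1
      have c9 := w.PX
      have c10 := w.XN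
      have c11 : y.1 ≤ N ^ 2 := by
        by_contra hh
        have d1 : (N ^ 2 * N) ^ 2 ≤ N ^ 3 :=
          (Nat.pow_le_pow_left ((Nat.mul_le_mul_right N (not_le.1 hh).le).trans c3) 2).trans w.T2
        rw [← pow_succ, ← pow_mul, Nat.pow_le_pow_iff_right (by omega)] at d1
        omega
      refine ⟨Nat.mul_ne_zero (by omega) (by omega), ?_⟩
      calc _ ≤ N ^ 2 * N ^ 2 := Nat.mul_le_mul c11 ((by omega : y.2.2 ≤ N).trans
            (Nat.le_self_pow (by norm_num) N))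
        _ = _ := by ring
    have h3 := farey (2 * K) (H := T / N) (w := 4 * Q * (23 * E / N) / K) (by positivity)
      (by positivity) (exp z) (B.image fun y => (y.1 * y.2.2, y.2.1)) fun p hp => by
        obtain ⟨y, hy, rfl⟩ := mem_image.1 hp
        obtain ⟨hy1, hy2⟩ := mem_filter.1 hy
        obtain ⟨-, c2, -, c4, c5, -, -, -, c9⟩ := hA y hy1
        have k0 : (K : ℝ) ≤ y.2.1 := by exact_mod_cast c4
        have k1 : (0 : ℝ) < y.2.1 := K0.trans_le k0
        refine ⟨hK.trans c4, c5.le, ?_, ?_⟩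
        · rw [div_mul_eq_mul_div, div_lt_iff₀ N0]
          exact_mod_cast c9
        · have d1 := not_le.1 fun hh => hy2 (cut_zero (q0 y hy1) hh)
          have d2 : (y.1 : ℝ) ≤ 2 * Q := by exact_mod_cast c2.le
          have d3 : exp z - ((y.1 * y.2.2 : ℕ) : ℝ) / y.2.1 =
              (y.2.1 * exp z - y.1 * y.2.2) / y.2.1 := by
            push_cast
            field_simp
          rw [d3, abs_div, abs_of_pos k1]
          refine div_le_div₀ (by positivity) (d1.le.trans ?_) K0 k0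
          calc _ ≤ 2 * (2 * Q * (23 * E / N) : ℝ) := by gcongr
            _ = _ := by ring
    rw [nsmul_eq_mul] at h1
    have h4 : (#B : ℝ) ≤ E * (11792 * E ^ 2 * Q) :=
      h2.trans (mul_le_mul_of_nonneg_left (by linarith only [b1, b2, h3]) E0.le)
    have h5 : 0 ≤ E ^ 3 * Q := by positivity
    linarith only [h1, h4]
  have cr : Continuous fun z : ℝ => ‖rho W (-z)‖ ^ 2 := by fun_prop
  have r2 : ∫ z in (-1 : ℝ)..1, ‖rho W (-z)‖ ^ 2 ≤ 8 * #W :=
    (rho_l2 W (by norm_num) (by linarith only [pi_gt_three])).trans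
      (mul_le_mul_of_nonneg_right (by linarith only [pi_le_four]) (Nat.cast_nonneg _))
  rw [← intervalIntegral.integral_finsetSum fun y _ =>
    Continuous.intervalIntegrable (by fun_prop) _ _]
  calc _ ≤ ∫ z in (-1 : ℝ)..1, 24000 * E ^ 3 * Q * ‖rho W (-z)‖ ^ 2 := by
        refine intervalIntegral.integral_mono_on (by norm_num)
          (Continuous.intervalIntegrable (by fun_prop) _ _)
          (Continuous.intervalIntegrable (by fun_prop) _ _) fun z _ => ?_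
        rw [← mul_sum, mul_comm]
        exact mul_le_mul_of_nonneg_right (pt z) (sq_nonneg _)
    _ ≤ 24000 * E ^ 3 * Q * (8 * #W) := by
        rw [intervalIntegral.integral_const_mul]
        gcongr
    _ = _ := by ring

end

section

lemma bql_inj {α β : Type} [DecidableEq β] (s : Finset α) (t : Finset β) (f : α → β) (G : β → ℝ)
    (hm : ∀ x ∈ s, f x ∈ t) (hi : Set.InjOn f s) (hG : ∀ y ∈ t, 0 ≤ G y) :
    ∑ x ∈ s, G (f x) ≤ ∑ y ∈ t, G y := by
  rw [← sum_image hi]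
  exact sum_le_sum_of_subset_of_nonneg (image_subset_iff.2 hm) fun y hy _ => hG y hy

lemma bql_loc {f F : ℝ → ℝ} (hf : Continuous f) (hF : Continuous F) (F0 : ∀ z, 0 ≤ F z)
    {c w : ℝ} (hw : 0 < w) (h : ∀ z ∈ Set.Icc (-1 : ℝ) 1, f z ≤ F z * cut w (z - c)) :
    ∫ z in (-1 : ℝ)..1, f z ≤ 2 * ∫ ξ in (-(2 * w))..(2 * w), F (c - ξ) := by
  have h1 : ∫ z in (-1 : ℝ)..1, f z ≤ ∫ z in (-1 : ℝ)..1, F z * cut w (z - c) :=
    intervalIntegral.integral_mono_on (by norm_num) (hf.intervalIntegrable _ _)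
      (Continuous.intervalIntegrable (by fun_prop) _ _) h
  have h2 : ∫ z in (-1 : ℝ)..1, F z * cut w (z - c) ≤
      ∫ z in (min (-1) (c - 2 * w))..(max 1 (c + 2 * w)), F z * cut w (z - c) :=
    intervalIntegral.integral_mono_interval (min_le_left _ _) (by norm_num) (le_max_left _ _)
      (Filter.Eventually.of_forall fun x => mul_nonneg (F0 _) (cut_nonneg hw _))
      (Continuous.intervalIntegrable (by fun_prop) _ _)
  have h3 : ∫ z in (min (-1) (c - 2 * w))..(max 1 (c + 2 * w)), F z * cut w (z - c) =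
      ∫ z in (c - 2 * w)..(c + 2 * w), F z * cut w (z - c) := by
    refine int_supp (min_le_right _ _) (by linarith) (le_max_right _ _) fun x hx => ?_
    rw [cut_zero hw, mul_zero]
    rcases hx with hx | hx
    · exact le_abs.2 (Or.inr (by linarith))
    · exact le_abs.2 (Or.inl (by linarith))
  have h4 : ∫ z in (c - 2 * w)..(c + 2 * w), F z * cut w (z - c) ≤
      ∫ z in (c - 2 * w)..(c + 2 * w), 2 * F z :=
    intervalIntegral.integral_mono_on (by linarith) (Continuous.intervalIntegrable (by fun_prop) _ _)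
      (Continuous.intervalIntegrable (by fun_prop) _ _) fun x _ => by
        have := cut_le hw (x - c)
        nlinarith only [F0 x, this]
  rw [intervalIntegral.integral_const_mul] at h4
  rw [intervalIntegral.integral_comp_sub_left F, sub_neg_eq_add]
  linarith

lemma bql_log {x y : ℝ} (hx : 1 / 3 ≤ x) (hy : 1 / 3 ≤ y) :
    |Real.log x - Real.log y| ≤ 3 * |x - y| := by
  have key : ∀ {x y : ℝ}, 1 / 3 ≤ x → 1 / 3 ≤ y → Real.log x - Real.log y ≤ 3 * |x - y| := by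
    intro x y hx hy
    have y0 : 0 < y := by linarith only [hy]
    rw [← Real.log_div (by linarith only [hx]) y0.ne']
    refine (Real.log_le_sub_one_of_pos (div_pos (by linarith only [hx]) y0)).trans ?_
    rw [sub_le_iff_le_add, div_le_iff₀ y0]
    nlinarith only [le_abs_self (x - y), abs_nonneg (x - y), hy]
  refine abs_le.2 ⟨?_, key hx hy⟩
  have := key hy hx
  rw [abs_sub_comm] at this
  linarith only [this]

lemma bql_exp {z : ℝ} (hz : z ∈ Set.Icc (-1 : ℝ) 1) : 0.36 ≤ exp z ∧ exp z ≤ 3 :=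
  ⟨(le_trans (by norm_num) Real.exp_neg_one_gt_d9.le).trans (exp_le_exp.2 hz.1),
    (exp_le_exp.2 hz.2).trans (Real.exp_one_lt_d9.le.trans (by norm_num))⟩

lemma bql_near {q k p d w z : ℝ} (hk : 0 < k) (hq : 0 < q) (hqp : q ≤ p) (hd : d ≤ 0.023)
    (hw : 6 * q * d ≤ w * k) (hz : z ∈ Set.Icc (-1 : ℝ) 1) (h : |k * exp z - p| < 2 * (q * d)) :
    p ≤ 6 * k ∧ |z - Real.log (p / k)| ≤ w := by
  obtain ⟨e1, e2⟩ := bql_exp hz
  obtain ⟨h1, h2⟩ := abs_lt.1 h
  have h3 : q * d ≤ 0.023 * p := by nlinarith only [hq, hqp, hd]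
  have h4 : k * exp z ≤ k * 3 := mul_le_mul_of_nonneg_left e2 hk.le
  have h5 : k * 0.36 ≤ k * exp z := mul_le_mul_of_nonneg_left e1 hk.le
  refine ⟨by linarith only [h1, h2, h3, h4], ?_⟩
  have h6 : 1 / 3 ≤ p / k := by rw [le_div_iff₀ hk]; linarith only [h1, h2, h3, h5]
  have h7 := bql_log (x := exp z) (by linarith only [e1]) h6
  rw [Real.log_exp] at h7
  have h8 : |exp z - p / k| * k = |k * exp z - p| := by
    rw [← abs_of_pos hk, ← abs_mul, abs_of_pos hk]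
    congr 1
    field_simp
  refine h7.trans (le_of_mul_le_mul_right ?_ hk)
  linarith only [hw, h, h8]

lemma bql_one (W : Finset ℤ) {q k j g b p : ℕ} {d w : ℝ} (hq : 1 ≤ q) (hj : 1 ≤ j) (hg : 1 ≤ g)
    (hb : 1 ≤ b) (e1 : k = g * b) (e2 : q * j = g * p) (d0 : 0 < d) (hd : d ≤ 0.023) (w0 : 0 < w)
    (hw : 6 * q * d ≤ w * k) :
    ∫ z in (-1 : ℝ)..1, ‖rho W (-z)‖ ^ 2 * cut (q * d) (k * exp z - q * j) ≤
      if p ≤ 6 * b then
        4 * ∫ ξ in (-(2 * w))..(2 * w), ‖rho W (ξ + Real.log b - Real.log p)‖ ^ 2 else 0 := by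
  have q0 : (0 : ℝ) < q := by exact_mod_cast hq
  have g0 : (0 : ℝ) < g := by exact_mod_cast hg
  have b0 : (0 : ℝ) < b := by exact_mod_cast hb
  have j1 : (1 : ℝ) ≤ j := by exact_mod_cast hj
  have e1' : (k : ℝ) = g * b := by exact_mod_cast e1
  have e2' : (q : ℝ) * j = g * p := by exact_mod_cast e2
  have k0 : (0 : ℝ) < k := by rw [e1']; positivity
  have p0 : (0 : ℝ) < p := by
    have : 0 < (g : ℝ) * p := by rw [← e2']; positivity
    exact (mul_pos_iff_of_pos_left g0).1 this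
  have qd : 0 < (q : ℝ) * d := by positivity
  have e3 : Real.log ((q : ℝ) * j / k) = Real.log p - Real.log b := by
    rw [e1', e2', mul_div_mul_left _ _ g0.ne', Real.log_div p0.ne' b0.ne']
  have key : ∀ z ∈ Set.Icc (-1 : ℝ) 1, cut (q * d) (k * exp z - q * j) ≠ 0 →
      p ≤ 6 * b ∧ |z - (Real.log p - Real.log b)| ≤ w := by
    intro z hz hc
    have := bql_near k0 q0 (p := q * j) (by nlinarith only [j1]) hd hw hz
      (not_le.1 fun h => hc (cut_zero qd h))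
    rw [e3, e1', e2'] at this
    refine ⟨?_, this.2⟩
    have h1 : (g : ℝ) * p ≤ g * (6 * b) := by linarith only [this.1]
    exact_mod_cast le_of_mul_le_mul_left h1 g0
  split_ifs with hp
  · have := bql_loc (f := fun z => ‖rho W (-z)‖ ^ 2 * cut (q * d) (k * exp z - q * j))
      (F := fun z => 2 * ‖rho W (-z)‖ ^ 2) (by fun_prop) (by fun_prop) (fun z => by positivity)
      (c := Real.log p - Real.log b) w0 fun z hz => by
        by_cases hc : cut (q * d) (k * exp z - q * j) = 0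
        · rw [hc, mul_zero]
          exact mul_nonneg (by positivity) (cut_nonneg w0 _)
        · have h1 := cut_ge w0 (key z hz hc).2
          have h2 := cut_le qd (k * exp z - q * j)
          have h3 : 0 ≤ ‖rho W (-z)‖ ^ 2 := by positivity
          nlinarith only [h1, h2]
    rw [intervalIntegral.integral_const_mul] at this
    refine this.trans (le_of_eq ?_)
    rw [← mul_assoc]
    congr 1
    · norm_num
    · congr 1
      funext ξ
      congr 3
      ring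
  · rw [intervalIntegral.integral_congr (g := fun _ => 0), intervalIntegral.integral_zero]
    intro z hz
    rw [Set.uIcc_of_le (by norm_num)] at hz
    have : cut (q * d) (k * exp z - q * j) = 0 := by
      by_contra hc
      exact hp (key z hz hc).1
    simp only [this, mul_zero]

lemma bql_count (M K : ℕ) (A : Finset (ℕ × ℕ × ℕ)) (G : ℕ → ℕ → ℝ) (G0 : ∀ b p, 0 ≤ G b p) {E : ℝ}
    (E0 : 0 ≤ E) (hE : ∀ n : ℕ, n ≠ 0 → n ≤ 12 * K → (#n.divisors : ℝ) ≤ E)
    (hA : ∀ y ∈ A, 1 ≤ y.1 ∧ 1 ≤ y.2.2 ∧ 1 ≤ y.2.1 ∧ y.2.1 < 2 * K ∧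
      y.2.1 / Nat.gcd (y.1 * y.2.2) y.2.1 ≤ M ∧
      y.1 * y.2.2 / Nat.gcd (y.1 * y.2.2) y.2.1 ≤ 6 * (y.2.1 / Nat.gcd (y.1 * y.2.2) y.2.1)) :
    ∑ y ∈ A, G (y.2.1 / Nat.gcd (y.1 * y.2.2) y.2.1) (y.1 * y.2.2 / Nat.gcd (y.1 * y.2.2) y.2.1) ≤
      2 * K * E * ∑ b ∈ Icc 1 M, (1 / b : ℝ) * ∑ p ∈ Icc 1 (6 * b), G b p := by
  let S : Finset (Σ _ : ℕ, Σ _ : ℕ, Σ _ : ℕ, ℕ) := (Icc 1 M).sigma fun b =>
    (Icc 1 (6 * b)).sigma fun p => (Icc 1 (2 * K / b)).sigma fun g => (g * p).divisors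
  have h1 := bql_inj A S (fun y => ⟨y.2.1 / Nat.gcd (y.1 * y.2.2) y.2.1,
    y.1 * y.2.2 / Nat.gcd (y.1 * y.2.2) y.2.1, Nat.gcd (y.1 * y.2.2) y.2.1, y.1⟩)
    (fun s => G s.1 s.2.1) ?_ ?_ fun s _ => G0 _ _
  · refine h1.trans ?_
    simp only [S, sum_sigma, mul_sum]
    refine sum_le_sum fun b hb => sum_le_sum fun p hp => ?_
    obtain ⟨b1, -⟩ := mem_Icc.1 hb
    obtain ⟨p1, p2⟩ := mem_Icc.1 hp
    have h2 : ∀ g ∈ Icc 1 (2 * K / b), ∑ _q ∈ (g * p).divisors, G b p ≤ E * G b p := by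
      intro g hg
      obtain ⟨g1, g2⟩ := mem_Icc.1 hg
      rw [sum_const, nsmul_eq_mul]
      refine mul_le_mul_of_nonneg_right (hE _ (by positivity) ?_) (G0 _ _)
      have := (Nat.le_div_iff_mul_le b1).1 g2
      nlinarith only [p2, this]
    refine (sum_le_sum h2).trans ?_
    rw [sum_const, nsmul_eq_mul, Nat.card_Icc, Nat.add_sub_cancel]
    have h3 : ((2 * K / b : ℕ) : ℝ) ≤ 2 * K * (1 / b) := by
      refine Nat.cast_div_le.trans (le_of_eq ?_)
      push_cast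
      ring
    have h4 := mul_le_mul_of_nonneg_right h3 (mul_nonneg E0 (G0 b p))
    linarith only [h4]
  · rintro ⟨q, k, j⟩ hy
    obtain ⟨a1, a2, a3, a4, a5, a6⟩ := hA _ hy
    simp only at a1 a2 a3 a4 a5 a6
    have g0 : 0 < Nat.gcd (q * j) k := Nat.gcd_pos_of_pos_right _ a3
    have b0 : 0 < k / Nat.gcd (q * j) k := Nat.div_gcd_pos_of_pos_right _ a3
    have p0 : 0 < q * j / Nat.gcd (q * j) k := Nat.div_gcd_pos_of_pos_left _ (by positivity)
    simp only [S, mem_sigma, mem_Icc, Nat.mem_divisors]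
    rw [Nat.mul_div_cancel' (Nat.gcd_dvd_left _ _), Nat.le_div_iff_mul_le b0,
      Nat.mul_div_cancel' (Nat.gcd_dvd_right _ _)]
    exact ⟨⟨b0, a5⟩, ⟨p0, a6⟩, ⟨g0, a4.le⟩, Dvd.intro _ rfl, by positivity⟩
  · rintro ⟨q, k, j⟩ hy ⟨q', k', j'⟩ hy' h
    simp only [Sigma.mk.injEq, heq_eq_eq] at h
    obtain ⟨h1, h2, h3, rfl⟩ := h
    have q0 : 0 < q := (hA _ hy).1
    have e1 : k = k' := by
      rw [← Nat.mul_div_cancel' (Nat.gcd_dvd_right (q * j) k), h1, h3,
        Nat.mul_div_cancel' (Nat.gcd_dvd_right _ _)]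
    have e2 : q * j = q * j' := by
      rw [← Nat.mul_div_cancel' (Nat.gcd_dvd_left (q * j) k), h2, h3,
        Nat.mul_div_cancel' (Nat.gcd_dvd_left _ _)]
    rw [e1, Nat.eq_of_mul_eq_mul_left q0 e2]

end

section

/-! ### block BP -/

lemma bp_sym (M : ℕ) (f : ℤ → ℝ) :
    ∑ k ∈ (Icc (-(M : ℤ)) M).erase 0, f k = ∑ k ∈ Icc 1 M, (f k + f (-(k : ℤ))) := by
  induction M with
  | zero => simp only [CharP.cast_eq_zero, neg_zero, Icc_self, erase_singleton, sum_empty, Order.lt_one_iff, Icc_eq_empty_of_lt]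
  | succ M ih =>
    have e : (Icc (-((M + 1 : ℕ) : ℤ)) (M + 1 : ℕ)).erase 0 =
        insert ((M + 1 : ℕ) : ℤ) (insert (-((M + 1 : ℕ) : ℤ)) ((Icc (-(M : ℤ)) M).erase 0)) := by
      ext k; simp only [mem_erase, mem_Icc, mem_insert]; omega
    rw [e, sum_insert, sum_insert, ih, sum_Icc_succ_top (by omega)]
    · ring
    · simp only [mem_erase, mem_Icc]; omega
    · simp only [mem_erase, mem_Icc, mem_insert]; omega

lemma bp_log {N : ℕ} {E : ℝ} (hN : 1 ≤ N) (h : 2 + 4 * Real.log N ≤ E) :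
    ((Nat.log 2 (N ^ 2) + 1 : ℕ) : ℝ) ≤ E := by
  have h1 : ((2 : ℝ)) ^ Nat.log 2 (N ^ 2) ≤ (N : ℝ) ^ 2 := by
    exact_mod_cast Nat.pow_log_le_self 2 (pow_ne_zero 2 (by omega))
  have h2 := Real.log_le_log (by positivity) h1
  rw [Real.log_pow, Real.log_pow] at h2
  have h3 := Real.log_two_gt_d9
  have h4 : (0 : ℝ) ≤ Nat.log 2 (N ^ 2) := Nat.cast_nonneg _
  push_cast at h2 ⊢
  nlinarith only [h, h2, h3]

end

section

lemma mja_pt {N T P a q m m' : ℕ} {E z z' : ℝ} {j : ℤ} (hN : 1 ≤ N) (hT : 1 ≤ T) (hE : 1 ≤ E)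
    (hPN : (P : ℝ) * N ≤ E * T) (ha : 1 ≤ a) (hq : 1 ≤ q) (haq : a ≤ 2 * q) (hm' : m' ≤ 2 * P)
    (hz : z ≤ 1) :
    tri (1 / T) (z - z' + log a - log q) * tri (1 / (8 * N)) (m * exp z - m' * exp z' - j) ≤
      8 * N * cut (q * (23 * E / N)) ((((q : ℤ) * m - a * m' : ℤ) : ℝ) * exp z - q * j) *
        tri (1 / T) (z' - (z + log a - log q)) := by
  have N0 : (0 : ℝ) < N := by exact_mod_cast hN
  have T1 : (1 : ℝ) ≤ T := by exact_mod_cast hT
  have T0 : (0 : ℝ) < T := by linarith only [T1]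
  have a0 : (0 : ℝ) < a := by exact_mod_cast ha
  have q0 : (0 : ℝ) < q := by exact_mod_cast hq
  have hw : (0 : ℝ) < q * (23 * E / N) := by positivity
  have e1 : z' - (z + log a - log q) = -(z - z' + log a - log q) := by ring
  rw [e1, tri_neg]
  set y := z - z' + log a - log q with hy
  set w := m * exp z - m' * exp z' - j with hw'
  have t0 := tri_nonneg (δ := 1 / T) (by positivity) y
  have c0 := cut_nonneg hw ((((q : ℤ) * m - a * m' : ℤ) : ℝ) * exp z - q * j)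
  by_cases h1 : tri (1 / T) y = 0
  · rw [h1, zero_mul, mul_zero]
  by_cases h2 : tri (1 / (8 * N)) w = 0
  · rw [h2, mul_zero]; positivity
  have h3 := lt_of_tri_ne (by positivity) h1
  have h4 := lt_of_tri_ne (by positivity) h2
  have h5 : 1 / (T : ℝ) ≤ 1 := by rw [div_le_one T0]; exact T1
  have h6 : |exp (-y) - 1| ≤ 2 * |(-y)| := Real.abs_exp_sub_one_le (by rw [abs_neg]; linarith only [h3, h5])
  rw [abs_neg] at h6
  have h7 : q * exp z' = a * exp z * exp (-y) := by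
    have : z' = z + log a - log q + -y := by rw [hy]; ring
    rw [this, exp_add, exp_sub, exp_add, exp_log a0, exp_log q0]
    field_simp
  have h8 : exp z ≤ 11 / 4 := (exp_le_exp.2 hz).trans (by linarith only [exp_one_lt_d9])
  have e2 : (((q : ℤ) * m - a * m' : ℤ) : ℝ) * exp z - q * j =
      q * w + a * m' * exp z * (exp (-y) - 1) := by
    push_cast
    rw [hw']
    linear_combination (m' : ℝ) * h7
  have h9 : (a : ℝ) * m' * exp z ≤ 2 * q * (2 * P) * (11 / 4) := by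
    have h10 : (a : ℝ) ≤ 2 * q := by exact_mod_cast haq
    have h11 : (m' : ℝ) ≤ 2 * P := by exact_mod_cast hm'
    gcongr
  have h12 : (P : ℝ) * (1 / T) ≤ E / N := by
    rw [mul_one_div, div_le_div_iff₀ T0 N0]; exact hPN
  have h13 : 1 / (8 * (N : ℝ)) ≤ E / N := by
    rw [div_le_div_iff₀ (by positivity) N0]; nlinarith only [hE]
  have h14 : |(((q : ℤ) * m - a * m' : ℤ) : ℝ) * exp z - q * j| ≤ q * (23 * E / N) := by
    rw [e2]
    refine (abs_add_le _ _).trans ?_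
    rw [abs_mul, abs_mul _ (exp (-y) - 1), abs_of_pos q0,
      abs_of_nonneg (by positivity : (0 : ℝ) ≤ a * m' * exp z)]
    have h15 : (a : ℝ) * m' * exp z * |exp (-y) - 1| ≤ 2 * q * (2 * P) * (11 / 4) * (2 * (1 / T)) :=
      mul_le_mul h9 (by linarith only [h3, h6]) (abs_nonneg _) (by positivity)
    have h16 : (q : ℝ) * |w| ≤ q * (E / N) := by gcongr; linarith only [h4, h13]
    have h17 : (q : ℝ) * (P * (1 / T)) ≤ q * (E / N) := by gcongr
    have e3 : (q : ℝ) * (23 * E / N) = 23 * (q * (E / N)) := by ring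
    linarith only [h15, h16, h17, e3]
  have h18 := cut_ge hw h14
  have h19 := tri_le (δ := 1 / (8 * N)) (by positivity) w
  rw [one_div_one_div] at h19
  rw [mul_comm]
  refine mul_le_mul_of_nonneg_right (h19.trans ?_) t0
  nlinarith only [h18]

/-- reduced numerator and denominator -/
def mja_a (p : ℕ × ℕ) : ℕ := p.1 / Nat.gcd p.1 p.2

def mja_q (p : ℕ × ℕ) : ℕ := p.2 / Nat.gcd p.1 p.2

lemma mja_facts {N T : ℕ} (hN : 1 ≤ N) {p : ℕ × ℕ} (hp : p ∈ majp N T) :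
    1 ≤ Nat.gcd p.1 p.2 ∧ p.1 = Nat.gcd p.1 p.2 * mja_a p ∧ p.2 = Nat.gcd p.1 p.2 * mja_q p ∧
      1 ≤ mja_a p ∧ 1 ≤ mja_q p ∧ mja_a p ≤ 2 * mja_q p ∧ mja_q p ≤ T / N ∧ mja_a p ≤ 2 * N ∧
      Nat.gcd p.1 p.2 ≤ 2 * N / mja_q p := by
  simp only [majp, allp, mem_filter, mem_product, mem_Ioc] at hp
  obtain ⟨⟨⟨h1, h2⟩, h3, h4⟩, h5⟩ := hp
  have g0 : 0 < Nat.gcd p.1 p.2 := Nat.gcd_pos_of_pos_left _ (by omega)
  have e1 : p.1 = Nat.gcd p.1 p.2 * mja_a p := (Nat.mul_div_cancel' (Nat.gcd_dvd_left _ _)).symm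
  have e2 : p.2 = Nat.gcd p.1 p.2 * mja_q p := (Nat.mul_div_cancel' (Nat.gcd_dvd_right _ _)).symm
  generalize Nat.gcd p.1 p.2 = g at *
  generalize mja_a p = a at *
  generalize mja_q p = q at *
  have a0 : 1 ≤ a := Nat.pos_of_ne_zero fun h => by rw [h] at e1; omega
  have q0 : 1 ≤ q := Nat.pos_of_ne_zero fun h => by rw [h] at e2; omega
  refine ⟨g0, e1, e2, a0, q0, ?_, ?_, ?_, ?_⟩
  · refine Nat.le_of_mul_le_mul_left ?_ g0
    linarith only [h2, h3, e1, e2]
  · rw [Nat.le_div_iff_mul_le hN]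
    refine Nat.le_of_mul_le_mul_left ?_ g0
    rw [e1, e2] at h5
    linarith only [Nat.zero_le (g * a * N), h5]
  · nlinarith only [h2, g0, e1]
  · rw [Nat.le_div_iff_mul_le q0]; omega

lemma mja_int {N T P m m' : ℕ} {E : ℝ} {j : ℤ} {f : ℝ → ℝ} (hf : Continuous f) (f0 : ∀ z, 0 ≤ f z)
    (hN : 1 ≤ N) (hT : 1 ≤ T) (hE : 1 ≤ E) (hPN : (P : ℝ) * N ≤ E * T) (hm' : m' ≤ 2 * P) :
    ∫ z in (-1 : ℝ)..1, ∫ z' in (-1 : ℝ)..1, f z * 1 * nu T (majp N T) (z - z') *
        tri (1 / (8 * N)) (m * exp z - m' * exp z' - j) ≤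
      ∑ p ∈ majp N T, 8 * N * ∫ z in (-1 : ℝ)..1, f z * cut (mja_q p * (23 * E / N))
        ((((mja_q p : ℤ) * m - mja_a p * m' : ℤ) : ℝ) * exp z - mja_q p * j) := by
  have N0 : (0 : ℝ) < N := by exact_mod_cast hN
  have T0 : (0 : ℝ) < T := by exact_mod_cast hT
  simp only [← intervalIntegral.integral_const_mul]
  rw [← intervalIntegral.integral_finsetSum fun p _ => Continuous.intervalIntegrable (by fun_prop) _ _]
  refine intervalIntegral.integral_mono_on (by norm_num)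
    ((ii_cont (f := fun z z' => f z * 1 * nu T (majp N T) (z - z') *
        tri (1 / (8 * N)) (m * exp z - m' * exp z' - j)) (by fun_prop) _ _).intervalIntegrable _ _)
    (Continuous.intervalIntegrable (by fun_prop) _ _) fun z hz => ?_
  refine (intervalIntegral.integral_mono_on (g := fun z' => ∑ p ∈ majp N T,
    8 * N * (f z * cut (mja_q p * (23 * E / N))
        ((((mja_q p : ℤ) * m - mja_a p * m' : ℤ) : ℝ) * exp z - mja_q p * j)) *
      tri (1 / T) (z' - (z + log (mja_a p) - log (mja_q p)))) (by norm_num)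
    (Continuous.intervalIntegrable (by fun_prop) _ _)
    (Continuous.intervalIntegrable (by fun_prop) _ _) fun z' _ => ?_).trans ?_
  · rw [nu, mul_one, mul_assoc, sum_mul, mul_sum]
    refine sum_le_sum fun p hp => ?_
    obtain ⟨g0, e1, e2, a0, q0, haq, -⟩ := mja_facts hN hp
    have g1 : ((Nat.gcd p.1 p.2 : ℕ) : ℝ) ≠ 0 := by exact_mod_cast (by omega)
    have a1 : (mja_a p : ℝ) ≠ 0 := by exact_mod_cast (by omega)
    have q1 : (mja_q p : ℝ) ≠ 0 := by exact_mod_cast (by omega)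
    have e3 : z - z' + log p.1 - log p.2 = z - z' + log (mja_a p) - log (mja_q p) := by
      have e4 : log p.1 = log (Nat.gcd p.1 p.2 : ℕ) + log (mja_a p) := by
        rw [← log_mul g1 a1, ← Nat.cast_mul, ← e1]
      have e5 : log p.2 = log (Nat.gcd p.1 p.2 : ℕ) + log (mja_q p) := by
        rw [← log_mul g1 q1, ← Nat.cast_mul, ← e2]
      rw [e4, e5]; ring
    rw [e3]
    have := mul_le_mul_of_nonneg_left
      (mja_pt (m := m) (z' := z') (j := j) hN hT hE hPN a0 q0 haq hm' hz.2) (f0 z)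
    refine this.trans (le_of_eq ?_)
    ring
  · rw [intervalIntegral.integral_finsetSum fun p _ =>
      Continuous.intervalIntegrable (by fun_prop) _ _]
    refine sum_le_sum fun p hp => ?_
    obtain ⟨-, -, -, -, q0, -⟩ := mja_facts hN hp
    have q1 : (0 : ℝ) < mja_q p := by exact_mod_cast q0
    rw [intervalIntegral.integral_const_mul]
    refine mul_le_of_le_one_right ?_ (tri_int_le (by positivity) (by norm_num) _)
    exact mul_nonneg (by positivity) (mul_nonneg (f0 z) (cut_nonneg (by positivity) _))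

lemma mja_count {N T P : ℕ} {E : ℝ} (hN : 1 ≤ N) (hPN : 12 * P ≤ N)
    (tau : ∀ n : ℕ, n ≠ 0 → n ≤ N ^ 4 → (#n.divisors : ℝ) ≤ E) (hE : 0 ≤ E) (q : ℕ) (hq : 1 ≤ q)
    (k : ℤ) :
    (#{s ∈ majp N T ×ˢ (Ico P (2 * P) ×ˢ Ico P (2 * P)) |
      mja_q s.1 = q ∧ (mja_q s.1 : ℤ) * s.2.1 - mja_a s.1 * s.2.2 = k} : ℝ) ≤ 2 * N / q * (P * E) := by
  classical
  set D : ℕ → Finset ℕ := fun m =>
    if ((q : ℤ) * m - k).toNat ≤ N ^ 4 then ((q : ℤ) * m - k).toNat.divisors else ∅ with hD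
  have hDE : ∀ m, (#(D m) : ℝ) ≤ E := fun m => by
    simp only [hD]
    split_ifs with h
    · by_cases h0 : ((q : ℤ) * m - k).toNat = 0
      · rw [h0]; simpa only [Nat.divisors_zero, card_empty, CharP.cast_eq_zero] using hE
      · exact tau _ h0 h
    · simpa only [card_empty, CharP.cast_eq_zero] using hE
  have h1 : #{s ∈ majp N T ×ˢ (Ico P (2 * P) ×ˢ Ico P (2 * P)) |
      mja_q s.1 = q ∧ (mja_q s.1 : ℤ) * s.2.1 - mja_a s.1 * s.2.2 = k} ≤
      #(Icc 1 (2 * N / q) ×ˢ (Ico P (2 * P)).sigma D) := by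
    refine card_le_card_of_injOn
      (fun s => (Nat.gcd s.1.1 s.1.2, (⟨s.2.1, s.2.2⟩ : Σ _ : ℕ, ℕ))) (fun s hs => ?_)
      (fun s hs t ht hst => ?_)
    · simp only [coe_filter, mem_product, mem_Ico, Set.mem_ofPred_eq] at hs
      obtain ⟨⟨hp, hm, hm'⟩, e1, e2⟩ := hs
      obtain ⟨g0, -, -, a0, -, -, -, aN, gq⟩ := mja_facts hN hp
      rw [e1] at e2 gq
      have e3 : ((q : ℤ) * s.2.1 - k).toNat = mja_a s.1 * s.2.2 := by
        rw [← e2, sub_sub_cancel, ← Nat.cast_mul, Int.toNat_natCast]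
      have h2 : mja_a s.1 * s.2.2 ≤ N ^ 4 := by
        have h3 : mja_a s.1 * s.2.2 ≤ 2 * N * (2 * P) := Nat.mul_le_mul aN hm'.2.le
        have h4 : N ^ 2 ≤ N ^ 4 := Nat.pow_le_pow_right hN (by norm_num)
        nlinarith only [hPN, h3, h4]
      simp only [coe_product, Set.mem_prod, mem_coe, mem_Icc, mem_sigma, mem_Ico, hD, e3, h2,
        if_true, Nat.mem_divisors]
      exact ⟨⟨g0, gq⟩, hm, Dvd.intro_left _ rfl, Nat.mul_ne_zero (by omega) (by omega)⟩
    · simp only [coe_filter, mem_product, mem_Ico, Set.mem_ofPred_eq] at hs ht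
      obtain ⟨⟨hp, hm, hm'⟩, e1, e2⟩ := hs
      obtain ⟨⟨hp2, -, -⟩, e3, e4⟩ := ht
      simp only [Prod.mk.injEq, Sigma.mk.injEq, heq_eq_eq] at hst
      obtain ⟨e5, e6, e7⟩ := hst
      obtain ⟨-, b1, b2, -⟩ := mja_facts hN hp
      obtain ⟨-, b3, b4, -⟩ := mja_facts hN hp2
      rw [e1] at e2
      rw [e3, ← e6, ← e7] at e4
      have m0 : (s.2.2 : ℤ) ≠ 0 := by omega
      have e8 : (mja_a s.1 : ℤ) = mja_a t.1 := mul_right_cancel₀ m0 (by linarith only [e2, e4])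
      have e9 : mja_a s.1 = mja_a t.1 := by exact_mod_cast e8
      refine Prod.ext (Prod.ext ?_ ?_) (Prod.ext e6 e7)
      · exact b1.trans (by rw [e5, e9, ← b3])
      · exact b2.trans (by rw [e5, e1, ← e3, ← b4])
  refine (Nat.cast_le.2 h1).trans ?_
  rw [card_product, card_sigma, Nat.card_Icc, Nat.add_sub_cancel, Nat.cast_mul, Nat.cast_sum]
  have h5 : ((2 * N / q : ℕ) : ℝ) ≤ 2 * N / q := by
    have := Nat.cast_div_le (α := ℝ) (m := 2 * N) (n := q)
    rwa [Nat.cast_mul, Nat.cast_ofNat] at this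
  refine mul_le_mul h5 ?_ (sum_nonneg fun _ _ => Nat.cast_nonneg _) (by positivity)
  refine (sum_le_sum fun m _ => hDE m).trans (le_of_eq ?_)
  rw [sum_const, Nat.card_Ico, nsmul_eq_mul, show 2 * P - P = P by omega]

theorem mja : ∃ (C : ℝ) (k : ℕ), 0 < C ∧ ∀ (N T P X : ℕ) (E θ V : ℝ) (W : Finset ℤ) (a : ℕ → ℂ),
    World N T P X E θ V W a →
      QQ N P (fun z => ‖rho W (-z)‖ ^ 2) (fun _ => 1) (nu T (majp N T)) (Jst P) ≤
        C * E ^ k * (N ^ 2 * P * BB N T P E W) := by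
  classical
  refine ⟨16, 1, by norm_num, fun N T P X E θ V W a h => ?_⟩
  have N0 : (0 : ℝ) < N := by exact_mod_cast h.N1
  have E0 : 0 < E := by linarith [h.E1]
  set J : ℕ → ℤ → ℝ := fun q k => ∑ j ∈ Jst P, ∫ z in (-1 : ℝ)..1,
    ‖rho W (-z)‖ ^ 2 * cut (q * (23 * E / N)) (k * exp z - q * j) with hJ
  have J0 : ∀ q, 1 ≤ q → ∀ k, 0 ≤ J q k := fun q hq k => sum_nonneg fun j _ =>
    intervalIntegral.integral_nonneg (by norm_num) fun z _ => by
      have : (0 : ℝ) < q := by exact_mod_cast hq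
      exact mul_nonneg (by positivity) (cut_nonneg (by positivity) _)
  have Jz : ∀ q, 1 ≤ q → J q 0 = 0 := fun q hq => sum_eq_zero fun j hj => by
    have q0 : (0 : ℝ) < q := by exact_mod_cast hq
    have j1 : (1 : ℝ) ≤ |(j : ℝ)| := by
      exact_mod_cast Int.one_le_abs (mem_erase.1 hj).1
    have d1 : 2 * (23 * E / N) ≤ 1 := by
      rw [← mul_div_assoc, div_le_one N0]; linarith only [h.EN, E0]
    have : ∀ z : ℝ, cut (q * (23 * E / N)) (((0 : ℤ) : ℝ) * exp z - q * j) = 0 := fun z => by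
      refine cut_zero (by positivity) ?_
      rw [Int.cast_zero, zero_mul, zero_sub, abs_neg, abs_mul, abs_of_pos q0]
      nlinarith only [j1, d1]
    simp only [this, mul_zero, intervalIntegral.integral_zero]
  set S := majp N T ×ˢ (Ico P (2 * P) ×ˢ Ico P (2 * P)) with hS
  have h1 : QQ N P (fun z => ‖rho W (-z)‖ ^ 2) (fun _ => 1) (nu T (majp N T)) (Jst P) ≤
      8 * N * ∑ s ∈ S, J (mja_q s.1) ((mja_q s.1 : ℤ) * s.2.1 - mja_a s.1 * s.2.2) := by
    rw [QQ, hS, sum_product_right, sum_product, mul_sum]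
    refine sum_le_sum fun m _ => ?_
    rw [mul_sum]
    refine sum_le_sum fun m' hm' => ?_
    refine (sum_le_sum fun j _ => mja_int (f := fun z => ‖rho W (-z)‖ ^ 2) (by fun_prop)
      (fun z => by positivity) h.N1 h.T1 h.E1 h.PN (mem_Ico.1 hm').2.le).trans (le_of_eq ?_)
    rw [sum_comm, mul_sum]
    refine sum_congr rfl fun p _ => ?_
    rw [← mul_sum]
  have h2 : ∑ s ∈ S, J (mja_q s.1) ((mja_q s.1 : ℤ) * s.2.1 - mja_a s.1 * s.2.2) ≤
      ∑ s ∈ S, ∑ q ∈ Icc 1 (T / N), ∑ k ∈ (Icc (-(4 * P * q : ℤ)) (4 * P * q)).erase 0,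
        if mja_q s.1 = q ∧ (mja_q s.1 : ℤ) * s.2.1 - mja_a s.1 * s.2.2 = k then J q k else 0 := by
    refine sum_le_sum fun s hs => ?_
    simp only [hS, mem_product, mem_Ico] at hs
    obtain ⟨hp, hm, hm'⟩ := hs
    obtain ⟨-, -, -, -, q0, aq, qT, -⟩ := mja_facts h.N1 hp
    have nn : ∀ q ∈ Icc 1 (T / N), ∀ k : ℤ, 0 ≤ (if mja_q s.1 = q ∧
        (mja_q s.1 : ℤ) * s.2.1 - mja_a s.1 * s.2.2 = k then J q k else 0) := fun q hq k => by
      split_ifs
      · exact J0 q (mem_Icc.1 hq).1 k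
      · exact le_rfl
    by_cases hk : (mja_q s.1 : ℤ) * s.2.1 - mja_a s.1 * s.2.2 = 0
    · rw [hk, Jz _ q0]
      exact sum_nonneg fun q hq => sum_nonneg fun k _ => hk ▸ nn q hq k
    have hq := mem_Icc.2 ⟨q0, qT⟩
    refine le_trans ?_ (single_le_sum (fun q hq => sum_nonneg fun k _ => nn q hq k) hq)
    have b1 : mja_q s.1 * s.2.1 ≤ mja_q s.1 * (2 * P) := Nat.mul_le_mul_left _ hm.2.le
    have b2 : mja_a s.1 * s.2.2 ≤ 2 * mja_q s.1 * (2 * P) := Nat.mul_le_mul aq hm'.2.le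
    have hk2 : (mja_q s.1 : ℤ) * s.2.1 - mja_a s.1 * s.2.2 ∈
        (Icc (-(4 * P * mja_q s.1 : ℤ)) (4 * P * mja_q s.1)).erase 0 := by
      rw [mem_erase, mem_Icc]
      zify at b1 b2
      have c1 : (0 : ℤ) ≤ mja_q s.1 * s.2.1 := by positivity
      have c2 : (0 : ℤ) ≤ mja_a s.1 * s.2.2 := by positivity
      have c3 : (0 : ℤ) ≤ mja_q s.1 * P := by positivity
      refine ⟨hk, by linarith only [b2, c1], by linarith only [b1, c1, c2]⟩
    refine le_trans (le_of_eq ?_) (single_le_sum (fun k _ => nn _ hq k) hk2)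
    rw [if_pos ⟨rfl, rfl⟩]
  have h3 : ∑ s ∈ S, ∑ q ∈ Icc 1 (T / N), ∑ k ∈ (Icc (-(4 * P * q : ℤ)) (4 * P * q)).erase 0,
        (if mja_q s.1 = q ∧ (mja_q s.1 : ℤ) * s.2.1 - mja_a s.1 * s.2.2 = k then J q k else 0) ≤
      2 * N * (P * E) * BB N T P E W := by
    rw [sum_comm, BB, mul_sum]
    refine sum_le_sum fun q hq => ?_
    rw [sum_comm, ← mul_assoc, mul_sum]
    refine sum_le_sum fun k _ => ?_
    rw [← sum_filter, sum_const, nsmul_eq_mul]
    refine mul_le_mul_of_nonneg_right ((mja_count h.N1 (h.PX.trans h.XN) h.tau E0.le q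
      (mem_Icc.1 hq).1 k).trans (le_of_eq (by ring))) (J0 q (mem_Icc.1 hq).1 k)
  refine (h1.trans (mul_le_mul_of_nonneg_left (h2.trans h3) (by positivity))).trans (le_of_eq ?_)
  ring

end

section

theorem blh_mono (N P : ℕ) (hN : 1 ≤ N) {f f' H g g' H' : ℝ → ℝ} (c : ℝ) (hf : Continuous f)
    (hf' : Continuous f') (hH : Continuous H) (hg : Continuous g) (hg' : Continuous g')
    (hH' : Continuous H') (J : Finset ℤ)
    (h : ∀ z ∈ Set.Icc (-1 : ℝ) 1, ∀ z' ∈ Set.Icc (-1 : ℝ) 1,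
      f z * f' z' * H (z - z') ≤ c * (g z * g' z' * H' (z - z'))) :
    QQ N P f f' H J ≤ c * QQ N P g g' H' J := by
  have N0 : (0 : ℝ) < N := by exact_mod_cast hN
  unfold QQ
  simp only [mul_sum, ← intervalIntegral.integral_const_mul]
  refine sum_le_sum fun m _ => sum_le_sum fun m' _ => sum_le_sum fun j _ => ?_
  refine ii_mono (by unfold Function.uncurry; fun_prop) (by unfold Function.uncurry; fun_prop)
    (by norm_num) (by norm_num) fun z hz z' hz' => ?_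
  rw [← mul_assoc c]
  exact mul_le_mul_of_nonneg_right (h z hz z' hz') (tri_nonneg (by positivity) _)

theorem blh_add (N P : ℕ) {f f' H H' : ℝ → ℝ} (hf : Continuous f) (hf' : Continuous f')
    (hH : Continuous H) (hH' : Continuous H') (J : Finset ℤ) :
    QQ N P f f' (fun x => H x + H' x) J = QQ N P f f' H J + QQ N P f f' H' J := by
  unfold QQ
  simp only [← sum_add_distrib]
  refine sum_congr rfl fun m _ => sum_congr rfl fun m' _ => sum_congr rfl fun j _ => ?_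
  rw [← intervalIntegral.integral_add
    ((ii_cont (by unfold Function.uncurry; fun_prop) _ _).intervalIntegrable _ _)
    ((ii_cont (by unfold Function.uncurry; fun_prop) _ _).intervalIntegrable _ _)]
  refine intervalIntegral.integral_congr fun z _ => ?_
  rw [← intervalIntegral.integral_add (Continuous.intervalIntegrable (by fun_prop) _ _)
    (Continuous.intervalIntegrable (by fun_prop) _ _)]
  refine intervalIntegral.integral_congr fun z' _ => ?_
  ring

theorem blh_split (N P : ℕ) (f f' H : ℝ → ℝ) :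
    QQ N P f f' H (Jall P) = QQ N P f f' H {0} + QQ N P f f' H (Jst P) := by
  unfold QQ
  simp only [← sum_add_distrib, sum_singleton]
  refine sum_congr rfl fun m _ => sum_congr rfl fun m' _ => ?_
  have h0 : (0 : ℤ) ∈ Jall P := by
    simp only [Jall, mem_Icc]
    omega
  exact (add_sum_erase _ _ h0).symm

end

end Pool.Agent.MP_71ac24_nt.H17
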