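import Pool.Agent.MP_71ac24_nt.H14.LS
import Pool.Agent.MP_e4c747_an.Exp

/-! Definitions for the large values estimate with a power saving in the cubic term. -/

set_option autoImplicit false

namespace Pool.Agent.MP_71ac24_nt.H17

open Finset Real
open scoped ComplexConjugate
open Pool.Agent.MP_71ac24_nt.H14 (ei Sep ei_add norm_ei ei_zero conj_ei norm_ei_sub continuous_ei)

/-- `e(x) = exp (2 π i x)` -/
noncomputable def e (x : ℝ) : ℂ := ei (2 * π * x)

/-- the triangle of mass one and half-width `δ` -/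
noncomputable def tri (δ x : ℝ) : ℝ := max 0 (1 - |x| / δ) / δ

/-- the self-convolution of the triangle -/
noncomputable def Kr (δ x : ℝ) : ℝ := ∫ u in (-δ)..δ, tri δ u * tri δ (u - x)

/-- a continuous cut-off: at least one on `[-w, w]`, at most two, zero outside `(-2 w, 2 w)` -/
noncomputable def cut (w x : ℝ) : ℝ := 4 * w * tri (2 * w) x

/-- truncation of a complex number at height `U` -/
noncomputable def clamp (U : ℝ) (w : ℂ) : ℂ := w * ((U / max U ‖w‖ : ℝ) : ℂ)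

/-- the trigonometric polynomial with frequencies `W` -/
noncomputable def rho (W : Finset ℤ) (x : ℝ) : ℂ := ∑ t ∈ W, ei (t * x)

/-- a trigonometric polynomial of degree at most `2 T` -/
noncomputable def tp (T : ℕ) (c : ℤ → ℂ) (x : ℝ) : ℂ :=
  ∑ r ∈ Icc (-(2 * T : ℤ)) (2 * T), c r * ei (r * x)

/-- the Dirichlet polynomial -/
noncomputable def DP (N : ℕ) (a : ℕ → ℂ) (t : ℝ) : ℂ :=
  ∑ n ∈ Ioc N (2 * N), a n * ei (t * Real.log n)

/-- the sum of `n ^ (i s)` over `n ≤ Y` -/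
noncomputable def Zs (Y : ℕ) (s : ℝ) : ℂ := ∑ n ∈ Icc 1 Y, ei (s * Real.log n)

/-- the quadratic form that is left after Poisson summation -/
noncomputable def SS (N P : ℕ) (W : Finset ℤ) (ψ : ℝ → ℂ) : ℝ :=
  ∑ t ∈ W, ∑ l ∈ Icc (-(2 * N : ℤ)) (2 * N),
    ‖∑ m ∈ Ico P (2 * P), ∫ z in (-1 : ℝ)..1, ψ z * ei (t * z) * e (-(m * l * exp z))‖ ^ 2

/-- all pairs -/
def allp (N : ℕ) : Finset (ℕ × ℕ) := Ioc N (2 * N) ×ˢ Ioc N (2 * N)

/-- pairs whose ratio has small height -/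
def majp (N T : ℕ) : Finset (ℕ × ℕ) :=
  (allp N).filter fun p => (p.1 + p.2) * N ≤ T * Nat.gcd p.1 p.2

/-- pairs whose ratio has large height -/
def minp (N T : ℕ) : Finset (ℕ × ℕ) :=
  (allp N).filter fun p => ¬ (p.1 + p.2) * N ≤ T * Nat.gcd p.1 p.2

/-- the majorant -/
noncomputable def nu (T : ℕ) (A : Finset (ℕ × ℕ)) (x : ℝ) : ℝ :=
  ∑ p ∈ A, tri (1 / T) (x + Real.log p.1 - Real.log p.2)

/-- all shifts -/
noncomputable def Jall (P : ℕ) : Finset ℤ := Icc (-(6 * P + 1 : ℤ)) (6 * P + 1)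

/-- the non-zero shifts -/
noncomputable def Jst (P : ℕ) : Finset ℤ := (Jall P).erase 0

/-- the positive trilinear form -/
noncomputable def QQ (N P : ℕ) (f f' H : ℝ → ℝ) (J : Finset ℤ) : ℝ :=
  ∑ m ∈ Ico P (2 * P), ∑ m' ∈ Ico P (2 * P), ∑ j ∈ J, ∫ z in (-1 : ℝ)..1, ∫ z' in (-1 : ℝ)..1,
    f z * f' z' * H (z - z') * tri (1 / (8 * N)) (m * exp z - m' * exp z' - j)

/-- the oscillating trilinear form -/
noncomputable def TT (N P : ℕ) (ψ G : ℝ → ℂ) : ℂ :=
  ∑ m ∈ Ico P (2 * P), ∑ m' ∈ Ico P (2 * P), ∑ j ∈ Jst P, ∫ z in (-1 : ℝ)..1, ∫ z' in (-1 : ℝ)..1,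
    ψ z * conj (ψ z') * G (z - z') * ((Kr (1 / (32 * N)) (m * exp z - m' * exp z' - j) : ℝ) : ℂ)

/-- the fourth power of the box norm of the matrix `G (x + log m' - log m)` -/
noncomputable def gam (P : ℕ) (G : ℝ → ℂ) (x : ℝ) : ℝ :=
  ∑ m₁ ∈ Ico P (2 * P), ∑ m₂ ∈ Ico P (2 * P), ‖∑ m' ∈ Ico P (2 * P),
    G (x + Real.log m' - Real.log m₁) * conj (G (x + Real.log m' - Real.log m₂))‖ ^ 2

/-- the smoothed counting kernel -/
noncomputable def k0 (N P : ℕ) (u z : ℝ) : ℝ :=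
  ∑ m ∈ Ico P (2 * P), tri (1 / (32 * N)) (u - m * exp z)

/-- its periodisation -/
noncomputable def kp (N P : ℕ) (u z : ℝ) : ℝ := ∑ i ∈ range (6 * P + 1), k0 N P (u + i) z

/-- the major arc sum -/
noncomputable def BB (N T P : ℕ) (E : ℝ) (W : Finset ℤ) : ℝ :=
  ∑ q ∈ Icc 1 (T / N), (1 / q : ℝ) * ∑ k ∈ (Icc (-(4 * P * q : ℤ)) (4 * P * q)).erase 0,
    ∑ j ∈ Jst P, ∫ z in (-1 : ℝ)..1, ‖rho W (-z)‖ ^ 2 * cut (q * (23 * E / N)) (k * exp z - q * j)

/-- the bump -/
noncomputable def bump : ContDiffBump (3 / 2 : ℝ) := ⟨1 / 2, 3 / 5, by norm_num, by norm_num⟩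

/-- the smooth weight -/
noncomputable def wt (x : ℝ) : ℝ := bump x

/-- the smoothed sum of `n ^ (i s)` -/
noncomputable def Gs (N : ℕ) (s : ℝ) : ℂ :=
  ∑ n ∈ Icc 1 (3 * N), ((wt (n / N) : ℝ) : ℂ) * ei (s * Real.log n)

/-- the terms of the Poisson summation formula -/
noncomputable def Im (N : ℕ) (s : ℝ) (m : ℤ) : ℂ :=
  N * ei (s * Real.log N) *
    ∫ z in (-1 : ℝ)..1, ((wt (exp z) * exp z : ℝ) : ℂ) * ei (s * z) * e (-(m * N * exp z))

/-- admissible amplitudes -/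
structure Adm (W : Finset ℤ) (ψ : ℝ → ℂ) : Prop where
  cont : Continuous ψ
  le : ∀ z, ‖ψ z‖ ≤ ‖rho W (-z)‖
  zero : ∀ z, 1 ≤ |z| → ψ z = 0

/-- the standing assumptions -/
structure World (N T P X : ℕ) (E θ V : ℝ) (W : Finset ℤ) (a : ℕ → ℂ) : Prop where
  NT : N ≤ T
  T2 : T ^ 2 ≤ N ^ 3
  E1 : 1 ≤ E
  EN : 1000 * E ≤ N
  lg : 2 + 4 * Real.log N ≤ E
  tau : ∀ n : ℕ, n ≠ 0 → n ≤ N ^ 4 → (#n.divisors : ℝ) ≤ E
  P1 : 1 ≤ P
  PN : (P : ℝ) * N ≤ E * T
  XT : 12 * E * T ≤ X * N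
  XN : X ≤ N
  θ1 : θ ≤ 1
  θX : 1 ≤ θ * X
  hZ : ∀ Y ≤ X, ∀ s : ℤ, s ≠ 0 → |s| ≤ 4 * T → ‖Zs Y s‖ ≤ E * X / |(s : ℝ)| + θ * X
  hW : ∀ t ∈ W, 0 ≤ t ∧ t ≤ T
  W1 : 1 ≤ #W
  ha : ∀ n, ‖a n‖ ≤ 1
  V0 : 0 < V
  hV : ∀ t ∈ W, V ≤ ‖DP N a t‖

/-! ### basic facts -/

lemma e_add (x y : ℝ) : e (x + y) = e x * e y := by rw [e, e, e, ← ei_add, mul_add]

lemma norm_e (x : ℝ) : ‖e x‖ = 1 := norm_ei _

lemma e_zero : e 0 = 1 := by rw [e, mul_zero, ei_zero]

lemma conj_e (x : ℝ) : conj (e x) = e (-x) := by rw [e, e, conj_ei, mul_neg]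

lemma e_int (j : ℤ) : e j = 1 := by
  rw [e, ei, ← Complex.exp_int_mul_two_pi_mul_I j]; congr 1; push_cast; ring

@[fun_prop] lemma cont_ei : Continuous ei := continuous_ei

@[fun_prop] lemma cont_e : Continuous e := by unfold e; fun_prop

@[fun_prop] lemma cont_tri (δ : ℝ) : Continuous (tri δ) := by unfold tri; fun_prop

@[fun_prop] lemma cont_cut (w : ℝ) : Continuous (cut w) := by unfold cut; fun_prop

@[fun_prop] lemma cont_rho (W : Finset ℤ) : Continuous (rho W) := by unfold rho; fun_prop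

@[fun_prop] lemma cont_tp (T : ℕ) (c : ℤ → ℂ) : Continuous (tp T c) := by unfold tp; fun_prop

@[fun_prop] lemma cont_nu (T : ℕ) (A : Finset (ℕ × ℕ)) : Continuous (nu T A) := by
  unfold nu; fun_prop

@[fun_prop] lemma cont_Kr (δ : ℝ) : Continuous (Kr δ) := by
  unfold Kr
  exact intervalIntegral.continuous_parametric_intervalIntegral_of_continuous' (by fun_prop) _ _

lemma tri_nonneg {δ : ℝ} (h : 0 < δ) (x : ℝ) : 0 ≤ tri δ x := by
  unfold tri; positivity

lemma tri_le {δ : ℝ} (h : 0 < δ) (x : ℝ) : tri δ x ≤ 1 / δ := by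
  unfold tri
  refine div_le_div_of_nonneg_right (max_le zero_le_one ?_) h.le
  have : 0 ≤ |x| / δ := by positivity
  linarith

lemma tri_neg (δ x : ℝ) : tri δ (-x) = tri δ x := by unfold tri; rw [abs_neg]

lemma tri_zero {δ x : ℝ} (h : 0 < δ) (hx : δ ≤ |x|) : tri δ x = 0 := by
  unfold tri
  rw [max_eq_left, zero_div]
  have : 1 ≤ |x| / δ := by rw [le_div_iff₀ h]; linarith
  linarith

lemma lt_of_tri_ne {δ x : ℝ} (h : 0 < δ) (hx : tri δ x ≠ 0) : |x| < δ :=
  not_le.1 fun h' => hx (tri_zero h h')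

lemma tri_ge {δ x : ℝ} (h : 0 < δ) (hx : |x| ≤ δ / 2) : 1 / (2 * δ) ≤ tri δ x := by
  unfold tri
  have h1 : |x| / δ ≤ 1 / 2 := by rw [div_le_iff₀ h]; linarith
  have h2 : 1 / 2 ≤ max 0 (1 - |x| / δ) := le_max_of_le_right (by linarith only [h1])
  rw [show 1 / (2 * δ) = 1 / 2 / δ by field_simp]
  exact div_le_div_of_nonneg_right h2 h.le

lemma tri_mass {δ : ℝ} (h : 0 < δ) : ∫ x in (-δ)..δ, tri δ x = 1 := by
  have h1 : ∫ x in (0 : ℝ)..δ, tri δ x = 1 / 2 := by
    rw [intervalIntegral.integral_congr (g := fun x => 1 / δ - 1 / δ ^ 2 * x)]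
    · rw [intervalIntegral.integral_sub (by simp) (Continuous.intervalIntegrable (by fun_prop) _ _),
        intervalIntegral.integral_const_mul, integral_id]
      simp only [intervalIntegral.integral_const, smul_eq_mul]
      field_simp; ring
    · intro x hx
      rw [Set.uIcc_of_le h.le] at hx
      have : x / δ ≤ 1 := by rw [div_le_one h]; exact hx.2
      simp only [tri, abs_of_nonneg hx.1]
      rw [max_eq_right (by linarith)]
      field_simp
  have h2 : ∫ x in (-δ)..0, tri δ x = 1 / 2 := by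
    have := intervalIntegral.integral_comp_neg (a := 0) (b := δ) (tri δ)
    simp only [tri_neg, neg_zero] at this
    rw [← this, h1]
  rw [← intervalIntegral.integral_add_adjacent_intervals (b := 0)
    ((cont_tri δ).intervalIntegrable _ _) ((cont_tri δ).intervalIntegrable _ _), h1, h2]
  norm_num

/-- a continuous function that vanishes outside `(c, d)` has the same integral over every larger interval -/
lemma int_supp {F : Type} [NormedAddCommGroup F] [NormedSpace ℝ F] {f : ℝ → F}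
    {a b c d : ℝ} (hac : a ≤ c) (hcd : c ≤ d) (hdb : d ≤ b) (h0 : ∀ x, x ≤ c ∨ d ≤ x → f x = 0) :
    ∫ x in a..b, f x = ∫ x in c..d, f x := by
  have key : ∀ {p q : ℝ}, p ≤ c → d ≤ q → ∫ x in p..q, f x = ∫ x, f x := fun hp hq =>
    intervalIntegral.integral_eq_integral_of_support_subset fun x hx => by
      by_contra hh
      refine hx (h0 x ?_)
      by_contra h2
      push Not at h2
      exact hh ⟨by linarith [h2.1], by linarith [h2.2]⟩
  have := hcd
  rw [key hac hdb, key le_rfl le_rfl]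

lemma tri_int_le {δ : ℝ} (h : 0 < δ) {a b : ℝ} (hab : a ≤ b) (c : ℝ) :
    ∫ x in a..b, tri δ (x - c) ≤ 1 := by
  have h1 : ∫ x in a..b, tri δ (x - c) ≤ ∫ x in (min a (c - δ))..(max b (c + δ)), tri δ (x - c) :=
    intervalIntegral.integral_mono_interval (min_le_left _ _) hab (le_max_left _ _)
      (Filter.Eventually.of_forall fun x => tri_nonneg h _)
      (Continuous.intervalIntegrable (by fun_prop) _ _)
  refine h1.trans (le_of_eq ?_)
  rw [int_supp (c := c - δ) (d := c + δ) (min_le_right _ _) (by linarith) (le_max_right _ _),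
    intervalIntegral.integral_comp_sub_right (tri δ), ← tri_mass h]
  · congr 1 <;> ring
  · intro x hx
    refine tri_zero h ?_
    rcases hx with hx | hx
    · exact le_abs.2 (Or.inr (by linarith))
    · exact le_abs.2 (Or.inl (by linarith))

lemma Kr_nonneg {δ : ℝ} (h : 0 < δ) (x : ℝ) : 0 ≤ Kr δ x :=
  intervalIntegral.integral_nonneg (by linarith) fun u _ =>
    mul_nonneg (tri_nonneg h _) (tri_nonneg h _)

lemma Kr_zero {δ x : ℝ} (h : 0 < δ) (hx : 2 * δ ≤ |x|) : Kr δ x = 0 := by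
  unfold Kr
  rw [intervalIntegral.integral_congr (g := fun _ => 0), intervalIntegral.integral_zero]
  intro u hu
  rw [Set.uIcc_of_le (by linarith)] at hu
  have h1 : |u| ≤ δ := abs_le.2 hu
  have h2 : |x| ≤ |u| + |u - x| := by
    have := abs_sub u (u - x)
    rwa [sub_sub_cancel] at this
  simp only
  rw [tri_zero h (x := u - x) (by linarith), mul_zero]

lemma Kr_le_inv {δ : ℝ} (h : 0 < δ) (x : ℝ) : Kr δ x ≤ 1 / δ := by
  have : Kr δ x ≤ ∫ u in (-δ)..δ, tri δ u * (1 / δ) :=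
    intervalIntegral.integral_mono_on (by linarith) (Continuous.intervalIntegrable (by fun_prop) _ _)
      (Continuous.intervalIntegrable (by fun_prop) _ _) fun u _ =>
        mul_le_mul_of_nonneg_left (tri_le h _) (tri_nonneg h _)
  rwa [intervalIntegral.integral_mul_const, tri_mass h, one_mul] at this

lemma Kr_le {δ : ℝ} (h : 0 < δ) (x : ℝ) : Kr δ x ≤ 8 * tri (4 * δ) x := by
  rcases le_total (2 * δ) |x| with hx | hx
  · rw [Kr_zero h hx]
    have := tri_nonneg (δ := 4 * δ) (by linarith) x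
    linarith
  · have h1 := tri_ge (δ := 4 * δ) (x := x) (by linarith) (by linarith)
    have h2 := Kr_le_inv h x
    have h3 : 1 / δ = 8 * (1 / (2 * (4 * δ))) := by field_simp; ring
    linarith

lemma cut_nonneg {w : ℝ} (h : 0 < w) (x : ℝ) : 0 ≤ cut w x :=
  mul_nonneg (by linarith) (tri_nonneg (by linarith) _)

lemma cut_le {w : ℝ} (h : 0 < w) (x : ℝ) : cut w x ≤ 2 := by
  have h1 := tri_le (δ := 2 * w) (by linarith) x
  have h2 : 4 * w * (1 / (2 * w)) = 2 := by field_simp; ring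
  unfold cut
  nlinarith only [h, h1, h2]

lemma cut_ge {w x : ℝ} (h : 0 < w) (hx : |x| ≤ w) : 1 ≤ cut w x := by
  have h1 := tri_ge (δ := 2 * w) (x := x) (by linarith) (by linarith only [hx])
  have h2 : 4 * w * (1 / (2 * (2 * w))) = 1 := by field_simp; ring
  unfold cut
  nlinarith only [h, h1, h2]

lemma cut_zero {w x : ℝ} (h : 0 < w) (hx : 2 * w ≤ |x|) : cut w x = 0 := by
  unfold cut; rw [tri_zero (by linarith) hx, mul_zero]

lemma cut_neg (w x : ℝ) : cut w (-x) = cut w x := by unfold cut; rw [tri_neg]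

lemma cont_clamp {U : ℝ} (h : 0 < U) : Continuous (clamp U) := by
  unfold clamp
  refine continuous_id.mul (Complex.continuous_ofReal.comp ?_)
  exact continuous_const.div (by fun_prop) fun w => (h.trans_le (le_max_left _ _)).ne'

lemma norm_clamp {U : ℝ} (h : 0 < U) (w : ℂ) : ‖clamp U w‖ = min U ‖w‖ := by
  unfold clamp
  rw [norm_mul, Complex.norm_real, Real.norm_of_nonneg (by positivity)]
  rcases le_total U ‖w‖ with hw | hw
  · rw [max_eq_right hw, min_eq_left hw]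
    have : ‖w‖ ≠ 0 := (h.trans_le hw).ne'
    field_simp
  · rw [max_eq_left hw, min_eq_right hw, div_self h.ne', mul_one]

lemma norm_sub_clamp {U : ℝ} (h : 0 < U) (w : ℂ) : ‖w - clamp U w‖ = max 0 (‖w‖ - U) := by
  unfold clamp
  rcases le_total U ‖w‖ with hw | hw
  · have h0 : 0 < ‖w‖ := h.trans_le hw
    have e1 : w - w * ((U / ‖w‖ : ℝ) : ℂ) = w * ((1 - U / ‖w‖ : ℝ) : ℂ) := by push_cast; ring
    have h1 : U / ‖w‖ ≤ 1 := by rw [div_le_one h0]; exact hw
    rw [max_eq_right hw, e1, norm_mul, Complex.norm_real, Real.norm_of_nonneg (by linarith only [h1]),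
      max_eq_right (by linarith only [hw])]
    field_simp
  · rw [max_eq_left hw, div_self h.ne', max_eq_left (by linarith)]
    simp

lemma norm_sub_clamp_le {U : ℝ} (h : 0 < U) (w : ℂ) : ‖w - clamp U w‖ ≤ ‖w‖ := by
  rw [norm_sub_clamp h]; exact max_le (norm_nonneg _) (by linarith)

lemma norm_sub_clamp_le_sq {U : ℝ} (h : 0 < U) (w : ℂ) : ‖w - clamp U w‖ ≤ ‖w‖ ^ 2 / U := by
  rw [norm_sub_clamp h]
  refine max_le (by positivity) ?_
  rw [le_div_iff₀ h]
  nlinarith [sq_nonneg (‖w‖ - U), norm_nonneg w]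

lemma clamp_zero (U : ℝ) : clamp U 0 = 0 := by simp only [clamp, norm_zero, Complex.ofReal_div, zero_mul]

lemma nu_nonneg {T : ℕ} (hT : 1 ≤ T) (A : Finset (ℕ × ℕ)) (x : ℝ) : 0 ≤ nu T A x :=
  sum_nonneg fun _ _ => tri_nonneg (by have : (0 : ℝ) < T := by exact_mod_cast hT
                                       positivity) _

lemma nu_split (N T : ℕ) (x : ℝ) : nu T (allp N) x = nu T (majp N T) x + nu T (minp N T) x := by
  unfold nu majp minp
  rw [sum_filter_add_sum_filter_not]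

lemma nu_even {T : ℕ} {A : Finset (ℕ × ℕ)} (h : ∀ p ∈ A, p.swap ∈ A) (x : ℝ) :
    nu T A (-x) = nu T A x := by
  unfold nu
  refine sum_bij' (fun p _ => p.swap) (fun p _ => p.swap) h h (by simp) (by simp) fun p _ => ?_
  rw [← tri_neg]; congr 1; simp only [Prod.fst_swap, Prod.snd_swap]; ring

lemma allp_swap (N : ℕ) : ∀ p ∈ allp N, p.swap ∈ allp N := fun p hp => by
  simp only [allp, mem_product, Prod.fst_swap, Prod.snd_swap] at hp ⊢
  exact hp.symm

lemma majp_swap (N T : ℕ) : ∀ p ∈ majp N T, p.swap ∈ majp N T := fun p hp => by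
  simp only [majp, mem_filter, Prod.fst_swap, Prod.snd_swap] at hp ⊢
  exact ⟨allp_swap N p hp.1, by rw [add_comm, Nat.gcd_comm]; exact hp.2⟩

lemma Jall_neg (P : ℕ) : ∀ j ∈ Jall P, -j ∈ Jall P := fun j hj => by
  simp only [Jall, mem_Icc] at hj ⊢; omega

lemma Jst_neg (P : ℕ) : ∀ j ∈ Jst P, -j ∈ Jst P := fun j hj => by
  simp only [Jst, Jall, mem_erase, mem_Icc] at hj ⊢; omega

lemma wt_smooth : ContDiff ℝ (⊤ : ℕ∞) wt := bump.contDiff

@[fun_prop] lemma cont_wt : Continuous wt := wt_smooth.continuous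

lemma wt_nonneg (x : ℝ) : 0 ≤ wt x := bump.nonneg

lemma wt_le (x : ℝ) : wt x ≤ 1 := bump.le_one

lemma wt_one {x : ℝ} (h1 : 1 ≤ x) (h2 : x ≤ 2) : wt x = 1 := by
  refine bump.one_of_mem_closedBall ?_
  rw [Metric.mem_closedBall, Real.dist_eq, abs_le]
  simp only [bump]
  constructor <;> linarith only [h1, h2]

lemma wt_zero {x : ℝ} (h : x ≤ 9 / 10 ∨ 21 / 10 ≤ x) : wt x = 0 := by
  refine bump.zero_of_le_dist ?_
  rw [Real.dist_eq]
  simp only [bump]
  rcases h with h | h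
  · exact le_abs.2 (Or.inr (by linarith))
  · exact le_abs.2 (Or.inl (by linarith))

lemma wt_lip : ∃ c : ℝ, 0 < c ∧ ∀ x y, |wt x - wt y| ≤ c * |x - y| := by
  obtain ⟨K, hK⟩ := ContDiff.lipschitzWith_of_hasCompactSupport (𝕂 := ℝ) (f := wt)
    bump.hasCompactSupport (wt_smooth.of_le (by exact_mod_cast le_top)) one_ne_zero
  refine ⟨K + 1, by positivity, fun x y => ?_⟩
  have := hK.dist_le_mul x y
  rw [Real.dist_eq, Real.dist_eq] at this
  linarith only [abs_nonneg (x - y), this]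

/-- continuity of the inner integral -/
lemma ii_cont {F : Type} [NormedAddCommGroup F] [NormedSpace ℝ F] {f : ℝ → ℝ → F}
    (hf : Continuous f.uncurry) (c d : ℝ) : Continuous fun x => ∫ y in c..d, f x y :=
  intervalIntegral.continuous_parametric_intervalIntegral_of_continuous' hf _ _

/-- monotonicity of iterated integrals of continuous functions -/
lemma ii_mono {f g : ℝ → ℝ → ℝ} (hf : Continuous f.uncurry) (hg : Continuous g.uncurry)
    {a b c d : ℝ} (hab : a ≤ b) (hcd : c ≤ d)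
    (h : ∀ x ∈ Set.Icc a b, ∀ y ∈ Set.Icc c d, f x y ≤ g x y) :
    ∫ x in a..b, ∫ y in c..d, f x y ≤ ∫ x in a..b, ∫ y in c..d, g x y :=
  intervalIntegral.integral_mono_on hab ((ii_cont hf c d).intervalIntegrable _ _)
    ((ii_cont hg c d).intervalIntegrable _ _) fun x hx =>
      intervalIntegral.integral_mono_on hcd ((hf.uncurry_left x).intervalIntegrable _ _)
        ((hg.uncurry_left x).intervalIntegrable _ _) (h x hx)

/-- Fubini for continuous functions on a rectangle -/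
lemma ii_swap {F : Type} [NormedAddCommGroup F] [NormedSpace ℝ F] {f : ℝ → ℝ → F}
    (hf : Continuous f.uncurry) {a b c d : ℝ} (hab : a ≤ b) (hcd : c ≤ d) :
    ∫ x in a..b, ∫ y in c..d, f x y = ∫ y in c..d, ∫ x in a..b, f x y := by
  simp only [intervalIntegral.integral_of_le hab, intervalIntegral.integral_of_le hcd]
  refine MeasureTheory.integral_integral_swap ?_
  rw [MeasureTheory.Measure.prod_restrict]
  refine (hf.continuousOn.integrableOn_compact
    (isCompact_Icc.prod isCompact_Icc : IsCompact (Set.Icc a b ×ˢ Set.Icc c d))).mono_set ?_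
  exact Set.prod_mono Set.Ioc_subset_Icc_self Set.Ioc_subset_Icc_self

/-- the norm of an iterated integral -/
lemma ii_norm {f : ℝ → ℝ → ℂ} (hf : Continuous f.uncurry) {a b c d : ℝ} (hab : a ≤ b) (hcd : c ≤ d) :
    ‖∫ x in a..b, ∫ y in c..d, f x y‖ ≤ ∫ x in a..b, ∫ y in c..d, ‖f x y‖ := by
  refine (intervalIntegral.norm_integral_le_integral_norm hab).trans ?_
  exact intervalIntegral.integral_mono_on hab ((ii_cont hf c d).norm.intervalIntegrable _ _)
    ((ii_cont (f := fun x y => ‖f x y‖) hf.norm c d).intervalIntegrable _ _) fun x _ =>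
      intervalIntegral.norm_integral_le_integral_norm hcd

namespace World

variable {N T P X : ℕ} {E θ V : ℝ} {W : Finset ℤ} {a : ℕ → ℂ}

lemma N1000 (h : World N T P X E θ V W a) : 1000 ≤ N := by
  have : (1000 : ℝ) ≤ N := by linarith [h.E1, h.EN]
  exact_mod_cast this

lemma N1 (h : World N T P X E θ V W a) : 1 ≤ N := le_trans (by norm_num) h.N1000

lemma T1 (h : World N T P X E θ V W a) : 1 ≤ T := h.N1.trans h.NT

lemma PX (h : World N T P X E θ V W a) : 12 * P ≤ X := by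
  have N0 : (0 : ℝ) < N := by exact_mod_cast h.N1
  have : (12 * P : ℝ) * N ≤ X * N := by linarith only [h.PN, h.XT]
  exact_mod_cast le_of_mul_le_mul_right this N0

lemma TX (h : World N T P X E θ V W a) : 12 * T ≤ X * N := by
  have T0 : (0 : ℝ) ≤ T := Nat.cast_nonneg T
  have : (12 * T : ℝ) ≤ X * N := by nlinarith only [h.E1, h.XT]
  exact_mod_cast this

lemma θ0 (h : World N T P X E θ V W a) : 0 < θ := by
  by_contra hh
  have := mul_nonpos_of_nonpos_of_nonneg (not_lt.1 hh) (Nat.cast_nonneg (α := ℝ) X)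
  linarith [h.θX]

end World

end Pool.Agent.MP_71ac24_nt.H17
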