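import Pool.Agent.MP_71ac24_nt.H17.Defs
import Pool.Agent.MP_71ac24_nt.H14.Kern

attribute [-instance] AddQuantale.instAddLeftMono IdemSemiring.toCanonicallyOrderedAdd
  RKHS.instFunLike NumberField.to_charZero IdemSemiring.toMulLeftMono AddQuantale.instAddRightMono
  LinearOrderedCommMonoidWithZero.toPosMulStrictMono Quantale.instMulRightMono
  IsOrderedMonoid.toMulLeftMono instCoeTOfCoeDep NonarchimedeanRing.toIsTopologicalRing
  ProperSMul.toContinuousSMul Fintype.decidableForallFintype IdemSemiring.toMulRightMono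
  LieAdmissibleAlgebra.toModule CompletePartialOrder.toPartialOrder Quantale.instMulLeftMono
  LeftPreLieAlgebra.toModule RightPreLieAlgebra.toModule IsTopologicalTorsor.toContinuousSMul
  instCoeOTCOfCoeOut instCoeHTCOfCoeHeadOfCoeOTC continuousSub_of_discreteTopology
  Valued.isTopologicalDivisionRing Valued.toUniformSpace
  IsRightCancelMul.mulRightReflectLE_of_mulRightReflectLT TestFunctionClass.toDFunLike
  Group.IsPerfect.subsingleton_of_isMulCommutative NeZero.of_gt'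
  ContDiffMapSupportedInClass.toDFunLike CanonicallyOrderedAdd.toMulLeftMono
  NonarchimedeanAddGroup.toIsTopologicalAddGroup

/-! Duality, Poisson summation, and the classical estimate for very large values. -/

set_option autoImplicit false

namespace Pool.Agent.MP_71ac24_nt.H17

open Finset Real
open scoped ComplexConjugate
open Pool.Agent.MP_71ac24_nt.H14 (ei Sep ei_add norm_ei ei_zero conj_ei norm_ei_sub continuous_ei)

section

/-! ### block IBP -/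

lemma ibp_deriv_zero {φ : ℝ → ℂ} (hφ : ContDiff ℝ (⊤ : ℕ∞) φ) (h0 : ∀ z, 1 ≤ |z| → φ z = 0)
    (z : ℝ) (hz : 1 ≤ |z|) : deriv φ z = 0 := by
  have hd : HasDerivAt φ (deriv φ z) z := (hφ.differentiable (by simp) z).hasDerivAt
  rcases le_abs.1 hz with h | h
  · have h1 : HasDerivWithinAt φ 0 (Set.Ici z) z :=
      (hasDerivWithinAt_const z (Set.Ici z) (0 : ℂ)).congr
        (fun y hy => h0 y (le_abs.2 (Or.inl (h.trans hy)))) (h0 z hz)
    exact (uniqueDiffWithinAt_Ici z).eq_deriv _ hd.hasDerivWithinAt h1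
  · have h1 : HasDerivWithinAt φ 0 (Set.Iic z) z :=
      (hasDerivWithinAt_const z (Set.Iic z) (0 : ℂ)).congr
        (fun y hy => h0 y (le_abs.2 (Or.inr (by have : y ≤ z := hy; linarith)))) (h0 z hz)
    exact (uniqueDiffWithinAt_Iic z).eq_deriv _ hd.hasDerivWithinAt h1

lemma ibp_deriv_smooth {φ : ℝ → ℂ} (hφ : ContDiff ℝ (⊤ : ℕ∞) φ) :
    ContDiff ℝ (⊤ : ℕ∞) (deriv φ) := (contDiff_infty_iff_deriv.1 hφ).2

lemma ibp_ei_deriv {f : ℝ → ℝ} {f' z : ℝ} (hf : HasDerivAt f f' z) :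
    HasDerivAt (fun x => ei (f x)) (ei (f z) * (Complex.I * f')) z := by
  unfold ei
  exact (hf.ofReal_comp.const_mul Complex.I).cexp

lemma ibp_step {ψ : ℝ → ℂ} (hψ : ContDiff ℝ (⊤ : ℕ∞) ψ) (h0 : ∀ z, 1 ≤ |z| → ψ z = 0) (u ξ : ℝ) :
    (∫ z in (-1 : ℝ)..1, deriv ψ z * ei (u * z) * e (-(ξ * exp z))) +
      Complex.I * u * ∫ z in (-1 : ℝ)..1, ψ z * ei (u * z) * e (-(ξ * exp z)) =
      Complex.I * (2 * π * ξ : ℝ) *
        ∫ z in (-1 : ℝ)..1, ψ z * ((exp z : ℝ) : ℂ) * ei (u * z) * e (-(ξ * exp z)) := by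
  have c0 : Continuous ψ := hψ.continuous
  have c1 : Continuous (deriv ψ) := (ibp_deriv_smooth hψ).continuous
  have hd : ∀ z : ℝ, HasDerivAt (fun z => ψ z * ei (u * z) * e (-(ξ * exp z)))
      (deriv ψ z * ei (u * z) * e (-(ξ * exp z)) +
        Complex.I * u * (ψ z * ei (u * z) * e (-(ξ * exp z))) -
        Complex.I * (2 * π * ξ : ℝ) *
          (ψ z * ((exp z : ℝ) : ℂ) * ei (u * z) * e (-(ξ * exp z)))) z := by
    intro z
    have h1 : HasDerivAt ψ (deriv ψ z) z := (hψ.differentiable (by simp) z).hasDerivAt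
    have h2 := ibp_ei_deriv (f := fun x => u * x) (f' := u) (z := z)
      (by simpa using (hasDerivAt_id z).const_mul u)
    have h3 := ibp_ei_deriv (f := fun x => 2 * π * -(ξ * exp x)) (f' := 2 * π * -(ξ * exp z)) (z := z)
      ((((Real.hasDerivAt_exp z).const_mul ξ).neg).const_mul (2 * π))
    have h4 := (h1.mul h2).mul h3
    unfold e
    refine h4.congr_deriv ?_
    simp only [Pi.mul_apply]
    push_cast
    ring
  have hI := intervalIntegral.integral_eq_sub_of_hasDerivAt (a := (-1 : ℝ)) (b := 1)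
    (fun z _ => hd z) (Continuous.intervalIntegrable (by fun_prop) _ _)
  rw [h0 1 (by simp), h0 (-1) (by simp),
    intervalIntegral.integral_sub (Continuous.intervalIntegrable (by fun_prop) _ _)
      (Continuous.intervalIntegrable (by fun_prop) _ _),
    intervalIntegral.integral_add (Continuous.intervalIntegrable (by fun_prop) _ _)
      (Continuous.intervalIntegrable (by fun_prop) _ _),
    intervalIntegral.integral_const_mul, intervalIntegral.integral_const_mul] at hI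
  simp only [zero_mul, sub_self] at hI
  exact sub_eq_zero.1 hI

lemma ibp_triv (φ : ℝ → ℂ) : ∃ C : ℝ, 0 < C ∧ ∀ u ξ : ℝ,
    ‖∫ z in (-1 : ℝ)..1, φ z * ei (u * z) * e (-(ξ * exp z))‖ ≤ C := by
  have h0 : 0 ≤ ∫ z in (-1 : ℝ)..1, ‖φ z‖ :=
    intervalIntegral.integral_nonneg (by norm_num) fun _ _ => norm_nonneg _
  refine ⟨(∫ z in (-1 : ℝ)..1, ‖φ z‖) + 1, by linarith, fun u ξ => ?_⟩
  refine (intervalIntegral.norm_integral_le_integral_norm (by norm_num)).trans ?_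
  simp only [norm_mul, norm_ei, norm_e, mul_one]
  linarith

theorem ibp (A : ℕ) (φ : ℝ → ℂ) (hφ : ContDiff ℝ (⊤ : ℕ∞) φ) (h0 : ∀ z, 1 ≤ |z| → φ z = 0) :
    ∃ C : ℝ, 0 < C ∧ ∀ u ξ : ℝ, ξ ≠ 0 →
      ‖∫ z in (-1 : ℝ)..1, φ z * ei (u * z) * e (-(ξ * exp z))‖ ≤ C * ((1 + |u|) / |ξ|) ^ A := by
  induction A generalizing φ with
  | zero =>
    obtain ⟨C, hC, H⟩ := ibp_triv φ
    exact ⟨C, hC, fun u ξ _ => by simpa only [pow_zero, mul_one] using H u ξ⟩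
  | succ A ih =>
    have hs : ContDiff ℝ (⊤ : ℕ∞) fun z : ℝ => φ z * ((exp (-z) : ℝ) : ℂ) :=
      hφ.mul (Complex.ofRealCLM.contDiff.comp (Real.contDiff_exp.comp contDiff_neg))
    have hz : ∀ z : ℝ, 1 ≤ |z| → φ z * ((exp (-z) : ℝ) : ℂ) = 0 := fun z h => by
      rw [h0 z h, zero_mul]
    obtain ⟨C₁, hC₁, H₁⟩ := ih _ (ibp_deriv_smooth hs) (ibp_deriv_zero hs hz)
    obtain ⟨C₂, hC₂, H₂⟩ := ih _ hs hz
    refine ⟨C₁ + C₂, by linarith, fun u ξ hξ => ?_⟩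
    have key := ibp_step hs hz u ξ
    have e1 : ∀ z : ℝ, φ z * ((exp (-z) : ℝ) : ℂ) * ((exp z : ℝ) : ℂ) = φ z := fun z => by
      rw [mul_assoc, ← Complex.ofReal_mul, ← Real.exp_add]; simp
    simp only [e1] at key
    have k2 := congrArg norm key
    have hx : 0 < |ξ| := abs_pos.2 hξ
    have h1 := H₁ u ξ hξ
    have h2 := H₂ u ξ hξ
    set r := ((1 + |u|) / |ξ|) ^ A with hr
    have r0 : 0 ≤ r := by positivity
    set J := ‖∫ z in (-1 : ℝ)..1, φ z * ei (u * z) * e (-(ξ * exp z))‖ with hJ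
    have J0 : 0 ≤ J := norm_nonneg _
    have k3 : 2 * π * |ξ| * J ≤ C₁ * r + |u| * (C₂ * r) := by
      rw [norm_mul, norm_mul, Complex.norm_I, one_mul, Complex.norm_real, Real.norm_eq_abs, abs_mul,
        abs_of_pos (by positivity : (0 : ℝ) < 2 * π)] at k2
      rw [← k2]
      refine (norm_add_le _ _).trans (add_le_add h1 ?_)
      rw [norm_mul, norm_mul, Complex.norm_I, one_mul, Complex.norm_real, Real.norm_eq_abs]
      exact mul_le_mul_of_nonneg_left h2 (abs_nonneg _)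
    have k4 : |ξ| * J ≤ 2 * π * |ξ| * J := by
      have : 0 ≤ |ξ| * J := by positivity
      nlinarith only [Real.pi_gt_three, this]
    rw [pow_succ, ← hr, show (C₁ + C₂) * (r * ((1 + |u|) / |ξ|)) =
      (C₁ + C₂) * r * (1 + |u|) / |ξ| by ring, le_div_iff₀ hx]
    have a1 : 0 ≤ C₁ * r * |u| := by positivity
    have a2 : 0 ≤ C₂ * r := by positivity
    linarith only [k3, k4, a1, a2]

lemma ibp_wt_smooth : ContDiff ℝ (⊤ : ℕ∞) fun z : ℝ => ((wt (exp z) * exp z : ℝ) : ℂ) :=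
  Complex.ofRealCLM.contDiff.comp ((wt_smooth.comp Real.contDiff_exp).mul Real.contDiff_exp)

lemma ibp_wt_zero (z : ℝ) (hz : 1 ≤ |z|) : ((wt (exp z) * exp z : ℝ) : ℂ) = 0 := by
  have h1 : (27 / 10 : ℝ) ≤ exp 1 := by linarith [Real.exp_one_gt_d9]
  rw [wt_zero, zero_mul, Complex.ofReal_zero]
  rcases le_abs.1 hz with h | h
  · exact Or.inr (by linarith only [Real.exp_le_exp.2 h, h1])
  · left
    have h2 : exp z ≤ exp (-1) := Real.exp_le_exp.2 (by linarith only [h])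
    have h3 : exp (-1) * exp 1 = 1 := by rw [← Real.exp_add]; simp
    nlinarith only [h1, h2, h3]

lemma ibp_norm_Im (N : ℕ) (s : ℝ) (m : ℤ) : ‖Im N s m‖ = N * ‖∫ z in (-1 : ℝ)..1,
    ((wt (exp z) * exp z : ℝ) : ℂ) * ei (s * z) * e (-(m * N * exp z))‖ := by
  rw [Im, norm_mul, norm_mul, norm_ei, mul_one, Complex.norm_natCast]

theorem im_zero : ∃ C : ℝ, 0 < C ∧ ∀ (N : ℕ) (s : ℝ), ‖Im N s 0‖ ≤ C * N / (1 + s ^ 2) := by
  have s0 := ibp_wt_smooth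
  have z0 := ibp_wt_zero
  have s1 := ibp_deriv_smooth s0
  have z1 := ibp_deriv_zero s0 z0
  obtain ⟨C₀, hC₀, H₀⟩ := ibp_triv fun z : ℝ => ((wt (exp z) * exp z : ℝ) : ℂ)
  obtain ⟨C₂, hC₂, H₂⟩ := ibp_triv
    (deriv (deriv fun z : ℝ => ((wt (exp z) * exp z : ℝ) : ℂ)))
  refine ⟨C₀ + C₂, by linarith, fun N s => ?_⟩
  have k1 := ibp_step s0 z0 s 0
  have k2 := ibp_step s1 z1 s 0
  have h0 := H₀ s 0
  have h2 := H₂ s 0
  rw [ibp_norm_Im, show ((0 : ℤ) : ℝ) * (N : ℝ) = 0 by simp]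
  rw [mul_zero, Complex.ofReal_zero, mul_zero, zero_mul] at k1 k2
  have k3 := eq_neg_of_add_eq_zero_left k1
  have k4 := eq_neg_of_add_eq_zero_left k2
  rw [k4, k3] at h2
  simp only [norm_neg, norm_mul, Complex.norm_I, one_mul, Complex.norm_real, Real.norm_eq_abs] at h2
  rw [← mul_assoc, abs_mul_abs_self] at h2
  have N0 : (0 : ℝ) ≤ N := Nat.cast_nonneg N
  rw [le_div_iff₀ (by positivity), mul_assoc, mul_comm (C₀ + C₂)]
  refine mul_le_mul_of_nonneg_left ?_ N0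
  linarith only [h0, h2]

theorem im_le (A : ℕ) : ∃ C : ℝ, 0 < C ∧ ∀ (N : ℕ) (s : ℝ) (m : ℤ), 1 ≤ N → m ≠ 0 →
    ‖Im N s m‖ ≤ C * N * ((1 + |s|) / (|(m : ℝ)| * N)) ^ A := by
  obtain ⟨C, hC, H⟩ := ibp A _ ibp_wt_smooth ibp_wt_zero
  refine ⟨C, hC, fun N s m hN hm => ?_⟩
  have N0 : (0 : ℝ) < N := by exact_mod_cast hN
  have m0 : (m : ℝ) ≠ 0 := by exact_mod_cast hm
  have h := H s (m * N) (mul_ne_zero m0 N0.ne')
  rw [abs_mul, abs_of_pos N0] at h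
  rw [ibp_norm_Im, mul_comm C, mul_assoc]
  exact mul_le_mul_of_nonneg_left h N0.le

end

section

/-- the function to which Poisson summation is applied -/
noncomputable def poi_f (N : ℕ) (s x : ℝ) : ℂ := ((wt (x / N) : ℝ) : ℂ) * ei (s * Real.log x)

lemma poi_zero {N : ℕ} (hN : (0 : ℝ) < N) (s : ℝ) {x : ℝ}
    (hx : x ≤ 9 / 10 * N ∨ 21 / 10 * N ≤ x) : poi_f N s x = 0 := by
  rw [poi_f, wt_zero (hx.imp (fun h => by rwa [div_le_iff₀ hN]) fun h => by rwa [le_div_iff₀ hN])]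
  simp

lemma poi_cont {N : ℕ} (hN : (0 : ℝ) < N) (s : ℝ) : Continuous (poi_f N s) := by
  have h1 : Continuous fun x : ℝ => Real.log (max x (N / 2)) :=
    Continuous.log (by fun_prop) fun x => ((half_pos hN).trans_le (le_max_right _ _)).ne'
  have h2 : Continuous fun x : ℝ => ((wt (x / N) : ℝ) : ℂ) * ei (s * Real.log (max x (N / 2))) := by
    fun_prop
  refine h2.congr fun x => ?_
  rcases le_total x (N / 2) with h | h
  · rw [poi_zero hN s (Or.inl (by linarith)),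
      wt_zero (Or.inl (by rw [div_le_iff₀ hN]; linarith only [h]))]
    simp only [Complex.ofReal_zero, zero_mul]
  · rw [max_eq_left h, poi_f]

lemma poi_ft {N : ℕ} (hN : (0 : ℝ) < N) (s : ℝ) (m : ℤ) :
    FourierTransform.fourier (poi_f N s) (m : ℝ) = Im N s m := by
  have hc := poi_cont hN s
  have e1 : exp (-1) < 9 / 10 := exp_neg_one_lt_d9.trans (by norm_num)
  have e2 : 21 / 10 < exp 1 := lt_trans (by norm_num) exp_one_gt_d9
  have key := intervalIntegral.integral_deriv_smul_comp (a := -1) (b := 1)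
    (f := fun z => N * exp z) (f' := fun z => N * exp z)
    (g := fun v : ℝ => Complex.exp (↑(-2 * π * v * m) * Complex.I) • poi_f N s v)
    (fun z _ => (Real.hasDerivAt_exp z).const_mul _) (by fun_prop) (by fun_prop)
  rw [Real.fourier_real_eq_integral_exp_smul,
    ← intervalIntegral.integral_eq_integral_of_support_subset (a := N * exp (-1)) (b := N * exp 1),
    ← key, Im, ← intervalIntegral.integral_const_mul]
  · refine intervalIntegral.integral_congr fun z _ => ?_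
    have h1 : Complex.exp (↑(-2 * π * (N * exp z) * m) * Complex.I) = e (-(m * N * exp z)) := by
      rw [e, ei]; congr 1; push_cast; ring
    simp only [Function.comp_apply, h1, poi_f]
    rw [Real.log_mul hN.ne' (exp_pos z).ne', Real.log_exp, mul_add, ei_add,
      mul_div_cancel_left₀ _ hN.ne', smul_eq_mul, Complex.real_smul]
    push_cast
    ring
  · intro x hx
    by_contra hh
    refine hx ?_
    rw [Set.mem_Ioc, not_and_or, not_lt, not_le] at hh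
    simp only
    rw [poi_zero hN s (hh.imp (fun h => by nlinarith only [e1, h]) fun h => by nlinarith only [e2, h]), smul_zero]

lemma poi_sum {N : ℕ} (hN : (0 : ℝ) < N) (s : ℝ) : ∑' n : ℤ, poi_f N s (0 + n) = Gs N s := by
  rw [tsum_eq_sum (s := (Icc 1 (3 * N)).map Nat.castEmbedding), sum_map, Gs]
  · refine sum_congr rfl fun n _ => ?_
    simp [poi_f]
  · intro n hn
    refine poi_zero hN s ?_
    rcases le_or_gt n 0 with h | h
    · have : (n : ℝ) ≤ 0 := by exact_mod_cast h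
      exact Or.inl (by linarith only [this])
    · refine Or.inr ?_
      obtain ⟨k, rfl⟩ := Int.eq_ofNat_of_zero_le h.le
      have h2 : 3 * N < k := by
        by_contra h3
        exact hn (mem_map.2 ⟨k, mem_Icc.2 ⟨by omega, by omega⟩, rfl⟩)
      have h3 : (3 * N : ℝ) < k := by exact_mod_cast h2
      push_cast
      linarith only [h3]

lemma poi_sq {M : ℕ} (hM : 1 ≤ M) (F : Finset ℤ) (hF : ∀ m ∈ F, m ∉ Ioo (-(M : ℤ)) M) :
    ∑ m ∈ F, ((m : ℝ) ^ 2)⁻¹ ≤ 4 / M := by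
  obtain ⟨k, rfl⟩ : ∃ k, M = k + 1 := ⟨M - 1, by omega⟩
  obtain ⟨K, hK⟩ : ∃ K : ℕ, ∀ m ∈ F, m.natAbs < K :=
    ⟨F.sup Int.natAbs + 1, fun m hm => Nat.lt_succ_of_le (le_sup hm)⟩
  have h1 := sum_Ioo_inv_sq_le (α := ℝ) k K
  have h2 : F ⊆ (Ioo k K).image (fun n : ℕ => (n : ℤ)) ∪ (Ioo k K).image fun n : ℕ => -(n : ℤ) := by
    intro m hm
    have h3 := hF m hm
    have h4 := hK m hm
    simp only [mem_union, mem_image, mem_Ioo] at h3 ⊢
    rcases le_total 0 m with h | h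
    · exact Or.inl ⟨m.natAbs, by omega, by omega⟩
    · exact Or.inr ⟨m.natAbs, by omega, by omega⟩
  refine (sum_le_sum_of_subset_of_nonneg h2 fun _ _ _ => by positivity).trans ?_
  have h5 := sum_union_inter (s₁ := (Ioo k K).image fun n : ℕ => (n : ℤ))
    (s₂ := (Ioo k K).image fun n : ℕ => -(n : ℤ)) (f := fun m : ℤ => ((m : ℝ) ^ 2)⁻¹)
  have h6 : 0 ≤ ∑ m ∈ ((Ioo k K).image fun n : ℕ => (n : ℤ)) ∩
      (Ioo k K).image fun n : ℕ => -(n : ℤ), ((m : ℝ) ^ 2)⁻¹ := sum_nonneg fun _ _ => by positivity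
  rw [sum_image fun _ _ _ _ h => by exact_mod_cast h,
    sum_image fun _ _ _ _ h => by exact_mod_cast neg_injective h] at h5
  simp only [Int.cast_neg, Int.cast_natCast, even_two.neg_pow] at h5
  have h7 : (4 : ℝ) / ((k + 1 : ℕ) : ℝ) = 2 / (k + 1) + 2 / (k + 1) := by push_cast; ring
  linarith only [h1, h6, h5, h7]

theorem poisson (A : ℕ) (hA : 2 ≤ A) : ∃ C : ℝ, 0 < C ∧ ∀ (N M : ℕ) (s : ℝ), 1 ≤ N → 1 ≤ M →
    ‖Gs N s - ∑ m ∈ Ioo (-(M : ℤ)) M, Im N s m‖ ≤ C * N * M * ((1 + |s|) / (M * N)) ^ A := by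
  obtain ⟨C, hC, h⟩ := im_le A
  refine ⟨4 * C, by positivity, fun N M s hN hM => ?_⟩
  have N0 : (0 : ℝ) < N := by exact_mod_cast hN
  have M0 : (0 : ℝ) < M := by exact_mod_cast hM
  have tail : ∀ F : Finset ℤ, ∑ m ∈ F \ Ioo (-(M : ℤ)) M, ‖Im N s m‖ ≤
      4 * C * N * M * ((1 + |s|) / (M * N)) ^ A := fun F => by
    have h1 := poi_sq hM (F \ Ioo (-(M : ℤ)) M) fun m hm => (mem_sdiff.1 hm).2
    calc _ ≤ ∑ m ∈ F \ Ioo (-(M : ℤ)) M,
          C * N * M ^ 2 * ((1 + |s|) / (M * N)) ^ A * ((m : ℝ) ^ 2)⁻¹ := by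
          refine sum_le_sum fun m hm => ?_
          have h2 := (mem_sdiff.1 hm).2
          rw [mem_Ioo] at h2
          have h3 : (M : ℝ) ≤ |(m : ℝ)| := by
            have : (M : ℤ) ≤ |m| := le_abs.2 (by omega)
            exact_mod_cast this
          have h4 : 0 < |(m : ℝ)| := M0.trans_le h3
          refine (h N s m hN (by omega)).trans ?_
          have h5 : (1 + |s|) / (|(m : ℝ)| * N) = (1 + |s|) / (M * N) * (M / |(m : ℝ)|) := by
            field_simp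
          have h6 : ((M : ℝ) / |(m : ℝ)|) ^ A ≤ (M / |(m : ℝ)|) ^ 2 :=
            pow_le_pow_of_le_one (by positivity) ((div_le_one h4).2 h3) hA
          rw [div_pow _ _ 2, sq_abs, div_eq_mul_inv _ ((m : ℝ) ^ 2)] at h6
          rw [h5, mul_pow]
          have h7 : 0 ≤ C * N * ((1 + |s|) / (M * N)) ^ A := by positivity
          linarith only [mul_le_mul_of_nonneg_left h6 h7]
      _ ≤ C * N * M ^ 2 * ((1 + |s|) / (M * N)) ^ A * (4 / M) := by
          rw [← mul_sum]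
          exact mul_le_mul_of_nonneg_left h1 (by positivity)
      _ = _ := by field_simp
  have hs : Summable fun m : ℤ => Im N s m := by
    refine Summable.of_norm (summable_of_sum_le (f := fun m : ℤ => ‖Im N s m‖)
      (c := ∑ m ∈ Ioo (-(M : ℤ)) M, ‖Im N s m‖ + 4 * C * N * M * ((1 + |s|) / (M * N)) ^ A)
      (fun _ => norm_nonneg _) fun F => ?_)
    have h1 := sum_inter_add_sum_sdiff F (Ioo (-(M : ℤ)) M) fun m => ‖Im N s m‖
    have h2 : ∑ m ∈ F ∩ Ioo (-(M : ℤ)) M, ‖Im N s m‖ ≤ ∑ m ∈ Ioo (-(M : ℤ)) M, ‖Im N s m‖ :=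
      sum_le_sum_of_subset_of_nonneg inter_subset_right fun _ _ _ => norm_nonneg _
    linarith only [tail F, h1, h2]
  have hb : poi_f N s =O[Filter.cocompact ℝ] fun x : ℝ => |x| ^ (-2 : ℝ) := by
    refine (Asymptotics.isBigO_zero _ _).congr' ?_ Filter.EventuallyEq.rfl
    filter_upwards [(isCompact_Icc (a := (0 : ℝ)) (b := 3 * N)).compl_mem_cocompact] with x hx
    rw [Set.mem_compl_iff, Set.mem_Icc, not_and_or, not_le, not_le] at hx
    exact (poi_zero N0 s (hx.imp (fun h => by linarith only [N0, h]) fun h => by linarith only [N0, h])).symm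
  have hP := Real.tsum_eq_tsum_fourier_of_rpow_decay_of_summable (poi_cont N0 s) one_lt_two hb
    (by simpa only [poi_ft N0] using hs) 0
  rw [poi_sum N0] at hP
  simp only [poi_ft N0, QuotientAddGroup.mk_zero, fourier_eval_zero, mul_one] at hP
  have hT : Filter.Tendsto (fun F : Finset ℤ => ∑ m ∈ F, Im N s m) Filter.atTop (nhds (Gs N s)) :=
    hP ▸ hs.hasSum
  refine le_of_tendsto (hT.sub_const _).norm ?_
  filter_upwards [Filter.eventually_ge_atTop (Ioo (-(M : ℤ)) M)] with F hF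
  rw [← sum_sdiff_eq_sub hF]
  exact (norm_sum_le _ _).trans (tail F)

end

section

/-! ### block DUA -/

lemma dua_Icc (M : ℕ) :
    ∑ s ∈ Icc (-(M : ℤ)) M, 1 / (1 + (s : ℝ) ^ 2) ≤ 5 - 4 / ((M : ℝ) + 1) := by
  induction M with
  | zero => norm_num
  | succ M ih =>
    have e1 : Icc (-((M + 1 : ℕ) : ℤ)) ((M + 1 : ℕ) : ℤ) =
        insert (-((M : ℤ) + 1)) (insert ((M : ℤ) + 1) (Icc (-(M : ℤ)) M)) := by
      ext s; simp only [mem_Icc, mem_insert]; omega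
    rw [e1, sum_insert (by simp only [mem_Icc, mem_insert]; omega),
      sum_insert (by simp only [mem_Icc]; omega)]
    have M0 : (0 : ℝ) ≤ M := Nat.cast_nonneg M
    have h : 2 * (1 / (1 + ((M : ℝ) + 1) ^ 2)) ≤ 4 / ((M : ℝ) + 1) - 4 / ((M : ℝ) + 1 + 1) := by
      rw [mul_one_div, div_sub_div _ _ (by positivity) (by positivity),
        div_le_div_iff₀ (by positivity) (by positivity)]
      nlinarith only []
    push_cast
    rw [neg_sq]
    linarith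

lemma dua_five (W : Finset ℤ) (t : ℤ) : ∑ t' ∈ W, 1 / (1 + ((t - t' : ℤ) : ℝ) ^ 2) ≤ 5 := by
  rw [← sum_image (s := W) (g := fun t' => t - t') (f := fun s : ℤ => 1 / (1 + (s : ℝ) ^ 2))
    fun x _ y _ h => by simpa using h]
  obtain ⟨M, hM⟩ : ∃ M : ℕ, W.image (fun t' => t - t') ⊆ Icc (-(M : ℤ)) M :=
    ⟨(W.image fun t' => t - t').sup Int.natAbs, fun s hs => by
      have := le_sup (f := Int.natAbs) hs
      rw [mem_Icc]; omega⟩
  refine (sum_le_sum_of_subset_of_nonneg hM fun _ _ _ => by positivity).trans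
    ((dua_Icc M).trans ?_)
  have : 0 ≤ 4 / ((M : ℝ) + 1) := by positivity
  linarith

lemma dua_schur (W : Finset ℤ) (β : ℤ → ℂ) (G₀ : ℤ → ℂ) {b : ℝ} (hb : 0 ≤ b)
    (hG : ∀ s : ℤ, ‖G₀ s‖ ≤ b / (1 + (s : ℝ) ^ 2)) :
    ‖∑ t ∈ W, ∑ t' ∈ W, conj (β t) * (G₀ (t - t') * β t')‖ ≤ 5 * b * ∑ t ∈ W, ‖β t‖ ^ 2 := by
  have h1 : ∀ t t' : ℤ, ‖conj (β t) * (G₀ (t - t') * β t')‖ ≤
      b / 2 * (‖β t‖ ^ 2 * (1 / (1 + ((t - t' : ℤ) : ℝ) ^ 2))) +
        b / 2 * (‖β t'‖ ^ 2 * (1 / (1 + ((t' - t : ℤ) : ℝ) ^ 2))) := by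
    intro t t'
    have e1 : ((t' - t : ℤ) : ℝ) ^ 2 = ((t - t' : ℤ) : ℝ) ^ 2 := by push_cast; ring
    have h := hG (t - t')
    rw [norm_mul, norm_mul, Complex.norm_conj, e1]
    rw [div_eq_mul_one_div] at h
    generalize 1 / (1 + ((t - t' : ℤ) : ℝ) ^ 2) = u at h ⊢
    have h0 : 0 ≤ b * u := (norm_nonneg _).trans h
    have h2 := mul_le_mul_of_nonneg_left h (mul_nonneg (norm_nonneg (β t)) (norm_nonneg (β t')))
    linarith only [mul_nonneg h0 (sq_nonneg (‖β t‖ - ‖β t'‖)), h2]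
  have h2 : ∑ t ∈ W, ∑ t' ∈ W, b / 2 * (‖β t‖ ^ 2 * (1 / (1 + ((t - t' : ℤ) : ℝ) ^ 2))) ≤
      b / 2 * (5 * ∑ t ∈ W, ‖β t‖ ^ 2) := by
    rw [mul_sum, mul_sum]
    refine sum_le_sum fun t _ => ?_
    rw [← mul_sum, ← mul_sum, mul_comm 5]
    exact mul_le_mul_of_nonneg_left (mul_le_mul_of_nonneg_left (dua_five W t) (sq_nonneg _))
      (by positivity)
  refine (norm_sum_le _ _).trans ((sum_le_sum fun t _ => (norm_sum_le _ _).trans
    (sum_le_sum fun t' _ => h1 t t')).trans ?_)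
  simp only [sum_add_distrib]
  rw [sum_comm (f := fun t t' => b / 2 * (‖β t'‖ ^ 2 * (1 / (1 + ((t' - t : ℤ) : ℝ) ^ 2))))]
  linarith

lemma dua_card (N : ℕ) : (#(Ioc N (2 * N)) : ℝ) = N := by
  rw [Nat.card_Ioc]; congr 1; omega

lemma dua_low (N : ℕ) (hN : 1 ≤ N) (W : Finset ℤ) (a : ℕ → ℂ) (ha : ∀ n, ‖a n‖ ≤ 1) :
    (∑ t ∈ W, ‖DP N a t‖ ^ 2) ^ 2 / N ≤
      ‖∑ t ∈ W, ∑ t' ∈ W, conj (DP N a t) * (Gs N ((t - t' : ℤ) : ℝ) * DP N a t')‖ := by
  have N0 : (0 : ℝ) < N := by exact_mod_cast hN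
  set c : ℕ → ℂ := fun n => ∑ t ∈ W, conj (DP N a t) * ei (t * Real.log n) with hc
  have e1 : ((∑ t ∈ W, ‖DP N a t‖ ^ 2 : ℝ) : ℂ) = ∑ n ∈ Ioc N (2 * N), a n * c n := by
    simp only [hc, mul_sum]
    rw [sum_comm]
    push_cast
    refine sum_congr rfl fun t _ => ?_
    rw [← Complex.conj_mul']
    conv_lhs => rw [DP.eq_1 N a t, mul_sum]
    exact sum_congr rfl fun n _ => by rw [← DP.eq_1]; ring
  have e2 : ∑ t ∈ W, ∑ t' ∈ W, conj (DP N a t) * (Gs N ((t - t' : ℤ) : ℝ) * DP N a t') =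
      ((∑ n ∈ Icc 1 (3 * N), wt (n / N) * ‖c n‖ ^ 2 : ℝ) : ℂ) := by
    simp only [Gs, sum_mul, mul_sum]
    rw [sum_congr rfl fun t _ => sum_comm, sum_comm, Complex.ofReal_sum]
    refine sum_congr rfl fun n _ => ?_
    rw [Complex.ofReal_mul, Complex.ofReal_pow, ← Complex.mul_conj', hc]
    simp only [map_sum, sum_mul, mul_sum, map_mul, Complex.conj_conj, conj_ei]
    refine sum_comm.trans (sum_congr rfl fun t' _ => sum_congr rfl fun t _ => ?_)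
    rw [show ((t - t' : ℤ) : ℝ) * Real.log n = t * Real.log n + -(t' * Real.log n) by
      push_cast; ring, ei_add]
    ring
  have h1 : ∑ t ∈ W, ‖DP N a t‖ ^ 2 ≤ ∑ n ∈ Ioc N (2 * N), ‖c n‖ := by
    have h0 : 0 ≤ ∑ t ∈ W, ‖DP N a t‖ ^ 2 := sum_nonneg fun _ _ => sq_nonneg _
    rw [← Real.norm_of_nonneg h0, ← Complex.norm_real, e1]
    refine (norm_sum_le _ _).trans (sum_le_sum fun n _ => ?_)
    rw [norm_mul]
    exact mul_le_of_le_one_left (norm_nonneg _) (ha n)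
  have h2 := sq_sum_le_card_mul_sum_sq (s := Ioc N (2 * N)) (f := fun n => ‖c n‖)
  rw [dua_card] at h2
  have h3 : ∑ n ∈ Ioc N (2 * N), ‖c n‖ ^ 2 ≤ ∑ n ∈ Icc 1 (3 * N), wt (n / N) * ‖c n‖ ^ 2 := by
    refine le_trans (le_of_eq (sum_congr rfl fun n hn => ?_))
      (sum_le_sum_of_subset_of_nonneg (s := Ioc N (2 * N)) (fun n hn => ?_) fun n _ _ =>
        mul_nonneg (wt_nonneg _) (sq_nonneg _))
    · rw [mem_Ioc] at hn
      have a1 : (N : ℝ) ≤ n := by exact_mod_cast hn.1.le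
      have a2 : (n : ℝ) ≤ 2 * N := by exact_mod_cast hn.2
      rw [wt_one ((one_le_div N0).2 a1) ((div_le_iff₀ N0).2 a2), one_mul]
    · rw [mem_Ioc] at hn; rw [mem_Icc]; omega
  rw [e2, Complex.norm_real]
  refine le_trans ?_ (le_abs_self _)
  rw [div_le_iff₀ N0]
  have h4 := pow_le_pow_left₀ (sum_nonneg fun _ _ => sq_nonneg _) h1 2
  nlinarith only [h2, h3, h4]

lemma dua_key (N : ℕ) (hN : 1 ≤ N) (W : Finset ℤ) (a : ℕ → ℂ) (ha : ∀ n, ‖a n‖ ≤ 1) (G₀ : ℤ → ℂ)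
    {b : ℝ} (hb : 0 ≤ b) (hG : ∀ s : ℤ, ‖G₀ s‖ ≤ b / (1 + (s : ℝ) ^ 2)) :
    (∑ t ∈ W, ‖DP N a t‖ ^ 2) ^ 2 / N ≤ 5 * b * ∑ t ∈ W, ‖DP N a t‖ ^ 2 +
      ‖∑ t ∈ W, ∑ t' ∈ W, conj (DP N a t) *
        ((Gs N ((t - t' : ℤ) : ℝ) - G₀ (t - t')) * DP N a t')‖ := by
  refine (dua_low N hN W a ha).trans (le_trans ?_
    (add_le_add (dua_schur W (fun t => DP N a t) G₀ hb hG) le_rfl))
  refine le_trans (le_of_eq ?_) (norm_add_le _ _)
  congr 1
  simp only [← sum_add_distrib]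
  exact sum_congr rfl fun t _ => sum_congr rfl fun t' _ => by ring

theorem dual (N : ℕ) (hN : 1 ≤ N) (W : Finset ℤ) (a : ℕ → ℂ) (ha : ∀ n, ‖a n‖ ≤ 1) (G₀ : ℤ → ℂ)
    {b : ℝ} (hb : 0 ≤ b) (hG : ∀ s : ℤ, ‖G₀ s‖ ≤ b / (1 + (s : ℝ) ^ 2))
    (hΛ : 10 * b * N ≤ ∑ t ∈ W, ‖DP N a t‖ ^ 2) :
    ((∑ t ∈ W, ‖DP N a t‖ ^ 2) / N) ^ 3 ≤ 4 * ∑ t ∈ W, ∑ l ∈ Ioc N (2 * N),
      ‖∑ t' ∈ W, (Gs N ((t - t' : ℤ) : ℝ) - G₀ (t - t')) * ei (t' * Real.log l)‖ ^ 2 := by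
  have N0 : (0 : ℝ) < N := by exact_mod_cast hN
  have hk := dua_key N hN W a ha G₀ hb hG
  set X : ℤ → ℕ → ℂ := fun t l =>
    ∑ t' ∈ W, (Gs N ((t - t' : ℤ) : ℝ) - G₀ (t - t')) * ei (t' * Real.log l) with hX
  have h1 : ‖∑ t ∈ W, ∑ t' ∈ W, conj (DP N a t) *
      ((Gs N ((t - t' : ℤ) : ℝ) - G₀ (t - t')) * DP N a t')‖ ≤
      ∑ t ∈ W, ‖DP N a t‖ * ∑ l ∈ Ioc N (2 * N), ‖X t l‖ := by
    refine (norm_sum_le _ _).trans (sum_le_sum fun t _ => ?_)
    rw [← mul_sum, norm_mul, Complex.norm_conj]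
    refine mul_le_mul_of_nonneg_left ?_ (norm_nonneg _)
    have e1 : ∑ t' ∈ W, (Gs N ((t - t' : ℤ) : ℝ) - G₀ (t - t')) * DP N a t' =
        ∑ l ∈ Ioc N (2 * N), a l * X t l := by
      simp only [hX, DP, mul_sum]
      exact sum_comm.trans (sum_congr rfl fun l _ => sum_congr rfl fun t' _ => by ring)
    rw [e1]
    refine (norm_sum_le _ _).trans (sum_le_sum fun l _ => ?_)
    rw [norm_mul]
    exact mul_le_of_le_one_left (norm_nonneg _) (ha l)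
  have h2 := sum_mul_sq_le_sq_mul_sq W (fun t => ‖DP N a t‖) fun t => ∑ l ∈ Ioc N (2 * N), ‖X t l‖
  have h3 : ∑ t ∈ W, (∑ l ∈ Ioc N (2 * N), ‖X t l‖) ^ 2 ≤
      N * ∑ t ∈ W, ∑ l ∈ Ioc N (2 * N), ‖X t l‖ ^ 2 := by
    rw [mul_sum]
    refine sum_le_sum fun t _ => ?_
    have := sq_sum_le_card_mul_sum_sq (s := Ioc N (2 * N)) (f := fun l => ‖X t l‖)
    rwa [dua_card] at this
  have S0 : 0 ≤ ∑ t ∈ W, ∑ l ∈ Ioc N (2 * N), ‖X t l‖ ^ 2 :=
    sum_nonneg fun _ _ => sum_nonneg fun _ _ => sq_nonneg _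
  have L0 : 0 ≤ ∑ t ∈ W, ‖DP N a t‖ ^ 2 := sum_nonneg fun _ _ => sq_nonneg _
  show _ ≤ 4 * ∑ t ∈ W, ∑ l ∈ Ioc N (2 * N), ‖X t l‖ ^ 2
  generalize ∑ t ∈ W, ∑ l ∈ Ioc N (2 * N), ‖X t l‖ ^ 2 = S at h3 S0 ⊢
  generalize ∑ t ∈ W, ‖DP N a t‖ * ∑ l ∈ Ioc N (2 * N), ‖X t l‖ = R at h1 h2
  have hk' := hk.trans (add_le_add le_rfl h1)
  have h4 := h2.trans (mul_le_mul_of_nonneg_left h3 L0)
  generalize ∑ t ∈ W, ‖DP N a t‖ ^ 2 = L at hΛ L0 hk' h4 ⊢
  obtain ⟨x, rfl⟩ : ∃ x, L = x * N := ⟨L / N, by field_simp⟩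
  have x0 : 0 ≤ x := nonneg_of_mul_nonneg_left L0 N0
  have hbx : 10 * b ≤ x := le_of_mul_le_mul_right hΛ N0
  rw [mul_div_assoc, div_self N0.ne', mul_one]
  rw [show (x * N) ^ 2 / N = x ^ 2 * N by field_simp] at hk'
  have h5 : x ^ 2 * N / 2 ≤ R := by linarith only [mul_le_mul_of_nonneg_right hbx L0, hk']
  have h6 := (pow_le_pow_left₀ (by positivity) h5 2).trans h4
  rcases x0.eq_or_lt with h | h
  · rw [← h]; norm_num only [mul_nonneg_iff_of_pos_left, ge_iff_le]; exact S0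
  · refine le_of_mul_le_mul_right ?_ (show 0 < x * (N : ℝ) ^ 2 by positivity)
    linarith only [h6]

theorem dual0 (N : ℕ) (hN : 1 ≤ N) (W : Finset ℤ) (a : ℕ → ℂ) (ha : ∀ n, ‖a n‖ ≤ 1) (G₀ : ℤ → ℂ)
    {b g : ℝ} (hb : 0 ≤ b) (hg : 0 ≤ g) (hG : ∀ s : ℤ, ‖G₀ s‖ ≤ b / (1 + (s : ℝ) ^ 2))
    (hG' : ∀ t ∈ W, ∀ t' ∈ W, ‖Gs N ((t - t' : ℤ) : ℝ) - G₀ (t - t')‖ ≤ g) :
    (∑ t ∈ W, ‖DP N a t‖ ^ 2) / N ≤ 5 * b + #W * g := by
  have N0 : (0 : ℝ) < N := by exact_mod_cast hN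
  have hk := dua_key N hN W a ha G₀ hb hG
  have h1 : ‖∑ t ∈ W, ∑ t' ∈ W, conj (DP N a t) *
      ((Gs N ((t - t' : ℤ) : ℝ) - G₀ (t - t')) * DP N a t')‖ ≤
      g * (∑ t ∈ W, ‖DP N a t‖) ^ 2 := by
    rw [sq, sum_mul_sum, mul_sum]
    refine (norm_sum_le _ _).trans (sum_le_sum fun t ht => ?_)
    rw [mul_sum]
    refine (norm_sum_le _ _).trans (sum_le_sum fun t' ht' => ?_)
    rw [norm_mul, norm_mul, Complex.norm_conj]
    have := mul_le_mul_of_nonneg_left (hG' t ht t' ht')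
      (mul_nonneg (norm_nonneg (DP N a t)) (norm_nonneg (DP N a t')))
    linarith only [this]
  have h2 := sq_sum_le_card_mul_sum_sq (s := W) (f := fun t => ‖DP N a t‖)
  have L0 : 0 ≤ ∑ t ∈ W, ‖DP N a t‖ ^ 2 := sum_nonneg fun _ _ => sq_nonneg _
  have hk' := hk.trans (add_le_add le_rfl (h1.trans (mul_le_mul_of_nonneg_left h2 hg)))
  generalize ∑ t ∈ W, ‖DP N a t‖ ^ 2 = L at L0 hk' ⊢
  rcases L0.eq_or_lt with h | h
  · rw [← h, zero_div]; positivity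
  · refine le_of_mul_le_mul_right ?_ h
    rw [show L / N * L = L ^ 2 / N by ring]
    linarith only [hk']

end

section

/-! ### block RED -/

lemma red_hi {z : ℝ} (h : 1 ≤ z) : 21 / 10 ≤ exp z :=
  le_trans (by linarith [exp_one_gt_d9]) (exp_le_exp.2 h)

lemma red_lo {z : ℝ} (h : z ≤ -1) : exp z ≤ 9 / 20 := by
  have h1 : exp z * exp 1 ≤ 1 := by rw [← exp_add]; exact exp_le_one_iff.2 (by linarith)
  nlinarith [exp_one_gt_d9, exp_pos z]

lemma red_wt0 {N i : ℕ} (hN : 1 ≤ N) (h1 : N ≤ i) (h2 : i ≤ 2 * N) {z : ℝ}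
    (hz : z ≤ -1 ∨ 21 / 10 ≤ exp z) : wt (i * exp z / N) = 0 := by
  have N0 : (0 : ℝ) < N := by exact_mod_cast hN
  have a1 : (N : ℝ) ≤ i := by exact_mod_cast h1
  have a2 : (i : ℝ) ≤ 2 * N := by exact_mod_cast h2
  refine wt_zero (hz.imp (fun h => ?_) fun h => ?_)
  · rw [div_le_iff₀ N0]
    nlinarith only [red_lo h, a2]
  · rw [le_div_iff₀ N0]
    nlinarith only [a1, h]

theorem shift (N l : ℕ) (hN : 1 ≤ N) (hl : l ∈ Ioc N (2 * N)) (W : Finset ℤ) (t m : ℤ) :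
    ∑ t' ∈ W, Im N ((t - t' : ℤ) : ℝ) m * ei (t' * Real.log l) =
      l * ei (t * Real.log l) * ∫ z in (-1 : ℝ)..1,
        ((wt (l * exp z / N) * exp z : ℝ) : ℂ) * rho W (-z) * ei (t * z) *
          e (-(m * l * exp z)) := by
  rw [mem_Ioc] at hl
  have N0 : (0 : ℝ) < N := by exact_mod_cast hN
  have a1 : (N : ℝ) < l := by exact_mod_cast hl.1
  have a2 : (l : ℝ) ≤ 2 * N := by exact_mod_cast hl.2
  have l0 : (0 : ℝ) < l := N0.trans a1
  obtain ⟨c, hc⟩ : ∃ c : ℝ, c = Real.log l - Real.log N := ⟨_, rfl⟩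
  have hx : ∀ z, (l : ℝ) * exp (z - c) = N * exp z := fun z => by
    rw [hc, exp_sub, exp_sub, exp_log l0, exp_log N0]; field_simp
  have c0 : 0 ≤ c := by rw [hc]; linarith only [Real.log_le_log N0 a1.le]
  have c1 : c ≤ 1 := by
    rw [hc, ← Real.log_div l0.ne' N0.ne']
    have : (l : ℝ) / N ≤ 2 := by rw [div_le_iff₀ N0]; exact a2
    linarith only [Real.log_le_sub_one_of_pos (div_pos l0 N0), this]
  obtain ⟨F, hF⟩ : ∃ F : ℝ → ℂ, F = fun z => ((wt (l * exp z / N) * exp z : ℝ) : ℂ) * rho W (-z) *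
    ei (t * z) * e (-(m * l * exp z)) := ⟨_, rfl⟩
  have h0 : ∀ x, x ≤ -1 ∨ 1 - c ≤ x → F x = 0 := fun x h => by
    have : wt (l * exp x / N) = 0 := by
      rcases h with h | h
      · exact red_wt0 hN hl.1.le hl.2 (Or.inl h)
      · have h2 := hx (x + c)
        rw [add_sub_cancel_right] at h2
        rw [h2, mul_div_cancel_left₀ _ N0.ne']
        exact wt_zero (Or.inr (red_hi (by linarith only [h])))
    simp only [hF, Complex.ofReal_mul, Complex.ofReal_exp, this, Complex.ofReal_zero, zero_mul]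
  have h1 : ∫ z in (-1 : ℝ)..1, F z = ∫ z in (-1 : ℝ)..1, F (z - c) := by
    rw [intervalIntegral.integral_comp_sub_right F,
      int_supp (c := -1) (d := 1 - c) le_rfl (by linarith only [c1]) (by linarith only [c0]) h0,
      int_supp (a := -1 - c) (c := -1) (d := 1 - c) (by linarith only [c0]) (by linarith only [c1]) le_rfl h0]
  rw [← hF, h1, ← intervalIntegral.integral_const_mul]
  unfold Im
  simp only [← intervalIntegral.integral_const_mul, ← intervalIntegral.integral_mul_const]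
  rw [← intervalIntegral.integral_finsetSum
    fun _ _ => Continuous.intervalIntegrable (by fun_prop) _ _]
  refine intervalIntegral.integral_congr fun z _ => ?_
  have e1 : (m : ℝ) * l * exp (z - c) = m * N * exp z := by rw [mul_assoc, hx, mul_assoc]
  have e2 : ((l : ℝ) : ℂ) * (exp (z - c) : ℝ) = (N : ℝ) * (exp z : ℝ) := by
    rw [← Complex.ofReal_mul, hx, Complex.ofReal_mul]
  simp only [hF]
  rw [hx, mul_div_cancel_left₀ _ N0.ne', e1, rho, mul_sum, sum_mul, sum_mul, mul_sum]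
  refine sum_congr rfl fun s _ => ?_
  have e3 : ei (((t - s : ℤ) : ℝ) * Real.log N) * ei (((t - s : ℤ) : ℝ) * z) * ei (s * Real.log l) =
      ei (t * Real.log l) * ei (s * -(z - c)) * ei (t * (z - c)) := by
    simp only [← ei_add]; congr 1; rw [hc]; push_cast; ring
  rw [Complex.ofReal_mul, Complex.ofReal_mul]
  rw [Complex.ofReal_natCast, Complex.ofReal_natCast] at e2
  linear_combination (wt (exp z) : ℂ) * e (-(m * N * exp z)) * ((N * (exp z : ℝ)) * e3 -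
    ei (t * Real.log l) * ei (s * -(z - c)) * ei (t * (z - c)) * e2)

/-- one dyadic block -/
noncomputable def red_A (P : ℕ) (t l : ℤ) (ψ : ℝ → ℂ) : ℂ :=
  ∑ m ∈ Ico P (2 * P), ∫ z in (-1 : ℝ)..1, ψ z * ei (t * z) * e (-(m * l * exp z))

/-- the amplitude -/
noncomputable def red_P (N : ℕ) (W : Finset ℤ) (i : ℕ) (z : ℝ) : ℂ :=
  ((wt (i * exp z / N) * exp z : ℝ) : ℂ) * rho W (-z)

@[fun_prop] lemma red_cont (N : ℕ) (W : Finset ℤ) (i : ℕ) : Continuous (red_P N W i) := by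
  unfold red_P; fun_prop

lemma red_mul (P : ℕ) (t l : ℤ) (ψ : ℝ → ℂ) (a : ℂ) :
    red_A P t l (fun z => a * ψ z) = a * red_A P t l ψ := by
  simp only [red_A, mul_sum, ← intervalIntegral.integral_const_mul, mul_assoc]

lemma red_sub (P : ℕ) (t l : ℤ) {ψ φ : ℝ → ℂ} (h1 : Continuous ψ) (h2 : Continuous φ) :
    red_A P t l (fun z => ψ z - φ z) = red_A P t l ψ - red_A P t l φ := by
  simp only [red_A, ← sum_sub_distrib, sub_mul]
  exact sum_congr rfl fun m _ => intervalIntegral.integral_sub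
    (Continuous.intervalIntegrable (by fun_prop) _ _) (Continuous.intervalIntegrable (by fun_prop) _ _)

lemma red_sgn {N P : ℕ} {W : Finset ℤ} {s : ℤ} (hs : s = 1 ∨ s = -1) (ψ : ℝ → ℂ) :
    ∑ t ∈ W, ∑ l ∈ Ioc N (2 * N), ‖red_A P t (s * l) ψ‖ ^ 2 ≤ SS N P W ψ := by
  refine sum_le_sum fun t _ => ?_
  rw [← sum_image (s := Ioc N (2 * N)) (g := fun l : ℕ => s * l)
    (f := fun l' : ℤ => ‖red_A P t l' ψ‖ ^ 2) fun x _ y _ h => by
      rcases hs with rfl | rfl <;> simpa using h]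
  refine sum_le_sum_of_subset_of_nonneg (fun x hx => ?_) fun _ _ _ => sq_nonneg _
  obtain ⟨l, hl, rfl⟩ := mem_image.1 hx
  rw [mem_Ioc] at hl
  rw [mem_Icc]
  rcases hs with rfl | rfl <;> omega

lemma red_adm {W : Finset ℤ} {g : ℝ → ℝ} (hg : Continuous g) (h0 : ∀ z, z ≤ -1 ∨ 21 / 10 ≤ exp z → g z = 0)
    (h1 : ∀ z, exp z ≤ 21 / 10 → |g z| ≤ 1) : Adm W fun z => (g z : ℂ) * rho W (-z) := by
  refine ⟨by fun_prop, fun z => ?_, fun z hz => ?_⟩
  · rw [norm_mul, Complex.norm_real, Real.norm_eq_abs]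
    refine mul_le_of_le_one_left (norm_nonneg _) ?_
    rcases le_total (exp z) (21 / 10) with h | h
    · exact h1 z h
    · rw [h0 z (Or.inr h), abs_zero]; exact zero_le_one
  · rw [h0 z ((le_abs.1 hz).symm.imp (fun h => by linarith) red_hi)]; simp

lemma red_one : ∃ K : ℝ, 0 < K ∧ ∀ (N P : ℕ) (W : Finset ℤ) (B : ℝ) (s : ℤ), 1 ≤ N → (s = 1 ∨ s = -1) →
    (∀ ψ : ℝ → ℂ, Adm W ψ → SS N P W ψ ≤ B) →
      ∑ t ∈ W, ∑ l ∈ Ioc N (2 * N), ‖red_A P t (s * l) (red_P N W l)‖ ^ 2 ≤ K * B := by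
  obtain ⟨c, c0, hc⟩ := wt_lip
  refine ⟨18 + 162 * c ^ 2, by positivity, fun N P W B s hN hs hB => ?_⟩
  have N0 : (0 : ℝ) < N := by exact_mod_cast hN
  obtain ⟨ψ, hψ⟩ : ∃ ψ : ℝ → ℂ, ψ = fun z => ((1 / 3 : ℝ) : ℂ) * red_P N W N z := ⟨_, rfl⟩
  obtain ⟨φ, hφ⟩ : ∃ φ : ℕ → ℝ → ℂ, φ = fun i z =>
    ((N / (9 * c) : ℝ) : ℂ) * (red_P N W (i + 1) z - red_P N W i z) := ⟨_, rfl⟩
  have a1 : Adm W ψ := by
    have := red_adm (W := W) (g := fun z => 1 / 3 * (wt (N * exp z / N) * exp z)) (by fun_prop)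
      (fun z hz => by rw [red_wt0 hN le_rfl (by omega) hz]; ring) fun z hz => by
        have := wt_nonneg (N * exp z / N)
        have := wt_le (N * exp z / N)
        have := exp_pos z
        rw [abs_of_nonneg (by positivity)]
        nlinarith
    convert this using 2
    simp only [hψ, red_P]; push_cast; ring
  have a2 : ∀ i ∈ Ico N (2 * N), Adm W (φ i) := fun i hi => by
    rw [mem_Ico] at hi
    have := red_adm (W := W) (g := fun z => N / (9 * c) *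
      ((wt ((i + 1 : ℕ) * exp z / N) - wt (i * exp z / N)) * exp z)) (by fun_prop)
      (fun z hz => by rw [red_wt0 hN hi.1 hi.2.le hz, red_wt0 hN (by omega) (by omega) hz]; ring)
      fun z hz => by
        have h1 := hc ((i + 1 : ℕ) * exp z / N) (i * exp z / N)
        have h2 := exp_pos z
        rw [show ((i + 1 : ℕ) : ℝ) * exp z / N - i * exp z / N = exp z / N by push_cast; ring,
          abs_of_pos (div_pos h2 N0)] at h1
        rw [abs_mul, abs_mul, abs_of_pos h2, abs_of_pos (by positivity : (0 : ℝ) < N / (9 * c))]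
        calc _ ≤ N / (9 * c) * (c * (exp z / N) * exp z) := by gcongr
          _ = exp z * exp z / 9 := by field_simp
          _ ≤ 1 := by nlinarith only [hz, h2]
    convert this using 2
    simp only [hφ, red_P]; push_cast; ring
  have key : ∀ (t l' : ℤ), ∀ l ∈ Ioc N (2 * N), ‖red_A P t l' (red_P N W l)‖ ^ 2 ≤
      18 * ‖red_A P t l' ψ‖ ^ 2 + 162 * c ^ 2 / N * ∑ i ∈ Ico N (2 * N), ‖red_A P t l' (φ i)‖ ^ 2 := by
    intro t l' l hl
    rw [mem_Ioc] at hl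
    have h1 := sum_Ico_sub (fun i => red_A P t l' (red_P N W i)) hl.1.le
    have h2 : ‖red_A P t l' (red_P N W N)‖ = 3 * ‖red_A P t l' ψ‖ := by
      rw [hψ, red_mul, norm_mul, Complex.norm_real, Real.norm_of_nonneg (by norm_num)]; ring
    have h3 : ∀ i, ‖red_A P t l' (red_P N W (i + 1)) - red_A P t l' (red_P N W i)‖ =
        9 * c / N * ‖red_A P t l' (φ i)‖ := fun i => by
      simp only [hφ]
      rw [red_mul, red_sub _ _ _ (by fun_prop) (by fun_prop), norm_mul, Complex.norm_real,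
        Real.norm_of_nonneg (by positivity)]
      field_simp
    have h4 : ‖red_A P t l' (red_P N W l)‖ ≤
        3 * ‖red_A P t l' ψ‖ + 9 * c / N * ∑ i ∈ Ico N (2 * N), ‖red_A P t l' (φ i)‖ := by
      rw [eq_add_of_sub_eq h1.symm, add_comm, ← h2]
      refine (norm_add_le _ _).trans (add_le_add le_rfl ((norm_sum_le _ _).trans ?_))
      simp only [h3]
      rw [← mul_sum]
      exact mul_le_mul_of_nonneg_left (sum_le_sum_of_subset_of_nonneg (Ico_subset_Ico_right hl.2)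
        fun _ _ _ => norm_nonneg _) (by positivity)
    have h5 := sq_sum_le_card_mul_sum_sq (s := Ico N (2 * N)) (f := fun i => ‖red_A P t l' (φ i)‖)
    rw [Nat.card_Ico, show 2 * N - N = N by omega] at h5
    have h6 : (9 * c / N * ∑ i ∈ Ico N (2 * N), ‖red_A P t l' (φ i)‖) ^ 2 ≤
        81 * c ^ 2 / N * ∑ i ∈ Ico N (2 * N), ‖red_A P t l' (φ i)‖ ^ 2 := by
      rw [mul_pow]
      refine (mul_le_mul_of_nonneg_left h5 (sq_nonneg _)).trans (le_of_eq ?_)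
      field_simp; ring
    have h7 := pow_le_pow_left₀ (norm_nonneg _) h4 2
    have h8 := sq_nonneg (3 * ‖red_A P t l' ψ‖ -
      9 * c / N * ∑ i ∈ Ico N (2 * N), ‖red_A P t l' (φ i)‖)
    rw [show 162 * c ^ 2 / N = 2 * (81 * c ^ 2 / N) by ring]
    nlinarith
  refine (sum_le_sum fun t _ => sum_le_sum fun (l : ℕ) hl => key t (s * l) l hl).trans ?_
  simp only [sum_add_distrib, ← mul_sum]
  have b1 := (red_sgn hs ψ).trans (hB ψ a1)
  have b2 : ∑ t ∈ W, ∑ l ∈ Ioc N (2 * N), ∑ i ∈ Ico N (2 * N), ‖red_A P t (s * l) (φ i)‖ ^ 2 ≤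
      N * B := by
    simp only [sum_comm (s := Ioc N (2 * N)) (t := Ico N (2 * N))]
    rw [sum_comm]
    refine (sum_le_sum fun i hi => (red_sgn hs (φ i)).trans (hB _ (a2 i hi))).trans (le_of_eq ?_)
    rw [sum_const, Nat.card_Ico, show 2 * N - N = N by omega, nsmul_eq_mul]
  have b3 := mul_le_mul_of_nonneg_left b2 (by positivity : 0 ≤ 162 * c ^ 2 / N)
  rw [show 162 * c ^ 2 / N * (N * B) = 162 * c ^ 2 * B by field_simp] at b3
  linarith only [b1, b3]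

lemma red_dy (f : ℤ → ℂ) (J : ℕ) : ∑ m ∈ (Ioo (-(2 ^ J : ℤ)) (2 ^ J)).erase 0, f m =
    ∑ j ∈ range J, (∑ m ∈ Ico (2 ^ j) (2 * 2 ^ j), f (m : ℕ) +
      ∑ m ∈ Ico (2 ^ j) (2 * 2 ^ j), f (-(m : ℕ))) := by
  have h1 : ∀ M : ℕ, ∑ m ∈ (Ioo (-(M : ℤ)) M).erase 0, f m =
      ∑ m ∈ Ico 1 M, (f (m : ℕ) + f (-(m : ℕ))) := fun M => by
    have : (Ioo (-(M : ℤ)) M).erase 0 = (Ico 1 M).image (fun m : ℕ => (m : ℤ)) ∪
        (Ico 1 M).image (fun m : ℕ => -(m : ℤ)) := by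
      ext x
      simp only [mem_erase, mem_Ioo, mem_union, mem_image, mem_Ico]
      constructor
      · intro h
        rcases le_total 0 x with h' | h'
        · exact Or.inl ⟨x.natAbs, by omega, by omega⟩
        · exact Or.inr ⟨x.natAbs, by omega, by omega⟩
      · rintro (⟨m, h, rfl⟩ | ⟨m, h, rfl⟩) <;> omega
    rw [this, sum_union, sum_image fun x _ y _ h => by simpa using h,
      sum_image fun x _ y _ h => by simpa using h, sum_add_distrib]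
    rw [disjoint_left]
    intro x h1 h2
    simp only [mem_image, mem_Ico] at h1 h2
    obtain ⟨m, h, rfl⟩ := h1
    obtain ⟨m', h', e'⟩ := h2
    omega
  have h2 := h1 (2 ^ J)
  push_cast at h2
  rw [h2]
  clear h2
  induction J with
  | zero => simp only [pow_zero, Std.le_refl, Ico_eq_empty_of_le, sum_empty, range_zero]
  | succ J ih =>
    rw [sum_range_succ, ← ih, ← sum_add_distrib, pow_succ', sum_Ico_consecutive _ Nat.one_le_two_pow
      (by omega)]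

theorem red : ∃ C : ℝ, 0 < C ∧ ∀ (N J : ℕ) (W : Finset ℤ) (B : ℝ), 1 ≤ N → 0 ≤ B →
    (∀ j < J, ∀ ψ : ℝ → ℂ, Adm W ψ → SS N (2 ^ j) W ψ ≤ B) →
      ∑ t ∈ W, ∑ l ∈ Ioc N (2 * N), ‖∑ t' ∈ W,
        (∑ m ∈ (Ioo (-(2 ^ J : ℤ)) (2 ^ J)).erase 0, Im N ((t - t' : ℤ) : ℝ) m) *
          ei (t' * Real.log l)‖ ^ 2 ≤ C * J ^ 2 * N ^ 2 * B := by
  obtain ⟨K, K0, hK⟩ := red_one
  refine ⟨16 * K, by positivity, fun N J W B hN _ hB => ?_⟩
  have key : ∀ t : ℤ, ∀ l ∈ Ioc N (2 * N), ‖∑ t' ∈ W,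
      (∑ m ∈ (Ioo (-(2 ^ J : ℤ)) (2 ^ J)).erase 0, Im N ((t - t' : ℤ) : ℝ) m) *
        ei (t' * Real.log l)‖ ^ 2 ≤ 8 * J * N ^ 2 * ∑ j ∈ range J,
          (‖red_A (2 ^ j) t (1 * l) (red_P N W l)‖ ^ 2 +
            ‖red_A (2 ^ j) t (-1 * l) (red_P N W l)‖ ^ 2) := by
    intro t l hl
    simp only [sum_mul]
    rw [sum_comm, sum_congr rfl fun m _ => shift N l hN hl W t m, ← mul_sum, red_dy]
    have e1 : ∀ j : ℕ, (∑ m ∈ Ico (2 ^ j) (2 * 2 ^ j), ∫ z in (-1 : ℝ)..1,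
        ((wt (l * exp z / N) * exp z : ℝ) : ℂ) * rho W (-z) * ei (t * z) *
          e (-((((m : ℕ) : ℤ) : ℝ) * l * exp z))) + (∑ m ∈ Ico (2 ^ j) (2 * 2 ^ j), ∫ z in (-1 : ℝ)..1,
        ((wt (l * exp z / N) * exp z : ℝ) : ℂ) * rho W (-z) * ei (t * z) *
          e (-(((-(m : ℕ) : ℤ) : ℝ) * l * exp z))) =
        red_A (2 ^ j) t (1 * l) (red_P N W l) + red_A (2 ^ j) t (-1 * l) (red_P N W l) := fun j => by
      simp only [red_A, red_P, one_mul, neg_mul, mul_neg, Int.cast_neg, Int.cast_natCast]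
    rw [sum_congr rfl fun j _ => e1 j, norm_mul, norm_mul, norm_ei, mul_one, Complex.norm_natCast,
      mul_pow]
    have a2 : (l : ℝ) ≤ 2 * N := by exact_mod_cast (mem_Ioc.1 hl).2
    have h1 := pow_le_pow_left₀ (Nat.cast_nonneg l) a2 2
    have h2 := pow_le_pow_left₀ (norm_nonneg _) (norm_sum_le (range J) fun j =>
      red_A (2 ^ j) t (1 * l) (red_P N W l) + red_A (2 ^ j) t (-1 * l) (red_P N W l)) 2
    have h3 := h2.trans sq_sum_le_card_mul_sum_sq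
    rw [card_range] at h3
    have h4 : ∑ j ∈ range J, ‖red_A (2 ^ j) t (1 * l) (red_P N W l) +
        red_A (2 ^ j) t (-1 * l) (red_P N W l)‖ ^ 2 ≤ 2 * ∑ j ∈ range J,
          (‖red_A (2 ^ j) t (1 * l) (red_P N W l)‖ ^ 2 +
            ‖red_A (2 ^ j) t (-1 * l) (red_P N W l)‖ ^ 2) := by
      rw [mul_sum]
      refine sum_le_sum fun j _ => (pow_le_pow_left₀ (norm_nonneg _) (norm_add_le _ _) 2).trans ?_
      linarith only [sq_nonneg (‖red_A (2 ^ j) t (1 * l) (red_P N W l)‖ -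
        ‖red_A (2 ^ j) t (-1 * l) (red_P N W l)‖)]
    refine (mul_le_mul h1 (h3.trans (mul_le_mul_of_nonneg_left h4 (Nat.cast_nonneg J)))
      (sq_nonneg _) (sq_nonneg _)).trans (le_of_eq ?_)
    ring
  refine (sum_le_sum fun t _ => sum_le_sum fun l hl => key t l hl).trans ?_
  simp only [← mul_sum]
  simp only [sum_comm (s := Ioc N (2 * N)) (t := range J)]
  rw [sum_comm]
  simp only [sum_add_distrib]
  have b : ∀ s : ℤ, s = 1 ∨ s = -1 → ∑ j ∈ range J, ∑ t ∈ W, ∑ l ∈ Ioc N (2 * N),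
      ‖red_A (2 ^ j) t (s * l) (red_P N W l)‖ ^ 2 ≤ J * (K * B) := fun s hs => by
    refine (sum_le_sum fun j hj => hK N _ W B s hN hs (hB j (mem_range.1 hj))).trans (le_of_eq ?_)
    rw [sum_const, card_range, nsmul_eq_mul]
  refine (mul_le_mul_of_nonneg_left (add_le_add (b 1 (Or.inl rfl)) (b (-1) (Or.inr rfl)))
    (by positivity)).trans (le_of_eq ?_)
  ring

end

section

theorem lam (A : ℕ) (hA : 2 ≤ A) : ∃ C : ℝ, 0 < C ∧ ∀ (N T J : ℕ) (W : Finset ℤ) (a : ℕ → ℂ) (B : ℝ),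
    1 ≤ N → 1 ≤ T → (∀ t ∈ W, 0 ≤ t ∧ t ≤ T) → (∀ n, ‖a n‖ ≤ 1) → 0 ≤ B →
    (∀ j < J, ∀ ψ : ℝ → ℂ, Adm W ψ → SS N (2 ^ j) W ψ ≤ B) →
      ∑ t ∈ W, ‖DP N a t‖ ^ 2 ≤ C * N ^ 2 ∨
      ((∑ t ∈ W, ‖DP N a t‖ ^ 2) / N) ^ 3 ≤ C * (J ^ 2 * N ^ 2 * B +
        #W ^ 3 * N * (N * 2 ^ J * ((2 * T : ℝ) / (2 ^ J * N)) ^ A) ^ 2) := by
  obtain ⟨c₀, p₀, h₀⟩ := im_zero
  obtain ⟨c₁, p₁, h₁⟩ := poisson A hA
  obtain ⟨c₂, p₂, h₂⟩ := red
  refine ⟨10 * c₀ + 8 * c₂ + 8 * c₁ ^ 2, by positivity, fun N T J W a B hN hT hW ha hB hS => ?_⟩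
  have N0 : (0 : ℝ) < N := by exact_mod_cast hN
  have T1 : (1 : ℝ) ≤ T := by exact_mod_cast hT
  rcases le_total (∑ t ∈ W, ‖DP N a t‖ ^ 2) (10 * (c₀ * N) * N) with hΛ | hΛ
  · refine Or.inl (hΛ.trans ?_)
    have : 0 ≤ (8 * c₂ + 8 * c₁ ^ 2) * (N : ℝ) ^ 2 := by positivity
    linarith only [this]
  right
  have hd := dual N hN W a ha (fun s => Im N s 0) (b := c₀ * N) (by positivity) (fun s => h₀ N s) hΛ
  have hr := h₂ N J W B hN hB hS
  set g : ℝ := N * 2 ^ J * ((2 * T : ℝ) / (2 ^ J * N)) ^ A with hg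
  have g0 : 0 ≤ g := by positivity
  have key : ∀ t ∈ W, ∀ l ∈ Ioc N (2 * N),
      ‖∑ t' ∈ W, (Gs N ((t - t' : ℤ) : ℝ) - Im N ((t - t' : ℤ) : ℝ) 0) * ei (t' * Real.log l)‖ ^ 2 ≤
        2 * (#W * (c₁ * g)) ^ 2 + 2 * ‖∑ t' ∈ W,
        (∑ m ∈ (Ioo (-(2 ^ J : ℤ)) (2 ^ J)).erase 0, Im N ((t - t' : ℤ) : ℝ) m) *
          ei (t' * Real.log l)‖ ^ 2 := by
    intro t ht l _
    have m0 : (0 : ℤ) ∈ Ioo (-(2 ^ J : ℤ)) (2 ^ J) := by
      have : (0 : ℤ) < 2 ^ J := by positivity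
      rw [mem_Ioo]
      constructor <;> linarith only [this]
    have e1 : ∑ t' ∈ W, (Gs N ((t - t' : ℤ) : ℝ) - Im N ((t - t' : ℤ) : ℝ) 0) * ei (t' * Real.log l) =
        ∑ t' ∈ W, (Gs N ((t - t' : ℤ) : ℝ) -
          ∑ m ∈ Ioo (-(2 ^ J : ℤ)) (2 ^ J), Im N ((t - t' : ℤ) : ℝ) m) * ei (t' * Real.log l) +
        ∑ t' ∈ W, (∑ m ∈ (Ioo (-(2 ^ J : ℤ)) (2 ^ J)).erase 0, Im N ((t - t' : ℤ) : ℝ) m) *
          ei (t' * Real.log l) := by
      rw [← sum_add_distrib]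
      refine sum_congr rfl fun t' _ => ?_
      rw [← add_sum_erase _ _ m0]
      ring
    have e2 : ‖∑ t' ∈ W, (Gs N ((t - t' : ℤ) : ℝ) -
          ∑ m ∈ Ioo (-(2 ^ J : ℤ)) (2 ^ J), Im N ((t - t' : ℤ) : ℝ) m) * ei (t' * Real.log l)‖ ≤
        #W * (c₁ * g) := by
      refine (norm_sum_le _ _).trans ?_
      rw [← nsmul_eq_mul]
      refine sum_le_card_nsmul _ _ _ fun t' ht' => ?_
      rw [norm_mul, norm_ei, mul_one]
      have h3 := h₁ N (2 ^ J) ((t - t' : ℤ) : ℝ) hN Nat.one_le_two_pow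
      rw [Nat.cast_pow, Nat.cast_pow, Nat.cast_ofNat, Nat.cast_ofNat] at h3
      refine h3.trans ?_
      have h4 : |((t - t' : ℤ) : ℝ)| ≤ T := by
        obtain ⟨a1, a2⟩ := hW t ht
        obtain ⟨a3, a4⟩ := hW t' ht'
        have : |t - t'| ≤ (T : ℤ) := abs_le.2 ⟨by linarith only [a1, a4], by linarith only [a2, a3]⟩
        exact_mod_cast this
      have h5 : 1 + |((t - t' : ℤ) : ℝ)| ≤ 2 * T := by linarith only [T1, h4]
      rw [hg, ← mul_assoc, ← mul_assoc]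
      gcongr
    rw [e1]
    generalize ∑ t' ∈ W, (∑ m ∈ (Ioo (-(2 ^ J : ℤ)) (2 ^ J)).erase 0, Im N ((t - t' : ℤ) : ℝ) m) *
          ei (t' * Real.log l) = y at *
    generalize ∑ t' ∈ W, (Gs N ((t - t' : ℤ) : ℝ) -
          ∑ m ∈ Ioo (-(2 ^ J : ℤ)) (2 ^ J), Im N ((t - t' : ℤ) : ℝ) m) * ei (t' * Real.log l) = x at *
    have h6 : ‖x + y‖ ^ 2 ≤ (#W * (c₁ * g) + ‖y‖) ^ 2 :=
      pow_le_pow_left₀ (norm_nonneg _) ((norm_add_le _ _).trans (by linarith only [e2])) 2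
    linarith only [sq_nonneg (#W * (c₁ * g) - ‖y‖), h6]
  have h7 := sum_le_sum fun t ht => sum_le_sum (key t ht)
  simp only [sum_add_distrib, sum_const, ← mul_sum, Nat.card_Ioc, nsmul_eq_mul] at h7
  rw [show 2 * N - N = N by omega] at h7
  have q1 : 0 ≤ (J : ℝ) ^ 2 * N ^ 2 * B := by positivity
  have q2 : 0 ≤ (#W : ℝ) ^ 3 * N * g ^ 2 := by positivity
  have q3 := mul_nonneg (show 0 ≤ 10 * c₀ + 8 * c₁ ^ 2 by positivity) q1
  have q4 := mul_nonneg (show 0 ≤ 10 * c₀ + 8 * c₂ by positivity) q2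
  refine hd.trans ?_
  linarith only [hr, h7, q3, q4]

end

section

lemma sqr_kern {r : ℝ} (hr : 1 ≤ r) (u : ℝ) {q : ℝ} (h1 : -1 ≤ q) :
    ‖H14.kern (r ^ 2) u (-1) q‖ ≤ 98 / r := by
  have hr0 : 0 < r := by linarith
  have hΛ : 0 < r ^ 2 := by positivity
  rcases le_total u (r ^ 2 / 6) with hu | hu
  · refine (H14.kern_fd (l := r ^ 2 / 6) hΛ h1 (by positivity) fun y hy _ => ?_).trans ?_
    · have h2 : 1 / 3 ≤ exp y := by
        refine le_trans ?_ (exp_le_exp.2 hy)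
        rw [exp_neg, one_div]
        exact inv_anti₀ (exp_pos _) H14.phase_e_lt
      refine le_trans ?_ (neg_le_abs _)
      nlinarith only [hu, h2]
    · rw [div_le_div_iff₀ (by positivity) hr0]; nlinarith only [hr]
  have hu0 : 0 < u := lt_of_lt_of_le (by positivity) hu
  have hζ : 0 < 1 / r := by positivity
  have hζ1 : 1 / r ≤ 1 := by rw [div_le_one hr0]; exact hr
  set y0 := Real.log (u / r ^ 2) with hy0
  set c1 := max (-1) (min q (y0 - 1 / r)) with hc1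
  set c2 := max (-1) (min q (y0 + 1 / r)) with hc2
  have a1 : ‖H14.kern (r ^ 2) u (-1) c1‖ ≤ 8 / (u * (1 / r)) := by
    refine H14.kern_out hΛ hu0 hζ hζ1 (le_max_left _ _) ?_
    rcases le_total (-1) (min q (y0 - 1 / r)) with h | h
    · exact Or.inr (Or.inl (by rw [hc1, max_eq_right h]; exact min_le_right _ _))
    · exact Or.inl (max_eq_left h).symm
  have a2 : ‖H14.kern (r ^ 2) u c2 q‖ ≤ 8 / (u * (1 / r)) := by
    refine H14.kern_out hΛ hu0 hζ hζ1 (max_le h1 (min_le_left _ _)) ?_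
    rcases le_total q (y0 + 1 / r) with h | h
    · exact Or.inl (by rw [hc2, min_eq_left h, max_eq_right h1])
    · exact Or.inr (Or.inr (by rw [hc2, min_eq_right h]; exact le_max_right _ _))
  have a3 : ‖H14.kern (r ^ 2) u c1 c2‖ ≤ 2 * (1 / r) := by
    refine (H14.kern_triv _ _ _ _).trans ?_
    rw [hc1, hc2, abs_le]
    simp only [max_def, min_def]
    split_ifs <;> constructor <;> linarith
  have a4 : 8 / (u * (1 / r)) ≤ 48 * (1 / r) := by
    rw [div_le_iff₀ (by positivity),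
      show 48 * (1 / r) * (u * (1 / r)) = 48 * u / r ^ 2 by field_simp, le_div_iff₀ hΛ]
    linarith only [hu]
  rw [← H14.kern_add _ u (-1) c1 q, ← H14.kern_add _ u c1 c2 q]
  refine (norm_add_le _ _).trans ((add_le_add le_rfl (norm_add_le _ _)).trans ?_)
  rw [show 98 / r = 98 * (1 / r) by ring]
  linarith only [a1, a2, a3, a4]

lemma sqr_int : ∃ C : ℝ, 0 < C ∧ ∀ r u : ℝ, 1 ≤ r →
    ‖∫ z in (-1 : ℝ)..1, ((wt (exp z) * exp z : ℝ) : ℂ) * ei (u * z - r ^ 2 * exp z)‖ ≤ C / r := by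
  have hφ : ContDiff ℝ 1 fun z => wt (exp z) * exp z :=
    ((wt_smooth.of_le (by exact_mod_cast le_top)).comp contDiff_exp).mul contDiff_exp
  have hc := hφ.continuous_deriv_one
  obtain ⟨B, hB⟩ := isCompact_Icc.exists_bound_of_continuousOn (s := Set.Icc (-1 : ℝ) 1)
    hc.continuousOn
  have hB0 : 0 ≤ B := (norm_nonneg _).trans (hB 0 (by norm_num))
  refine ⟨98 * (3 + 2 * B), by positivity, fun r u hr => ?_⟩
  have hg : Continuous fun z : ℝ => ei (u * z - r ^ 2 * exp z) := by fun_prop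
  rw [intervalIntegral.integral_mul_deriv_eq_deriv_mul (v := fun y => H14.kern (r ^ 2) u (-1) y)
    (fun x _ => ((hφ.differentiable one_ne_zero x).hasDerivAt).ofReal_comp)
    (fun x _ => (hg.integral_hasStrictDerivAt (-1) x).hasDerivAt)
    ((Complex.continuous_ofReal.comp hc).intervalIntegrable _ _) (hg.intervalIntegrable _ _)]
  have h0 : H14.kern (r ^ 2) u (-1) (-1) = 0 := intervalIntegral.integral_same
  have hK : 0 ≤ 98 / r := by positivity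
  have h1 : ‖((wt (exp 1) * exp 1 : ℝ) : ℂ) * H14.kern (r ^ 2) u (-1) 1‖ ≤ 3 * (98 / r) := by
    rw [norm_mul, Complex.norm_real, Real.norm_of_nonneg (mul_nonneg (wt_nonneg _) (exp_pos _).le)]
    refine mul_le_mul ?_ (sqr_kern hr u (by norm_num)) (norm_nonneg _) (by norm_num)
    nlinarith only [wt_le (exp 1), H14.phase_e_lt, exp_pos 1]
  have h2 := intervalIntegral.norm_integral_le_of_norm_le_const (a := -1) (b := 1)
    (C := B * (98 / r)) (f := fun x => ((deriv (fun z => wt (exp z) * exp z) x : ℝ) : ℂ) *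
      H14.kern (r ^ 2) u (-1) x) fun x hx => by
    rw [Set.uIoc_of_le (by norm_num)] at hx
    rw [norm_mul, Complex.norm_real]
    exact mul_le_mul (hB x ⟨hx.1.le, hx.2⟩) (sqr_kern hr u hx.1.le) (norm_nonneg _) hB0
  rw [h0, mul_zero, sub_zero]
  refine (norm_sub_le _ _).trans ((add_le_add h1 h2).trans (le_of_eq ?_))
  norm_num; ring

theorem im_sqrt : ∃ C : ℝ, 0 < C ∧ ∀ (N : ℕ) (s : ℝ) (m : ℤ), 1 ≤ N → m ≠ 0 →
    ‖Im N s m‖ ≤ C * √(N : ℝ) / √|(m : ℝ)| := by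
  obtain ⟨C, hC, H⟩ := sqr_int
  refine ⟨C, hC, fun N s m hN hm => ?_⟩
  have hN1 : (1 : ℝ) ≤ N := by exact_mod_cast hN
  have hm1 : (1 : ℝ) ≤ |(m : ℝ)| := by exact_mod_cast Int.one_le_abs hm
  have hπ := Real.pi_gt_three
  have hmN : 1 ≤ |(m : ℝ)| * N := by nlinarith only [hN1, hm1]
  have h1 : |(m : ℝ)| * N ≤ 2 * π * (|(m : ℝ)| * N) := by nlinarith only [hπ, hmN]
  have hr : 1 ≤ √(2 * π * (|(m : ℝ)| * N)) := Real.one_le_sqrt.2 (by linarith only [hmN, h1])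
  have key : ‖∫ z in (-1 : ℝ)..1, ((wt (exp z) * exp z : ℝ) : ℂ) * ei (s * z) *
      e (-(m * N * exp z))‖ ≤ C / √(2 * π * (|(m : ℝ)| * N)) := by
    rcases abs_cases (m : ℝ) with h | h
    · refine le_trans (le_of_eq ?_) (H _ s hr)
      congr 1
      refine intervalIntegral.integral_congr fun z _ => ?_
      simp only [e]
      rw [Real.sq_sqrt (by linarith only [hmN, h1]), h.1, mul_assoc, ← ei_add]
      congr 2; ring
    · refine le_trans (le_of_eq ?_) (H _ (-s) hr)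
      rw [← Complex.norm_conj, ← intervalIntegral.intervalIntegral_conj]
      congr 1
      refine intervalIntegral.integral_congr fun z _ => ?_
      simp only [e, map_mul, conj_ei, Complex.conj_ofReal]
      rw [Real.sq_sqrt (by linarith only [hmN, h1]), h.1, mul_assoc, ← ei_add]
      congr 2; ring
  rw [Im, norm_mul, norm_mul, norm_ei, mul_one, Complex.norm_natCast]
  have h2 : 0 < √|(m : ℝ)| := Real.sqrt_pos.2 (by linarith only [hm1])
  have h3 : 0 < √(N : ℝ) := Real.sqrt_pos.2 (by linarith only [hN1])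
  calc _ ≤ N * (C / √(|(m : ℝ)| * N)) := by
        refine mul_le_mul_of_nonneg_left (key.trans ?_) (by linarith only [hN1])
        gcongr
    _ = _ := by
        rw [Real.sqrt_mul (abs_nonneg _)]
        nth_rewrite 1 [← Real.mul_self_sqrt (by linarith only [hN1] : (0 : ℝ) ≤ N)]
        field_simp

end

section

lemma hm_sum (K : ℕ) : ∑ m ∈ Icc (-(K : ℤ)) K, 1 / √|(m : ℝ)| ≤ 4 * √(K : ℝ) := by
  induction K with
  | zero => simp
  | succ K ih =>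
    have e1 : Icc (-((K + 1 : ℕ) : ℤ)) ((K + 1 : ℕ) : ℤ) =
        insert (-((K : ℤ) + 1)) (insert ((K : ℤ) + 1) (Icc (-(K : ℤ)) K)) := by
      ext m
      simp only [mem_Icc, mem_insert]
      omega
    rw [e1, sum_insert (by simp only [mem_Icc, mem_insert]; omega),
      sum_insert (by simp only [mem_Icc]; omega)]
    have hK : (0 : ℝ) ≤ K := Nat.cast_nonneg K
    push_cast
    rw [abs_neg, abs_of_nonneg (by linarith only [] : (0 : ℝ) ≤ K + 1)]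
    have h1 : 0 < √((K : ℝ) + 1) := sqrt_pos.2 (by linarith only [])
    have h2 := sq_sqrt (by linarith only [] : (0 : ℝ) ≤ K + 1)
    have h3 := sq_sqrt hK
    have h4 : 1 / √((K : ℝ) + 1) ≤ 2 * (√((K : ℝ) + 1) - √(K : ℝ)) := by
      rw [div_le_iff₀ h1]
      linarith only [sq_nonneg (√((K : ℝ) + 1) - √(K : ℝ)), h2, h3]
    linarith

theorem gs_le (ε : ℝ) (hε : 0 < ε) : ∃ C : ℝ, 0 < C ∧ ∀ (N T : ℕ) (s : ℝ), 1 ≤ N → 1 ≤ T →
    T ≤ N ^ 2 → |s| ≤ T → ‖Gs N s - Im N s 0‖ ≤ C * (N : ℝ) ^ ε * √T := by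
  obtain ⟨η, η0, η1, ηε⟩ : ∃ η : ℝ, 0 < η ∧ η ≤ 1 ∧ η ≤ ε :=
    ⟨min ε 1, lt_min hε one_pos, min_le_right _ _, min_le_left _ _⟩
  obtain ⟨A, A2, hA⟩ : ∃ A : ℕ, 2 ≤ A ∧ 3 ≤ η * A := by
    refine ⟨⌈3 / η⌉₊ + 2, by omega, ?_⟩
    have h := Nat.le_ceil (3 / η)
    rw [div_le_iff₀ η0] at h
    push_cast
    linarith only [η0, h]
  obtain ⟨C₁, hC₁, H₁⟩ := poisson A A2
  obtain ⟨C₂, hC₂, H₂⟩ := im_sqrt
  refine ⟨2 * 2 ^ A * C₁ + 4 * C₂, by positivity, fun N T s hN hT hTN hs => ?_⟩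
  have N1 : (1 : ℝ) ≤ N := by exact_mod_cast hN
  have N0 : (0 : ℝ) < N := by linarith only [N1]
  have T1 : (1 : ℝ) ≤ T := by exact_mod_cast hT
  have TN : (T : ℝ) ≤ N ^ 2 := by exact_mod_cast hTN
  have u1 : 1 ≤ (N : ℝ) ^ η := one_le_rpow N1 η0.le
  have u2 : (N : ℝ) ^ η ≤ N := by simpa using rpow_le_rpow_of_exponent_le N1 η1
  have u3 : (N : ℝ) ^ η ≤ (N : ℝ) ^ ε := rpow_le_rpow_of_exponent_le N1 ηε
  have u4 : (N : ℝ) ^ 3 ≤ ((N : ℝ) ^ η) ^ A := by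
    rw [← rpow_mul_natCast N0.le, ← rpow_natCast]
    exact rpow_le_rpow_of_exponent_le N1 (by simpa only [Nat.cast_ofNat] using hA)
  generalize (N : ℝ) ^ η = u at u1 u2 u3 u4
  have hY : 0 < u * T / N := by positivity
  obtain ⟨K, K1, K2⟩ : ∃ K : ℕ, (K : ℝ) ≤ u * T / N ∧ u * T / N ≤ K + 1 :=
    ⟨⌊u * T / N⌋₊, Nat.floor_le hY.le, (Nat.lt_floor_add_one _).le⟩
  rw [le_div_iff₀ N0] at K1
  rw [div_le_iff₀ N0] at K2
  have K0 : (0 : ℝ) ≤ K := Nat.cast_nonneg K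
  have h1 := H₁ N (K + 1) s hN (by omega)
  have e1 : Ioo (-((K + 1 : ℕ) : ℤ)) ((K + 1 : ℕ) : ℤ) = Icc (-(K : ℤ)) K := by
    ext m
    simp only [mem_Icc, mem_Ioo]
    omega
  rw [e1, ← add_sum_erase _ _ (show (0 : ℤ) ∈ Icc (-(K : ℤ)) K by simp only [mem_Icc, Left.neg_nonpos_iff, Nat.cast_nonneg, and_self])] at h1
  have h2 : ‖∑ m ∈ (Icc (-(K : ℤ)) K).erase 0, Im N s m‖ ≤ C₂ * √(N : ℝ) * (4 * √(K : ℝ)) := by
    refine (norm_sum_le _ _).trans ?_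
    refine (sum_le_sum fun m hm => H₂ N s m hN (ne_of_mem_erase hm)).trans ?_
    refine le_trans ?_ (mul_le_mul_of_nonneg_left (hm_sum K) (by positivity))
    rw [mul_sum]
    refine (sum_le_sum_of_subset_of_nonneg (erase_subset _ _) fun m _ _ => by positivity).trans ?_
    exact sum_le_sum fun m _ => le_of_eq (by ring)
  have h3 : √(N : ℝ) * √(K : ℝ) ≤ (N : ℝ) ^ ε * √T := by
    rw [← sqrt_mul N0.le]
    refine le_trans ?_ (mul_le_mul_of_nonneg_right u3 (sqrt_nonneg _))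
    refine sqrt_le_iff.2 ⟨by positivity, ?_⟩
    rw [mul_pow, sq_sqrt (by positivity)]
    have : u * T ≤ u ^ 2 * T := by gcongr; nlinarith only [u1]
    linarith only [K1, this]
  have h4 : (1 + |s|) / (((K + 1 : ℕ) : ℝ) * N) ≤ 2 / u := by
    rw [div_le_div_iff₀ (by positivity) (by positivity)]
    push_cast
    have : (1 + |s|) * u ≤ 2 * T * u := by gcongr; linarith only [hs, T1]
    linarith only [K2, this]
  have h5 : ((K + 1 : ℕ) : ℝ) ≤ 2 * N ^ 2 := by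
    push_cast
    have a1 : u * T ≤ N * N ^ 2 := by gcongr
    have a2 : (K : ℝ) ≤ N ^ 2 := le_of_mul_le_mul_right (by linarith only [K1, a1]) N0
    linarith only [T1, TN, a2]
  have h6 : C₁ * N * ((K + 1 : ℕ) : ℝ) * ((1 + |s|) / (((K + 1 : ℕ) : ℝ) * N)) ^ A ≤
      2 * 2 ^ A * C₁ := by
    calc _ ≤ C₁ * N * (2 * N ^ 2) * (2 / u) ^ A := by gcongr
      _ = 2 * 2 ^ A * C₁ * (N ^ 3 / u ^ A) := by rw [div_pow]; ring
      _ ≤ 2 * 2 ^ A * C₁ * 1 := by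
        gcongr
        exact (div_le_one (by positivity)).2 u4
      _ = _ := mul_one _
  have h7 : 1 ≤ (N : ℝ) ^ ε * √T :=
    one_le_mul_of_one_le_of_one_le (u1.trans u3) (one_le_sqrt.2 T1)
  have h8 : ‖Gs N s - Im N s 0‖ ≤
      ‖Gs N s - (Im N s 0 + ∑ m ∈ (Icc (-(K : ℤ)) K).erase 0, Im N s m)‖ +
        ‖∑ m ∈ (Icc (-(K : ℤ)) K).erase 0, Im N s m‖ := by
    refine le_trans (le_of_eq ?_) (norm_add_le _ _)
    congr 1
    ring
  have h9 := mul_le_mul_of_nonneg_left h7 (show 0 ≤ 2 * 2 ^ A * C₁ by positivity)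
  have h10 := mul_le_mul_of_nonneg_left h3 (show 0 ≤ 4 * C₂ by positivity)
  rw [mul_assoc]
  generalize (N : ℝ) ^ ε * √T = Z at h9 h10
  linarith only [h1, h2, h6, h8, h9, h10]

theorem hm (ε : ℝ) (hε : 0 < ε) : ∃ C : ℝ, 1 ≤ C ∧
    ∀ (N T : ℕ) (W : Finset ℤ) (a : ℕ → ℂ) (V : ℝ), 1 ≤ N → 1 ≤ T → T ≤ N ^ 2 →
      (∀ t ∈ W, 0 ≤ t ∧ t ≤ T) → (∀ n, ‖a n‖ ≤ 1) → 0 < V → (∀ t ∈ W, V ≤ ‖DP N a t‖) →
      C * (N : ℝ) ^ (1 + ε) * √T ≤ V ^ 2 → (#W : ℝ) ≤ C * N ^ 2 / V ^ 2 := by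
  obtain ⟨C₀, hC₀, H₀⟩ := im_zero
  obtain ⟨C₁, hC₁, H₁⟩ := gs_le ε hε
  refine ⟨1 + 2 * C₁ + 10 * C₀, by linarith, fun N T W a V hN hT hTN hW ha V0 hV hC => ?_⟩
  have N0 : (0 : ℝ) < N := by exact_mod_cast hN
  have h := dual0 N hN W a ha (fun s => Im N s 0) (b := C₀ * N) (g := C₁ * (N : ℝ) ^ ε * √T)
    (by positivity) (by positivity) (fun s => H₀ N s) fun t ht t' ht' => H₁ N T _ hN hT hTN (by
      have h1 := hW t ht
      have h2 := hW t' ht'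
      have h3 : |t - t'| ≤ (T : ℤ) := abs_le.2 ⟨by omega, by omega⟩
      exact_mod_cast h3)
  have h1 : (#W : ℝ) * V ^ 2 ≤ ∑ t ∈ W, ‖DP N a t‖ ^ 2 := by
    rw [← nsmul_eq_mul, ← sum_const]
    exact sum_le_sum fun t ht => pow_le_pow_left₀ V0.le (hV t ht) 2
  rw [rpow_add N0, rpow_one] at hC
  rw [div_le_iff₀ N0] at h
  rw [le_div_iff₀ (by positivity)]
  have h2 : 0 ≤ (N : ℝ) * (N : ℝ) ^ ε * √T := by positivity
  have h3 : 2 * C₁ * (N * (N : ℝ) ^ ε * √T) ≤ V ^ 2 := by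
    refine le_trans ?_ hC
    rw [mul_assoc (1 + 2 * C₁ + 10 * C₀)]
    gcongr
    linarith only [hC₀]
  have h4 := mul_le_mul_of_nonneg_left h3 (Nat.cast_nonneg (α := ℝ) #W)
  have h5 : 0 ≤ (1 + 2 * C₁) * (N : ℝ) ^ 2 := by positivity
  linarith only [h, h1, h4, h5]

end

end Pool.Agent.MP_71ac24_nt.H17
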