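import Pool.Agent.MP_71ac24_nt.H17.Defs

attribute [-instance] AddQuantale.instAddLeftMono IdemSemiring.toCanonicallyOrderedAdd
  RKHS.instFunLike NonarchimedeanRing.toIsTopologicalRing NumberField.to_charZero
  continuousSub_of_discreteTopology continuousSub_of_indiscreteTopology Valued.toUniformSpace
  Valued.isTopologicalDivisionRing instCoeTOfCoeDep AddQuantale.instAddRightMono
  AlgHom.instNonUnitalAlgHomClassOfAlgHomClass LinearOrderedCommMonoidWithZero.toPosMulStrictMono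
  instCoeOTCOfCoeOut instCoeHTCOfCoeHeadOfCoeOTC IdemSemiring.toMulLeftMono
  LieAdmissibleRing.toNonUnitalNonAssocRing IsOrderedMonoid.toMulLeftMono
  instCoeHTCTOfCoeTailOfCoeHTC Quantale.instMulRightMono
  NonarchimedeanAddGroup.toIsTopologicalAddGroup TestFunctionClass.toDFunLike instCoeTCOfCoe

/-! Fourier analysis: Bessel, Gallagher, the majorisation and the bilinear lemma. -/

set_option autoImplicit false

namespace Pool.Agent.MP_71ac24_nt.H17

open Finset Real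
open scoped ComplexConjugate
open Pool.Agent.MP_71ac24_nt.H14 (ei Sep ei_add norm_ei ei_zero conj_ei norm_ei_sub continuous_ei)

section


lemma bes_orth {L : ℝ} (hL : 0 < L) (a : ℝ) (k : ℤ) :
    ∫ u in a..(a + L), e (k * u / L) = if k = 0 then (L : ℂ) else 0 := by
  split_ifs with hk
  · subst hk
    simp [e_zero]
  · have hc : (Complex.I * (2 * π * k / L : ℝ) : ℂ) ≠ 0 := by
      refine mul_ne_zero Complex.I_ne_zero (Complex.ofReal_ne_zero.2 ?_)
      have : (k : ℝ) ≠ 0 := by exact_mod_cast hk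
      have := Real.pi_pos
      positivity
    have h1 : ∀ u : ℝ, e (k * u / L) = Complex.exp ((Complex.I * (2 * π * k / L : ℝ)) * u) := fun u => by
      rw [e, ei]; congr 1; push_cast; ring
    simp only [h1]
    rw [integral_exp_mul_complex hc, ← h1, ← h1, show k * (a + L) / L = k * a / L + k by field_simp,
      e_add, e_int, mul_one, sub_self, zero_div]

lemma bes_full {L : ℝ} (hL : 0 < L) (a : ℝ) (S : Finset ℤ) (d : ℤ → ℂ) :
    ∫ u in a..(a + L), ‖∑ s ∈ S, d s * e (s * u / L)‖ ^ 2 = L * ∑ s ∈ S, ‖d s‖ ^ 2 := by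
  apply Complex.ofReal_injective
  rw [← intervalIntegral.integral_ofReal]
  have h1 : ∀ u : ℝ, ((‖∑ s ∈ S, d s * e (s * u / L)‖ ^ 2 : ℝ) : ℂ) =
      ∑ s ∈ S, ∑ r ∈ S, d s * conj (d r) * e (((s - r : ℤ) : ℝ) * u / L) := fun u => by
    rw [← Complex.normSq_eq_norm_sq, ← Complex.mul_conj, map_sum, sum_mul_sum]
    refine sum_congr rfl fun s _ => sum_congr rfl fun r _ => ?_
    rw [map_mul, conj_e, mul_mul_mul_comm, ← e_add]
    congr 2; push_cast; ring
  simp only [h1]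
  rw [intervalIntegral.integral_finsetSum fun s _ => Continuous.intervalIntegrable (by fun_prop) _ _]
  push_cast
  rw [mul_sum]
  refine sum_congr rfl fun s hs => ?_
  rw [intervalIntegral.integral_finsetSum fun s _ => Continuous.intervalIntegrable (by fun_prop) _ _,
    sum_eq_single s]
  · have := bes_orth hL a 0
    simp only [Int.cast_zero, if_true] at this
    rw [intervalIntegral.integral_const_mul, sub_self, this, Complex.mul_conj,
      Complex.normSq_eq_norm_sq]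
    push_cast; ring
  · intro r _ hr
    have := bes_orth hL a (s - r)
    rw [if_neg (sub_ne_zero.2 hr.symm)] at this
    push_cast at this
    rw [intervalIntegral.integral_const_mul, this, mul_zero]
  · exact fun h => absurd hs h

theorem bessel {L c d : ℝ} (hL : 0 < L) (hcd : c ≤ d) (hd : d ≤ c + L) {f : ℝ → ℂ}
    (hf : ContinuousOn f (Set.Icc c d)) (F : Finset ℤ) :
    ∑ l ∈ F, ‖∫ u in c..d, f u * e (-(l * u / L))‖ ^ 2 ≤ L * ∫ u in c..d, ‖f u‖ ^ 2 := by
  set w : ℤ → ℂ := fun l => ∫ u in c..d, f u * e (-(l * u / L)) with hw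
  set g : ℝ → ℂ := fun u => ∑ s ∈ F, w s * e (s * u / L) with hg
  have gc : Continuous g := by rw [hg]; fun_prop
  have hf' : ContinuousOn f (Set.uIcc c d) := by rwa [Set.uIcc_of_le hcd]
  have h1 : ((∑ l ∈ F, ‖w l‖ ^ 2 : ℝ) : ℂ) = ∫ u in c..d, f u * conj (g u) := by
    have : ∀ u, f u * conj (g u) = ∑ s ∈ F, conj (w s) * (f u * e (-(s * u / L))) := fun u => by
      rw [hg]
      simp only [map_sum, map_mul, conj_e, mul_sum]
      exact sum_congr rfl fun s _ => by ring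
    simp only [this]
    rw [intervalIntegral.integral_finsetSum fun s _ => ContinuousOn.intervalIntegrable
      (by fun_prop)]
    push_cast
    refine sum_congr rfl fun s _ => ?_
    rw [intervalIntegral.integral_const_mul, mul_comm, Complex.mul_conj, Complex.normSq_eq_norm_sq]
    push_cast; rfl
  have h2 : ∑ l ∈ F, ‖w l‖ ^ 2 ≤ ∫ u in c..d, (L / 2 * ‖f u‖ ^ 2 + 1 / (2 * L) * ‖g u‖ ^ 2) := by
    have h3 : ∑ l ∈ F, ‖w l‖ ^ 2 = ‖∫ u in c..d, f u * conj (g u)‖ := by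
      rw [← h1, Complex.norm_real, Real.norm_of_nonneg (by positivity)]
    rw [h3]
    refine (intervalIntegral.norm_integral_le_integral_norm hcd).trans ?_
    refine intervalIntegral.integral_mono_on hcd
      (ContinuousOn.intervalIntegrable (hf'.mul (Continuous.continuousOn (by fun_prop))).norm)
      (ContinuousOn.intervalIntegrable ((continuousOn_const.mul (hf'.norm.pow 2)).add
        (Continuous.continuousOn (by fun_prop)))) fun u _ => ?_
    rw [norm_mul, Complex.norm_conj]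
    have : L / 2 * ‖f u‖ ^ 2 + 1 / (2 * L) * ‖g u‖ ^ 2 - ‖f u‖ * ‖g u‖ =
        (L * ‖f u‖ - ‖g u‖) ^ 2 / (2 * L) := by field_simp; ring
    have h4 : 0 ≤ (L * ‖f u‖ - ‖g u‖) ^ 2 / (2 * L) := by positivity
    linarith
  rw [intervalIntegral.integral_add (ContinuousOn.intervalIntegrable (by fun_prop))
    (Continuous.intervalIntegrable (by fun_prop) _ _), intervalIntegral.integral_const_mul,
    intervalIntegral.integral_const_mul] at h2
  have h5 : ∫ u in c..d, ‖g u‖ ^ 2 ≤ L * ∑ l ∈ F, ‖w l‖ ^ 2 := by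
    rw [← bes_full hL c F w]
    exact intervalIntegral.integral_mono_interval le_rfl hcd hd
      (Filter.Eventually.of_forall fun x => by positivity)
      (Continuous.intervalIntegrable (by fun_prop) _ _)
  have h6 : 1 / (2 * L) * ∫ u in c..d, ‖g u‖ ^ 2 ≤ 1 / 2 * ∑ l ∈ F, ‖w l‖ ^ 2 := by
    calc _ ≤ 1 / (2 * L) * (L * ∑ l ∈ F, ‖w l‖ ^ 2) := by gcongr
      _ = _ := by field_simp
  linarith only [h2, h6]

theorem parseval (a : ℝ) (S : Finset ℤ) (d : ℤ → ℂ) :
    ∫ x in a..(a + 2 * π), ‖∑ s ∈ S, d s * ei (s * x)‖ ^ 2 = 2 * π * ∑ s ∈ S, ‖d s‖ ^ 2 := by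
  rw [← bes_full Real.two_pi_pos a S d]
  have : ∀ (s : ℤ) (x : ℝ), e (s * x / (2 * π)) = ei (s * x) := fun s x => by
    rw [e]; congr 1; have := Real.pi_pos; field_simp
  simp only [this]

theorem rho_l2 (W : Finset ℤ) {α β : ℝ} (h1 : α ≤ β) (h2 : β ≤ α + 2 * π) :
    ∫ z in α..β, ‖rho W (-z)‖ ^ 2 ≤ 2 * π * #W := by
  have h3 : ∀ z, ‖rho W (-z)‖ = ‖∑ s ∈ W, (1 : ℂ) * ei (s * z)‖ := fun z => by
    rw [← Complex.norm_conj, rho, map_sum]
    simp only [conj_ei, one_mul, mul_neg, neg_neg]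
  have h4 := parseval α W fun _ => 1
  simp only [norm_one, one_pow, sum_const, nsmul_eq_mul, mul_one] at h4
  simp only [h3]
  rw [← h4]
  exact intervalIntegral.integral_mono_interval le_rfl h1 h2
    (Filter.Eventually.of_forall fun x => by positivity)
    (Continuous.intervalIntegrable (by fun_prop) _ _)

theorem sym (N P : ℕ) (hN : 1 ≤ N) {f H : ℝ → ℝ} (hf : Continuous f) (hH : Continuous H)
    (H0 : ∀ x, 0 ≤ H x) (He : ∀ x, H (-x) = H x) (J : Finset ℤ) (hJ : ∀ j ∈ J, -j ∈ J) :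
    QQ N P f f H J ≤ QQ N P (fun z => f z ^ 2) (fun _ => 1) H J := by
  have N0 : (0 : ℝ) < 1 / (8 * N) := by
    have : (0 : ℝ) < N := by exact_mod_cast hN
    positivity
  set A : ℕ → ℕ → ℤ → ℝ := fun m m' j => ∫ z in (-1 : ℝ)..1, ∫ z' in (-1 : ℝ)..1,
    f z ^ 2 * 1 * H (z - z') * tri (1 / (8 * N)) (m * exp z - m' * exp z' - j) with hA
  have h1 : ∀ (m m' : ℕ) (j : ℤ), ∫ z in (-1 : ℝ)..1, ∫ z' in (-1 : ℝ)..1,
      f z * f z' * H (z - z') * tri (1 / (8 * N)) (m * exp z - m' * exp z' - j) ≤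
      1 / 2 * A m m' j + 1 / 2 * A m' m (-j) := fun m m' j => by
    have h2 : A m' m (-j) = ∫ z in (-1 : ℝ)..1, ∫ z' in (-1 : ℝ)..1,
        f z' ^ 2 * 1 * H (z - z') * tri (1 / (8 * N)) (m * exp z - m' * exp z' - j) := by
      rw [hA]
      simp only
      rw [ii_swap (by fun_prop) (by norm_num) (by norm_num)]
      congr 1; funext z; congr 1; funext z'
      rw [← He, ← tri_neg]
      congr 2
      · congr 1; ring
      · push_cast; ring
    have add : ∀ {u v : ℝ → ℝ → ℝ}, Continuous u.uncurry → Continuous v.uncurry →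
        ∫ z in (-1 : ℝ)..1, ∫ z' in (-1 : ℝ)..1, (1 / 2 * u z z' + 1 / 2 * v z z') =
        1 / 2 * (∫ z in (-1 : ℝ)..1, ∫ z' in (-1 : ℝ)..1, u z z') +
          1 / 2 * ∫ z in (-1 : ℝ)..1, ∫ z' in (-1 : ℝ)..1, v z z' := fun {u v} hu hv => by
      have : ∀ z, ∫ z' in (-1 : ℝ)..1, (1 / 2 * u z z' + 1 / 2 * v z z') =
          1 / 2 * (∫ z' in (-1 : ℝ)..1, u z z') + 1 / 2 * ∫ z' in (-1 : ℝ)..1, v z z' := fun z => by
        rw [intervalIntegral.integral_add
          (((hu.uncurry_left z).intervalIntegrable _ _).const_mul _)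
          (((hv.uncurry_left z).intervalIntegrable _ _).const_mul _),
          intervalIntegral.integral_const_mul, intervalIntegral.integral_const_mul]
      simp only [this]
      rw [intervalIntegral.integral_add (((ii_cont hu _ _).intervalIntegrable _ _).const_mul _)
        (((ii_cont hv _ _).intervalIntegrable _ _).const_mul _),
        intervalIntegral.integral_const_mul, intervalIntegral.integral_const_mul]
    rw [h2, hA]
    simp only
    rw [← add (by fun_prop) (by fun_prop)]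
    refine ii_mono (by fun_prop) (by fun_prop) (by norm_num) (by norm_num) fun z _ z' _ => ?_
    have h3 := mul_nonneg (H0 (z - z')) (tri_nonneg N0 (m * exp z - m' * exp z' - j))
    linarith only [mul_nonneg h3 (sq_nonneg (f z - f z'))]
  have h4 : ∑ m ∈ Ico P (2 * P), ∑ m' ∈ Ico P (2 * P), ∑ j ∈ J, A m' m (-j) =
      ∑ m ∈ Ico P (2 * P), ∑ m' ∈ Ico P (2 * P), ∑ j ∈ J, A m m' j := by
    rw [sum_comm]
    refine sum_congr rfl fun m _ => sum_congr rfl fun m' _ => ?_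
    exact sum_bij' (fun j _ => -j) (fun j _ => -j) hJ hJ (by simp) (by simp) fun j _ => rfl
  calc QQ N P f f H J ≤ ∑ m ∈ Ico P (2 * P), ∑ m' ∈ Ico P (2 * P), ∑ j ∈ J,
        (1 / 2 * A m m' j + 1 / 2 * A m' m (-j)) :=
        sum_le_sum fun m _ => sum_le_sum fun m' _ => sum_le_sum fun j _ => h1 m m' j
    _ = ∑ m ∈ Ico P (2 * P), ∑ m' ∈ Ico P (2 * P), ∑ j ∈ J, A m m' j := by
        simp only [sum_add_distrib, ← mul_sum]
        rw [h4]; ring
    _ = _ := rfl

end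

section


/-! ### block MAJ -/

theorem maj_bes {f : ℝ → ℂ} (hf : Continuous f) (W : Finset ℤ) :
    ∑ t ∈ W, ‖∫ u in (-2 : ℝ)..2, f u * ei (t * u)‖ ^ 2 ≤ 2 * π * ∫ u in (-2 : ℝ)..2, ‖f u‖ ^ 2 := by
  have h := bessel (L := 2 * π) (c := -2) (d := 2) (by positivity) (by norm_num)
    (by linarith [two_le_pi]) hf.continuousOn (W.image fun t => -t)
  rw [sum_image fun x _ y _ h => neg_injective h] at h
  refine le_trans (le_of_eq (sum_congr rfl fun t _ => ?_)) h
  congr 3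
  funext u
  rw [e]
  congr 2
  push_cast
  field_simp

theorem maj_shift {E : Type} [NormedAddCommGroup E] [NormedSpace ℝ E] {δ x : ℝ} (h : 0 < δ)
    (h4 : δ ≤ 1 / 4) (h1 : -1 ≤ x) (h2 : x ≤ 7 / 4) {g : ℝ → E} (h0 : ∀ v, δ ≤ |v| → g v = 0) :
    ∫ u in (-2 : ℝ)..2, g (u - x) = ∫ v in (-δ)..δ, g v := by
  rw [int_supp (c := x - δ) (d := x + δ) (by linarith) (by linarith only [h]) (by linarith),
    intervalIntegral.integral_comp_sub_right g]
  · congr 1 <;> ring
  · intro u hu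
    refine h0 _ ?_
    rcases hu with hu | hu
    · exact le_abs.2 (Or.inr (by linarith only [hu]))
    · exact le_abs.2 (Or.inl (by linarith only [hu]))

theorem maj_hat {δ t : ℝ} (h : 0 < δ) (ht : |t| * δ ≤ 1 / 4) :
    1 / 2 ≤ ‖∫ v in (-δ)..δ, ((tri δ v : ℝ) : ℂ) * ei (t * v)‖ := by
  have e1 : (∫ v in (-δ)..δ, ((tri δ v : ℝ) : ℂ) * ei (t * v)) - 1 =
      ∫ v in (-δ)..δ, ((tri δ v : ℝ) : ℂ) * (ei (t * v) - ei 0) := by
    simp only [mul_sub, ei_zero, mul_one]
    rw [intervalIntegral.integral_sub (Continuous.intervalIntegrable (by fun_prop) _ _)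
      (Continuous.intervalIntegrable (by fun_prop) _ _), intervalIntegral.integral_ofReal,
      tri_mass h, Complex.ofReal_one]
  have e2 : ‖∫ v in (-δ)..δ, ((tri δ v : ℝ) : ℂ) * (ei (t * v) - ei 0)‖ ≤
      ∫ v in (-δ)..δ, tri δ v * (1 / 4) := by
    refine (intervalIntegral.norm_integral_le_integral_norm (by linarith only [h])).trans
      (intervalIntegral.integral_mono_on (by linarith only [h])
        (Continuous.intervalIntegrable (by fun_prop) _ _)
        (Continuous.intervalIntegrable (by fun_prop) _ _) fun v hv => ?_)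
    rw [norm_mul, Complex.norm_real, Real.norm_of_nonneg (tri_nonneg h v)]
    refine mul_le_mul_of_nonneg_left ((norm_ei_sub _ _).trans ?_) (tri_nonneg h v)
    rw [sub_zero, abs_mul]
    exact (mul_le_mul_of_nonneg_left (abs_le.2 hv) (abs_nonneg t)).trans ht
  rw [intervalIntegral.integral_mul_const, tri_mass h, ← e1] at e2
  have e3 := norm_sub_norm_le (1 : ℂ) (∫ v in (-δ)..δ, ((tri δ v : ℝ) : ℂ) * ei (t * v))
  rw [norm_one, norm_sub_rev] at e3
  linarith

theorem maj_phase {N n : ℕ} (hN : 1 ≤ N) (hn : n ∈ Ioc N (2 * N)) {z : ℝ}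
    (hz : z ∈ Set.Icc (-1 : ℝ) 1) :
    -1 ≤ z + Real.log n - Real.log N ∧ z + Real.log n - Real.log N ≤ 7 / 4 := by
  have N0 : (0 : ℝ) < N := by exact_mod_cast hN
  obtain ⟨h1, h2⟩ := mem_Ioc.1 hn
  have h3 : (N : ℝ) ≤ n := by exact_mod_cast h1.le
  have h4 : (n : ℝ) ≤ 2 * N := by exact_mod_cast h2
  have h5 := Real.log_le_log N0 h3
  have h6 := Real.log_le_log (N0.trans_le h3) h4
  rw [Real.log_mul two_ne_zero N0.ne'] at h6
  have h7 := Real.log_two_lt_d9
  constructor <;> linarith only [hz.1, hz.2, h5, h6, h7]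

theorem maj_sq {g : ℝ → ℝ → ℝ} (hg : Continuous g.uncurry) :
    ∫ u in (-2 : ℝ)..2, (∫ z in (-1 : ℝ)..1, g u z) ^ 2 =
      ∫ z in (-1 : ℝ)..1, ∫ z' in (-1 : ℝ)..1, ∫ u in (-2 : ℝ)..2, g u z * g u z' := by
  have c1 := ii_cont hg (-1) 1
  have e1 : ∀ u, (∫ z in (-1 : ℝ)..1, g u z) ^ 2 =
      ∫ z in (-1 : ℝ)..1, g u z * ∫ z' in (-1 : ℝ)..1, g u z' := fun u => by
    rw [intervalIntegral.integral_mul_const, sq]
  simp only [e1]
  rw [ii_swap (f := fun u z => g u z * ∫ z' in (-1 : ℝ)..1, g u z')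
    (hg.mul (c1.comp continuous_fst)) (by norm_num) (by norm_num)]
  refine intervalIntegral.integral_congr fun z _ => ?_
  simp only [← intervalIntegral.integral_const_mul]
  exact ii_swap (f := fun u z' => g u z * g u z')
    (((hg.uncurry_right z).comp continuous_fst).mul hg) (by norm_num) (by norm_num)

theorem maj : ∃ C : ℝ, 0 < C ∧ ∀ (N T : ℕ) (W : Finset ℤ) (a : ℕ → ℂ) (V : ℝ), 1 ≤ N → 1 ≤ T →
    (∀ t ∈ W, 0 ≤ t ∧ t ≤ T) → (∀ n, ‖a n‖ ≤ 1) → 0 < V → (∀ t ∈ W, V ≤ ‖DP N a t‖) →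
    ∀ F : ℝ → ℂ, Continuous F →
      ∑ t ∈ W, ‖∫ z in (-1 : ℝ)..1, F z * ei (t * z)‖ ^ 2 ≤
        C / V ^ 2 * ∫ z in (-1 : ℝ)..1, ∫ z' in (-1 : ℝ)..1,
          ‖F z‖ * ‖F z'‖ * nu T (allp N) (z - z') := by
  refine ⟨64 * π, by positivity, fun N T W a V hN hT hW ha V0 hV F hF => ?_⟩
  have T1 : (1 : ℝ) ≤ T := by exact_mod_cast hT
  obtain ⟨δ, hδ⟩ : ∃ δ : ℝ, δ = 1 / (4 * T) := ⟨_, rfl⟩
  have d0 : 0 < δ := by rw [hδ]; positivity
  have dT : T * δ = 1 / 4 := by rw [hδ]; field_simp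
  have d4 : δ ≤ 1 / 4 := dT ▸ le_mul_of_one_le_left d0.le T1
  have d5 : 4 * δ = 1 / T := by rw [hδ]; field_simp
  obtain ⟨G, hG⟩ : ∃ G : ℝ → ℝ → ℂ, G = fun u z => F z * ∑ n ∈ Ioc N (2 * N),
    a n * ((tri δ (u - (z + Real.log n - Real.log N)) : ℝ) : ℂ) := ⟨_, rfl⟩
  obtain ⟨g, hg⟩ : ∃ g : ℝ → ℝ → ℝ, g = fun u z => ‖F z‖ * ∑ n ∈ Ioc N (2 * N),
    tri δ (u - (z + Real.log n - Real.log N)) := ⟨_, rfl⟩
  have cG : Continuous G.uncurry := by rw [hG]; unfold Function.uncurry; fun_prop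
  have cg : Continuous g.uncurry := by rw [hg]; unfold Function.uncurry; fun_prop
  have cA := ii_cont cG (-1) 1
  have cB := ii_cont cg (-1) 1
  have s1 : ∀ t ∈ W, V ^ 2 / 4 * ‖∫ z in (-1 : ℝ)..1, F z * ei (t * z)‖ ^ 2 ≤
      ‖∫ u in (-2 : ℝ)..2, (∫ z in (-1 : ℝ)..1, G u z) * ei (t * u)‖ ^ 2 := fun t ht => by
    have e1 : ∫ u in (-2 : ℝ)..2, (∫ z in (-1 : ℝ)..1, G u z) * ei (t * u) =
        (∫ v in (-δ)..δ, ((tri δ v : ℝ) : ℂ) * ei (t * v)) * ei (-(t * Real.log N)) * DP N a t *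
          ∫ z in (-1 : ℝ)..1, F z * ei (t * z) := by
      have e0 : ∫ u in (-2 : ℝ)..2, (∫ z in (-1 : ℝ)..1, G u z) * ei (t * u) =
          ∫ u in (-2 : ℝ)..2, ∫ z in (-1 : ℝ)..1, G u z * ei (t * u) :=
        intervalIntegral.integral_congr fun u _ => (intervalIntegral.integral_mul_const _ _).symm
      rw [e0, ii_swap (f := fun u z => G u z * ei (t * u)) (cG.mul (by fun_prop)) (by norm_num)
        (by norm_num), ← intervalIntegral.integral_const_mul]
      refine intervalIntegral.integral_congr fun z hz => ?_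
      rw [Set.uIcc_of_le (by norm_num)] at hz
      have e2 : ∀ n ∈ Ioc N (2 * N), ∫ u in (-2 : ℝ)..2, F z * (a n *
          ((tri δ (u - (z + Real.log n - Real.log N)) : ℝ) : ℂ)) * ei (t * u) =
          (∫ v in (-δ)..δ, ((tri δ v : ℝ) : ℂ) * ei (t * v)) * ei (-(t * Real.log N)) *
            (a n * ei (t * Real.log n)) * (F z * ei (t * z)) := fun n hn => by
        have e3 := maj_shift d0 d4 (maj_phase hN hn hz).1 (maj_phase hN hn hz).2
          (g := fun v => ((tri δ v : ℝ) : ℂ) * ei (t * v)) fun v hv => by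
            rw [tri_zero d0 hv, Complex.ofReal_zero, zero_mul]
        rw [← e3, mul_assoc, mul_assoc, ← intervalIntegral.integral_mul_const]
        refine intervalIntegral.integral_congr fun u _ => ?_
        have e4 : ei (t * u) = ei (t * (u - (z + Real.log n - Real.log N))) *
            (ei (-(t * Real.log N)) * (ei (t * Real.log n) * ei (t * z))) := by
          rw [← ei_add, ← ei_add, ← ei_add]
          congr 1
          ring
        rw [e4]
        ring
      simp only [hG, DP, mul_sum, sum_mul]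
      rw [intervalIntegral.integral_finsetSum fun n _ =>
        Continuous.intervalIntegrable (by fun_prop) _ _]
      exact sum_congr rfl e2
    have e5 : |(t : ℝ)| * δ ≤ 1 / 4 := by
      have h1 : (0 : ℝ) ≤ t := by exact_mod_cast (hW t ht).1
      have h2 : (t : ℝ) ≤ T := by exact_mod_cast (hW t ht).2
      rw [abs_of_nonneg h1, ← dT]
      exact mul_le_mul_of_nonneg_right h2 d0.le
    have e6 := maj_hat d0 e5
    have e7 := hV t ht
    rw [e1, norm_mul, norm_mul, norm_mul, norm_ei, mul_one, mul_pow,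
      show V ^ 2 / 4 = (1 / 2 * V) ^ 2 by ring]
    gcongr
  have s2 := maj_bes cA W
  have s3 : ∫ u in (-2 : ℝ)..2, ‖∫ z in (-1 : ℝ)..1, G u z‖ ^ 2 ≤
      ∫ u in (-2 : ℝ)..2, (∫ z in (-1 : ℝ)..1, g u z) ^ 2 := by
    refine intervalIntegral.integral_mono_on (by norm_num)
      ((cA.norm.pow 2).intervalIntegrable _ _) ((cB.pow 2).intervalIntegrable _ _) fun u _ => ?_
    refine pow_le_pow_left₀ (norm_nonneg _)
      ((intervalIntegral.norm_integral_le_integral_norm (by norm_num)).trans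
        (intervalIntegral.integral_mono_on (by norm_num)
          ((cG.uncurry_left u).norm.intervalIntegrable _ _)
          ((cg.uncurry_left u).intervalIntegrable _ _) fun z _ => ?_)) 2
    simp only [hG, hg, norm_mul]
    refine mul_le_mul_of_nonneg_left ((norm_sum_le _ _).trans (sum_le_sum fun n _ => ?_))
      (norm_nonneg _)
    rw [norm_mul, Complex.norm_real, Real.norm_of_nonneg (tri_nonneg d0 _)]
    exact mul_le_of_le_one_left (tri_nonneg d0 _) (ha n)
  have c3 : Continuous (Function.uncurry fun z z' => ∫ u in (-2 : ℝ)..2, g u z * g u z') :=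
    intervalIntegral.continuous_parametric_intervalIntegral_of_continuous'
      (f := fun (p : ℝ × ℝ) u => g u p.1 * g u p.2) (by
      have h1 := cg.comp (show Continuous fun q : (ℝ × ℝ) × ℝ => (q.2, q.1.1) by fun_prop)
      have h2 := cg.comp (show Continuous fun q : (ℝ × ℝ) × ℝ => (q.2, q.1.2) by fun_prop)
      exact h1.mul h2) _ _
  have s4 : ∫ z in (-1 : ℝ)..1, ∫ z' in (-1 : ℝ)..1, ∫ u in (-2 : ℝ)..2, g u z * g u z' ≤
      ∫ z in (-1 : ℝ)..1, ∫ z' in (-1 : ℝ)..1, 8 * (‖F z‖ * ‖F z'‖ * nu T (allp N) (z - z')) := by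
    refine ii_mono c3 (by unfold Function.uncurry; fun_prop) (by norm_num) (by norm_num)
      fun z _ z' hz' => ?_
    have e1 : ∀ u, g u z * g u z' = ‖F z‖ * ‖F z'‖ * ∑ p ∈ allp N,
        tri δ (u - (z' + Real.log p.2 - Real.log N)) * tri δ (u - (z' + Real.log p.2 - Real.log N) -
          (z - z' + Real.log p.1 - Real.log p.2)) := fun u => by
      simp only [hg]
      rw [mul_mul_mul_comm, sum_mul_sum, allp, sum_product]
      refine congrArg _ (sum_congr rfl fun n _ => sum_congr rfl fun n' _ => ?_)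
      rw [mul_comm]
      congr 2
      ring
    simp only [e1]
    rw [intervalIntegral.integral_const_mul, intervalIntegral.integral_finsetSum fun p _ =>
      Continuous.intervalIntegrable (by fun_prop) _ _, mul_left_comm, nu, mul_sum _ _ (8 : ℝ)]
    refine mul_le_mul_of_nonneg_left (sum_le_sum fun p hp => ?_) (by positivity)
    have hp2 := (mem_product.1 hp).2
    rw [maj_shift d0 d4 (maj_phase hN hp2 hz').1 (maj_phase hN hp2 hz').2
      (g := fun v => tri δ v * tri δ (v - (z - z' + Real.log p.1 - Real.log p.2))) fun v hv => by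
        rw [tri_zero d0 hv, zero_mul], ← d5]
    exact Kr_le d0 _
  simp only [intervalIntegral.integral_const_mul] at s4
  have s5 := sum_le_sum s1
  rw [← mul_sum] at s5
  rw [maj_sq cg] at s3
  have s6 := s5.trans (s2.trans (mul_le_mul_of_nonneg_left (s3.trans s4) (by positivity)))
  rw [div_mul_eq_mul_div, le_div_iff₀ (by positivity)]
  linarith only [s6]

end

section


/-! ### block GAL -/

lemma gal_hat {δ : ℝ} (hδ : 0 < δ) (l : ℝ) (hl : |l| * δ ≤ 1 / 16) :
    1 / 2 ≤ ‖∫ x in (-δ)..δ, ((tri δ x : ℝ) : ℂ) * e (-(l * x))‖ := by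
  have h1 : ∫ x in (-δ)..δ, ((tri δ x : ℝ) : ℂ) = 1 := by
    rw [intervalIntegral.integral_ofReal, tri_mass hδ]; simp
  have h2 : (1 : ℂ) - ∫ x in (-δ)..δ, ((tri δ x : ℝ) : ℂ) * e (-(l * x)) =
      ∫ x in (-δ)..δ, ((tri δ x : ℝ) : ℂ) * (e 0 - e (-(l * x))) := by
    rw [← h1, ← intervalIntegral.integral_sub (Continuous.intervalIntegrable (by fun_prop) _ _)
      (Continuous.intervalIntegrable (by fun_prop) _ _)]
    congr 1; funext x; rw [e_zero]; ring
  have h3 : ‖∫ x in (-δ)..δ, ((tri δ x : ℝ) : ℂ) * (e 0 - e (-(l * x)))‖ ≤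
      ∫ x in (-δ)..δ, tri δ x * (1 / 2) := by
    refine (intervalIntegral.norm_integral_le_integral_norm (by linarith only [hδ])).trans ?_
    refine intervalIntegral.integral_mono_on (by linarith only [hδ])
      (Continuous.intervalIntegrable (by fun_prop) _ _)
      (Continuous.intervalIntegrable (by fun_prop) _ _) fun x hx => ?_
    rw [norm_mul, Complex.norm_real, Real.norm_of_nonneg (tri_nonneg hδ x)]
    refine mul_le_mul_of_nonneg_left ?_ (tri_nonneg hδ x)
    refine (norm_ei_sub _ _).trans ?_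
    have h4 : |x| ≤ δ := abs_le.2 hx
    have h5 : |l| * |x| ≤ 1 / 16 := (mul_le_mul_of_nonneg_left h4 (abs_nonneg l)).trans hl
    have h6 : |2 * π * 0 - 2 * π * -(l * x)| = 2 * π * (|l| * |x|) := by
      rw [show 2 * π * 0 - 2 * π * -(l * x) = 2 * π * (l * x) by ring, abs_mul, abs_mul l,
        abs_of_pos (by positivity)]
    rw [h6]
    nlinarith only [Real.pi_lt_four, Real.pi_pos, h5]
  rw [intervalIntegral.integral_mul_const, tri_mass hδ, ← h2] at h3
  have h7 := norm_sub_norm_le (1 : ℂ) (∫ x in (-δ)..δ, ((tri δ x : ℝ) : ℂ) * e (-(l * x)))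
  rw [norm_one] at h7
  linarith

lemma gal_one {δ y : ℝ} (hδ : 0 < δ) (n : ℕ) (h1 : δ ≤ y) (h2 : y + δ ≤ n) (l : ℤ) :
    ∑ i ∈ range n, ∫ u in (0 : ℝ)..1, ((tri δ (u + i - y) : ℝ) : ℂ) * e (-(l * u)) =
      (∫ x in (-δ)..δ, ((tri δ x : ℝ) : ℂ) * e (-(l * x))) * e (-(l * y)) := by
  have h3 : ∀ i : ℕ, ∫ u in (0 : ℝ)..1, ((tri δ (u + i - y) : ℝ) : ℂ) * e (-(l * u)) =
      ∫ u in ((i : ℕ) : ℝ)..((i + 1 : ℕ) : ℝ), ((tri δ (u - y) : ℝ) : ℂ) * e (-(l * u)) := by
    intro i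
    have := intervalIntegral.integral_comp_add_right (a := 0) (b := 1)
      (fun u => ((tri δ (u - y) : ℝ) : ℂ) * e (-(l * u))) (i : ℝ)
    rw [zero_add, add_comm (1 : ℝ)] at this
    rw [Nat.cast_succ, ← this]
    congr 1; funext u
    rw [show -(l * (u + i) : ℝ) = -(l * u) + ((-(l * i) : ℤ) : ℝ) by push_cast; ring, e_add, e_int,
      mul_one]
  simp only [h3]
  rw [intervalIntegral.sum_integral_adjacent_intervals (a := fun i : ℕ => (i : ℝ))
    fun k _ => Continuous.intervalIntegrable (by fun_prop) _ _]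
  rw [int_supp (c := -δ + y) (d := δ + y) (by simp; linarith) (by linarith) (by linarith),
    ← intervalIntegral.integral_comp_add_right
      (fun u => ((tri δ (u - y) : ℝ) : ℂ) * e (-(l * u))) y, ← intervalIntegral.integral_mul_const]
  · congr 1; funext x
    rw [add_sub_cancel_right, mul_assoc, ← e_add]; congr 2; ring
  · intro x hx
    rw [tri_zero hδ, Complex.ofReal_zero, zero_mul]
    rcases hx with hx | hx
    · exact le_abs.2 (Or.inr (by linarith))
    · exact le_abs.2 (Or.inl (by linarith))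

lemma gal_kp (N P : ℕ) (hN : 1 ≤ N) (hP : 1 ≤ P) (l : ℤ) {z : ℝ} (hz : z ∈ Set.Icc (-1 : ℝ) 1) :
    ∫ u in (0 : ℝ)..1, ((kp N P u z : ℝ) : ℂ) * e (-(l * u)) =
      (∫ x in (-(1 / (32 * N)) : ℝ)..(1 / (32 * N)), ((tri (1 / (32 * N)) x : ℝ) : ℂ) *
        e (-(l * x))) * ∑ m ∈ Ico P (2 * P), e (-(m * l * exp z)) := by
  have N1 : (1 : ℝ) ≤ N := by exact_mod_cast hN
  have P1 : (1 : ℝ) ≤ P := by exact_mod_cast hP
  have hδ : (0 : ℝ) < 1 / (32 * N) := by positivity
  have hδ1 : (1 : ℝ) / (32 * N) ≤ 1 / 32 := one_div_le_one_div_of_le (by norm_num) (by linarith only [N1])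
  have e1 : exp z ≤ 3 := (exp_le_exp.2 hz.2).trans (by linarith only [Real.exp_one_lt_d9])
  have e2 : 1 / 3 ≤ exp z := by
    have : exp (-z) ≤ 3 := (exp_le_exp.2 (by linarith only [hz.1])).trans
      (by linarith only [Real.exp_one_lt_d9] : exp 1 ≤ 3)
    have h := exp_pos z
    rw [exp_neg, inv_le_comm₀ h (by norm_num)] at this
    linarith only [this]
  simp only [kp, k0, Complex.ofReal_sum, sum_mul]
  rw [intervalIntegral.integral_finsetSum fun i _ => Continuous.intervalIntegrable (by fun_prop) _ _]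
  rw [sum_congr rfl fun i _ => intervalIntegral.integral_finsetSum
    fun m _ => Continuous.intervalIntegrable (by fun_prop) _ _]
  rw [sum_comm, mul_sum]
  refine sum_congr rfl fun m hm => ?_
  obtain ⟨m1, m2⟩ := mem_Ico.1 hm
  have m1' : (P : ℝ) ≤ m := by exact_mod_cast m1
  have m2' : (m : ℝ) ≤ 2 * P := by exact_mod_cast m2.le
  rw [gal_one hδ _ (by nlinarith only [P1, hδ1, e2, m1']) (by push_cast; nlinarith only [hδ1, e1, m2'])]
  congr 2; ring

theorem galu (N P : ℕ) (hN : 1 ≤ N) (hP : 1 ≤ P) {F : ℝ → ℂ} (hF : Continuous F) :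
    ∑ l ∈ Icc (-(2 * N : ℤ)) (2 * N),
      ‖∑ m ∈ Ico P (2 * P), ∫ z in (-1 : ℝ)..1, F z * e (-(m * l * exp z))‖ ^ 2 ≤
      4 * ∫ u in (0 : ℝ)..1, ‖∫ z in (-1 : ℝ)..1, F z * ((kp N P u z : ℝ) : ℂ)‖ ^ 2 := by
  have N0 : (0 : ℝ) < N := by exact_mod_cast hN
  have hk : Continuous fun p : ℝ × ℝ => kp N P p.1 p.2 := by unfold kp k0; fun_prop
  have hA : Continuous fun u => ∫ z in (-1 : ℝ)..1, F z * ((kp N P u z : ℝ) : ℂ) :=
    ii_cont (f := fun u z => F z * ((kp N P u z : ℝ) : ℂ))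
      ((hF.comp continuous_snd).mul (Complex.continuous_ofReal.comp hk)) _ _
  have hb := bessel (L := 1) (c := 0) (d := 1) one_pos zero_le_one (by norm_num) hA.continuousOn
    (Icc (-(2 * N : ℤ)) (2 * N))
  rw [one_mul] at hb
  refine le_trans ?_ (mul_le_mul_of_nonneg_left hb (by norm_num))
  rw [mul_sum]
  refine sum_le_sum fun l hl => ?_
  have key : ∫ u in (0 : ℝ)..1, (∫ z in (-1 : ℝ)..1, F z * ((kp N P u z : ℝ) : ℂ)) *
      e (-(l * u / 1)) = (∫ x in (-(1 / (32 * N)) : ℝ)..(1 / (32 * N)),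
        ((tri (1 / (32 * N)) x : ℝ) : ℂ) * e (-(l * x))) *
          ∑ m ∈ Ico P (2 * P), ∫ z in (-1 : ℝ)..1, F z * e (-(m * l * exp z)) := by
    rw [intervalIntegral.integral_congr fun u _ => (intervalIntegral.integral_mul_const _ _).symm]
    simp only [div_one]
    rw [ii_swap (f := fun u z => F z * ((kp N P u z : ℝ) : ℂ) * e (-(l * u)))
      (((hF.comp continuous_snd).mul (Complex.continuous_ofReal.comp hk)).mul (by fun_prop))
      zero_le_one (by norm_num),
      ← intervalIntegral.integral_finsetSum fun i _ =>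
        Continuous.intervalIntegrable (by fun_prop) _ _, ← intervalIntegral.integral_const_mul]
    refine intervalIntegral.integral_congr fun z hz => ?_
    rw [Set.uIcc_of_le (by norm_num)] at hz
    simp only [mul_assoc (F z)]
    rw [intervalIntegral.integral_const_mul, gal_kp N P hN hP l hz, ← mul_sum]
    ring
  have hl' : |(l : ℝ)| * (1 / (32 * N)) ≤ 1 / 16 := by
    have h1 : |l| ≤ 2 * N := abs_le.2 (mem_Icc.1 hl)
    have h2 : |(l : ℝ)| ≤ 2 * N := by exact_mod_cast h1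
    rw [mul_one_div, div_le_iff₀ (by positivity)]
    linarith only [h2]
  have hh := gal_hat (δ := 1 / (32 * N)) (by positivity) l hl'
  rw [key, norm_mul, mul_pow]
  have h2 : (1 / 2 : ℝ) ^ 2 ≤ _ := pow_le_pow_left₀ (by norm_num) hh 2
  linarith only [mul_le_mul_of_nonneg_right h2 (sq_nonneg
    ‖∑ m ∈ Ico P (2 * P), ∫ z in (-1 : ℝ)..1, F z * e (-(m * l * exp z))‖)]

end

section


/-! ### block KER -/

lemma ker_full {δ x y L : ℝ} (h : 0 < δ) (h1 : δ ≤ y) (h2 : y + δ ≤ L) :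
    ∫ v in (0 : ℝ)..L, tri δ (v - x) * tri δ (v - y) = Kr δ (x - y) := by
  rw [int_supp (c := y - δ) (d := y + δ) (by linarith) (by linarith) h2]
  · have := intervalIntegral.integral_comp_sub_right (a := y - δ) (b := y + δ)
      (fun u => tri δ u * tri δ (u - (x - y))) y
    rw [show y - δ - y = -δ by ring, show y + δ - y = δ by ring] at this
    rw [Kr, ← this]
    refine intervalIntegral.integral_congr fun v _ => ?_
    rw [mul_comm, show v - y - (x - y) = v - x by ring]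
  · intro v hv
    rw [tri_zero h (x := v - y), mul_zero]
    rcases hv with hv | hv
    · exact le_abs.2 (Or.inr (by linarith))
    · exact le_abs.2 (Or.inl (by linarith))

lemma ker_shift {δ x u : ℝ} {K i : ℕ} (h : 0 < δ) (h1 : δ ≤ x) (h2 : x + δ ≤ K) (hu0 : 0 ≤ u)
    (hu1 : u ≤ 1) (hi : i < K) :
    ∑ n ∈ range K, tri δ (u + n - x) = ∑ j ∈ Icc (-(K : ℤ)) K, tri δ (u + i - (x - j)) := by
  symm
  refine sum_bij_ne_zero (fun j _ _ => (i + j).toNat) ?_ ?_ ?_ ?_
  · intro j _ hj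
    have h3 := abs_lt.1 (lt_of_tri_ne h hj)
    have h4 : ((i + j : ℤ) : ℝ) < (K : ℤ) := by push_cast; linarith only [h3.2, h2, hu0]
    have h5 : (i + j : ℤ) < K := by exact_mod_cast h4
    rw [mem_range]; omega
  · intro j _ hj j' _ hj' hh
    have h3 := abs_lt.1 (lt_of_tri_ne h hj)
    have h3' := abs_lt.1 (lt_of_tri_ne h hj')
    have h4 : ((-1 : ℤ) : ℝ) < ((i + j : ℤ) : ℝ) := by push_cast; linarith only [h3.1, h1, hu1]
    have h4' : ((-1 : ℤ) : ℝ) < ((i + j' : ℤ) : ℝ) := by push_cast; linarith only [h3'.1, h1, hu1]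
    have h5 : (-1 : ℤ) < i + j := by exact_mod_cast h4
    have h5' : (-1 : ℤ) < i + j' := by exact_mod_cast h4'
    omega
  · intro n hn hn'
    rw [mem_range] at hn
    refine ⟨(n : ℤ) - i, by rw [mem_Icc]; omega, ?_, by omega⟩
    rwa [show u + i - (x - (((n : ℤ) - i : ℤ) : ℝ)) = u + n - x by push_cast; ring]
  · intro j _ hj
    have h3 := abs_lt.1 (lt_of_tri_ne h hj)
    have h4 : ((-1 : ℤ) : ℝ) < ((i + j : ℤ) : ℝ) := by push_cast; linarith only [h3.1, h1, hu1]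
    have h5 : (-1 : ℤ) < i + j := by exact_mod_cast h4
    have h6 : (((i + j).toNat : ℤ) : ℝ) = ((i + j : ℤ) : ℝ) := by congr 1; omega
    push_cast at h6
    rw [h6]; congr 1; ring

lemma ker_per {δ x y : ℝ} {K : ℕ} (h : 0 < δ) (h1 : δ ≤ x) (h2 : x + δ ≤ K) (h3 : δ ≤ y)
    (h4 : y + δ ≤ K) :
    ∫ u in (0 : ℝ)..1, (∑ n ∈ range K, tri δ (u + n - x)) * ∑ i ∈ range K, tri δ (u + i - y) =
      ∑ j ∈ Icc (-(K : ℤ)) K, Kr δ (x - y - j) := by
  rw [intervalIntegral.integral_congr (g := fun u => ∑ j ∈ Icc (-(K : ℤ)) K, ∑ i ∈ range K,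
      tri δ (u + i - (x - j)) * tri δ (u + i - y)),
    intervalIntegral.integral_finsetSum fun j _ => Continuous.intervalIntegrable (by fun_prop) _ _]
  · refine sum_congr rfl fun j _ => ?_
    rw [intervalIntegral.integral_finsetSum fun i _ =>
      Continuous.intervalIntegrable (by fun_prop) _ _, show x - y - j = x - j - y by ring,
      ← ker_full (x := x - j) h h3 h4]
    have := intervalIntegral.sum_integral_adjacent_intervals (μ := MeasureTheory.volume)
      (f := fun v => tri δ (v - (x - j)) * tri δ (v - y)) (a := fun k : ℕ => (k : ℝ)) (n := K)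
      fun k _ => Continuous.intervalIntegrable (by fun_prop) _ _
    rw [Nat.cast_zero] at this
    rw [← this]
    refine sum_congr rfl fun i _ => ?_
    rw [intervalIntegral.integral_comp_add_right
      (fun v => tri δ (v - (x - j)) * tri δ (v - y)) (i : ℝ)]
    congr 1
    · ring
    · push_cast; ring
  · intro u hu
    rw [Set.uIcc_of_le zero_le_one] at hu
    simp only
    rw [sum_comm, mul_sum]
    refine sum_congr rfl fun i hi => ?_
    rw [ker_shift h h1 h2 hu.1 hu.2 (mem_range.1 hi), sum_mul]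

lemma ker_rng {N P m : ℕ} (hN : 1 ≤ N) (hP : 1 ≤ P) (hm : m ∈ Ico P (2 * P)) {z : ℝ}
    (hz : |z| ≤ 1) : (1 / (32 * N) : ℝ) ≤ m * exp z ∧ m * exp z + 1 / (32 * N) ≤ 6 * P + 1 := by
  rw [mem_Ico] at hm
  have hN' : (1 : ℝ) ≤ N := by exact_mod_cast hN
  have hm1 : (1 : ℝ) ≤ m := by exact_mod_cast hP.trans hm.1
  have hm2 : (m : ℝ) ≤ 2 * P := by exact_mod_cast hm.2.le
  have hδ : (1 / (32 * N) : ℝ) ≤ 1 / 32 := one_div_le_one_div_of_le (by norm_num) (by linarith only [hN'])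
  have he : exp 1 < 3 := exp_one_lt_d9.trans (by norm_num)
  have h1 : exp z ≤ 3 := (exp_le_exp.2 (abs_le.1 hz).2).trans he.le
  have h2 : exp (-z) ≤ 3 := (exp_le_exp.2 (by linarith only [(abs_le.1 hz).1])).trans he.le
  have h3 : exp z * exp (-z) = 1 := by rw [← exp_add]; simp
  have h0 := exp_pos z
  have h4 : 1 / 3 ≤ exp z := by nlinarith only [h2, h3, h0]
  constructor <;> nlinarith only [hm1, hδ, h4, hm2, h1]

theorem ker (N P : ℕ) (hN : 1 ≤ N) (hP : 1 ≤ P) {z z' : ℝ} (hz : |z| ≤ 1) (hz' : |z'| ≤ 1) :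
    ∫ u in (0 : ℝ)..1, kp N P u z * kp N P u z' =
      ∑ m ∈ Ico P (2 * P), ∑ m' ∈ Ico P (2 * P), ∑ j ∈ Jall P,
        Kr (1 / (32 * N)) (m * exp z - m' * exp z' - j) := by
  have hδ : (0 : ℝ) < 1 / (32 * N) := by positivity
  have e1 : ∀ u w : ℝ, kp N P u w = ∑ m ∈ Ico P (2 * P), ∑ i ∈ range (6 * P + 1),
      tri (1 / (32 * N)) (u + i - m * exp w) := fun u w => by
    unfold kp k0; rw [sum_comm]
  simp only [e1, sum_mul_sum (Ico P (2 * P))]
  rw [intervalIntegral.integral_finsetSum fun j _ =>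
    Continuous.intervalIntegrable (by fun_prop) _ _]
  refine sum_congr rfl fun m hm => ?_
  rw [intervalIntegral.integral_finsetSum fun j _ =>
    Continuous.intervalIntegrable (by fun_prop) _ _]
  refine sum_congr rfl fun m' hm' => ?_
  have a1 := ker_rng hN hP hm hz
  have a2 := ker_rng hN hP hm' hz'
  rw [ker_per hδ a1.1 (by push_cast; exact a1.2) a2.1 (by push_cast; exact a2.2), Jall]
  push_cast
  rfl

theorem ker0 (N P : ℕ) (hN : 1 ≤ N) (hP : 1 ≤ P) {z z' : ℝ} (hz : |z| ≤ 1) (hz' : |z'| ≤ 1) :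
    ∫ u in (0 : ℝ)..(6 * P + 1), k0 N P u z * k0 N P u z' =
      ∑ m ∈ Ico P (2 * P), ∑ m' ∈ Ico P (2 * P),
        Kr (1 / (32 * N)) (m * exp z - m' * exp z') := by
  have hδ : (0 : ℝ) < 1 / (32 * N) := by positivity
  have _ := hz
  simp only [k0, sum_mul_sum]
  rw [intervalIntegral.integral_finsetSum fun j _ =>
    Continuous.intervalIntegrable (by fun_prop) _ _]
  refine sum_congr rfl fun m _ => ?_
  rw [intervalIntegral.integral_finsetSum fun j _ =>
    Continuous.intervalIntegrable (by fun_prop) _ _]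
  refine sum_congr rfl fun m' hm' => ?_
  have a2 := ker_rng hN hP hm' hz'
  exact ker_full hδ a2.1 a2.2

end

section


@[fun_prop] lemma g3_kp_cont (N P : ℕ) : Continuous fun p : ℝ × ℝ => kp N P p.1 p.2 := by
  unfold kp k0; fun_prop

lemma g3_kp_nonneg {N : ℕ} (hN : 1 ≤ N) (P : ℕ) (u z : ℝ) : 0 ≤ kp N P u z := by
  have : (0 : ℝ) < N := by exact_mod_cast hN
  exact sum_nonneg fun _ _ => sum_nonneg fun _ _ => tri_nonneg (by positivity) _

/-- a finite sum commutes with an iterated integral of continuous functions -/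
lemma g3_ii_sum {ι : Type} (s : Finset ι) {g : ι → ℝ → ℝ → ℝ}
    (hg : ∀ i, Continuous (g i).uncurry) (a b c d : ℝ) :
    ∑ i ∈ s, ∫ x in a..b, ∫ y in c..d, g i x y = ∫ x in a..b, ∫ y in c..d, ∑ i ∈ s, g i x y := by
  rw [← intervalIntegral.integral_finsetSum fun i _ =>
    (ii_cont (hg i) c d).intervalIntegrable _ _]
  refine intervalIntegral.integral_congr fun x _ => ?_
  exact (intervalIntegral.integral_finsetSum fun i _ =>
    ((hg i).uncurry_left x).intervalIntegrable _ _).symm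

lemma g3_QQ (N P : ℕ) {f f' H : ℝ → ℝ} (hf : Continuous f) (hf' : Continuous f')
    (hH : Continuous H) (J : Finset ℤ) :
    QQ N P f f' H J = ∫ z in (-1 : ℝ)..1, ∫ z' in (-1 : ℝ)..1,
      ∑ m ∈ Ico P (2 * P), ∑ m' ∈ Ico P (2 * P), ∑ j ∈ J,
        f z * f' z' * H (z - z') * tri (1 / (8 * N)) (m * exp z - m' * exp z' - j) := by
  unfold QQ
  rw [← g3_ii_sum _ fun m => by fun_prop]
  refine sum_congr rfl fun m _ => ?_
  rw [← g3_ii_sum _ fun m' => by fun_prop]
  refine sum_congr rfl fun m' _ => ?_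
  rw [← g3_ii_sum _ fun j => by fun_prop]

/-- moving the outer integral inside -/
lemma g3_swap3 {g : ℝ → ℝ → ℝ → ℝ} (hg : Continuous fun p : ℝ × ℝ × ℝ => g p.1 p.2.1 p.2.2)
    {a b c d : ℝ} (hab : a ≤ b) (hcd : c ≤ d) :
    ∫ u in a..b, ∫ z in c..d, ∫ z' in c..d, g u z z' =
      ∫ z in c..d, ∫ z' in c..d, ∫ u in a..b, g u z z' := by
  have h1 : Continuous (fun u z => ∫ z' in c..d, g u z z').uncurry :=
    intervalIntegral.continuous_parametric_intervalIntegral_of_continuous'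
      (f := fun (p : ℝ × ℝ) z' => g p.1 p.2 z')
      (hg.comp (f := fun q : (ℝ × ℝ) × ℝ => (q.1.1, q.1.2, q.2)) (by fun_prop)) _ _
  rw [ii_swap h1 hab hcd]
  refine intervalIntegral.integral_congr fun z _ => ?_
  exact ii_swap (f := fun u z' => g u z z')
    (hg.comp (f := fun q : ℝ × ℝ => (q.1, z, q.2)) (by fun_prop)) hab hcd

lemma g3_step2 (N T P : ℕ) (hN : 1 ≤ N) (hT : 1 ≤ T) (hP : 1 ≤ P) {ψ : ℝ → ℂ} (hψ : Continuous ψ) :
    ∫ u in (0 : ℝ)..1, ∫ z in (-1 : ℝ)..1, ∫ z' in (-1 : ℝ)..1,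
      ‖ψ z * ((kp N P u z : ℝ) : ℂ)‖ * ‖ψ z' * ((kp N P u z' : ℝ) : ℂ)‖ * nu T (allp N) (z - z') ≤
      8 * QQ N P (fun z => ‖ψ z‖) (fun z => ‖ψ z‖) (nu T (allp N)) (Jall P) := by
  have N0 : (0 : ℝ) < N := by exact_mod_cast hN
  rw [g3_swap3 (by fun_prop) zero_le_one (by norm_num), g3_QQ N P hψ.norm hψ.norm (cont_nu _ _),
    ← intervalIntegral.integral_const_mul]
  simp_rw [← intervalIntegral.integral_const_mul]
  refine ii_mono ?_ (by fun_prop) (by norm_num) (by norm_num) fun z hz z' hz' => ?_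
  · exact intervalIntegral.continuous_parametric_intervalIntegral_of_continuous'
      (f := fun (p : ℝ × ℝ) u => ‖ψ p.1 * ((kp N P u p.1 : ℝ) : ℂ)‖ *
        ‖ψ p.2 * ((kp N P u p.2 : ℝ) : ℂ)‖ * nu T (allp N) (p.1 - p.2)) (by fun_prop) _ _
  have hA : 0 ≤ ‖ψ z‖ * ‖ψ z'‖ * nu T (allp N) (z - z') :=
    mul_nonneg (by positivity) (nu_nonneg hT _ _)
  have e1 : ∀ u, ‖ψ z * ((kp N P u z : ℝ) : ℂ)‖ * ‖ψ z' * ((kp N P u z' : ℝ) : ℂ)‖ *
      nu T (allp N) (z - z') =
      ‖ψ z‖ * ‖ψ z'‖ * nu T (allp N) (z - z') * (kp N P u z * kp N P u z') := fun u => by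
    rw [norm_mul, norm_mul, Complex.norm_real, Complex.norm_real,
      Real.norm_of_nonneg (g3_kp_nonneg hN P u z), Real.norm_of_nonneg (g3_kp_nonneg hN P u z')]
    ring
  simp_rw [e1]
  rw [intervalIntegral.integral_const_mul, ker N P hN hP (abs_le.2 hz) (abs_le.2 hz')]
  simp_rw [mul_sum]
  refine sum_le_sum fun m _ => sum_le_sum fun m' _ => sum_le_sum fun j _ => ?_
  have h1 := Kr_le (δ := 1 / (32 * N)) (by positivity) (m * exp z - m' * exp z' - j)
  rw [show 4 * (1 / (32 * (N : ℝ))) = 1 / (8 * N) by field_simp; ring] at h1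
  linarith only [mul_le_mul_of_nonneg_left h1 hA]

theorem g3 : ∃ C : ℝ, 0 < C ∧ ∀ (N T P X : ℕ) (E θ V : ℝ) (W : Finset ℤ) (a : ℕ → ℂ),
    World N T P X E θ V W a → ∀ ψ : ℝ → ℂ, Continuous ψ →
      SS N P W ψ ≤ C / V ^ 2 *
        QQ N P (fun z => ‖ψ z‖) (fun z => ‖ψ z‖) (nu T (allp N)) (Jall P) := by
  obtain ⟨C, hC, hmaj⟩ := maj
  refine ⟨32 * C, by positivity, fun N T P X E θ V W a h ψ hψ => ?_⟩
  have hV := h.V0
  have hc : ∀ t : ℤ, Continuous fun u : ℝ =>
      ‖∫ z in (-1 : ℝ)..1, ψ z * ((kp N P u z : ℝ) : ℂ) * ei (t * z)‖ ^ 2 := fun t =>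
    (ii_cont (f := fun u z => ψ z * ((kp N P u z : ℝ) : ℂ) * ei (t * z)) (by fun_prop) _ _).norm.pow 2
  have h1 : SS N P W ψ ≤ 4 * ∫ u in (0 : ℝ)..1,
      ∑ t ∈ W, ‖∫ z in (-1 : ℝ)..1, ψ z * ((kp N P u z : ℝ) : ℂ) * ei (t * z)‖ ^ 2 := by
    rw [intervalIntegral.integral_finsetSum fun t _ => (hc t).intervalIntegrable _ _, mul_sum]
    refine sum_le_sum fun t _ => ?_
    refine (galu N P h.N1 h.P1 (F := fun z => ψ z * ei (t * z)) (by fun_prop)).trans (le_of_eq ?_)
    simp only [mul_right_comm]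
  have h2 : ∫ u in (0 : ℝ)..1,
      ∑ t ∈ W, ‖∫ z in (-1 : ℝ)..1, ψ z * ((kp N P u z : ℝ) : ℂ) * ei (t * z)‖ ^ 2 ≤
      ∫ u in (0 : ℝ)..1, C / V ^ 2 * ∫ z in (-1 : ℝ)..1, ∫ z' in (-1 : ℝ)..1,
        ‖ψ z * ((kp N P u z : ℝ) : ℂ)‖ * ‖ψ z' * ((kp N P u z' : ℝ) : ℂ)‖ *
          nu T (allp N) (z - z') := by
    refine intervalIntegral.integral_mono_on zero_le_one
      ((continuous_finsetSum _ fun t _ => hc t).intervalIntegrable _ _)
      (Continuous.intervalIntegrable (continuous_const.mul (ii_cont ?_ _ _)) _ _) fun u _ =>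
        hmaj N T W a V h.N1 h.T1 h.hW h.ha h.V0 h.hV (fun z => ψ z * ((kp N P u z : ℝ) : ℂ))
          (by fun_prop)
    exact intervalIntegral.continuous_parametric_intervalIntegral_of_continuous'
      (f := fun (p : ℝ × ℝ) z' => ‖ψ p.2 * ((kp N P p.1 p.2 : ℝ) : ℂ)‖ *
        ‖ψ z' * ((kp N P p.1 z' : ℝ) : ℂ)‖ * nu T (allp N) (p.2 - z')) (by fun_prop) _ _
  rw [intervalIntegral.integral_const_mul] at h2
  have h3 := mul_le_mul_of_nonneg_left (g3_step2 N T P h.N1 h.T1 h.P1 hψ)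
    (show 0 ≤ C / V ^ 2 by positivity)
  calc SS N P W ψ ≤ 4 * (C / V ^ 2 * (8 *
        QQ N P (fun z => ‖ψ z‖) (fun z => ‖ψ z‖) (nu T (allp N)) (Jall P))) := by linarith
    _ = _ := by ring

end

section


lemma g12_k0 (N P : ℕ) : Continuous (k0 N P).uncurry := by
  unfold k0 Function.uncurry; fun_prop

lemma g12_kp (N P : ℕ) : Continuous (kp N P).uncurry := by
  unfold kp k0 Function.uncurry; fun_prop

/-- Fubini for three variables -/
lemma g12_swap {F : Type} [NormedAddCommGroup F] [NormedSpace ℝ F] {f : ℝ → ℝ → ℝ → F}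
    (hf : Continuous fun p : (ℝ × ℝ) × ℝ => f p.1.1 p.1.2 p.2) {a b : ℝ} (hab : a ≤ b) :
    ∫ u in a..b, ∫ z in (-1 : ℝ)..1, ∫ z' in (-1 : ℝ)..1, f u z z' =
      ∫ z in (-1 : ℝ)..1, ∫ z' in (-1 : ℝ)..1, ∫ u in a..b, f u z z' := by
  have h1 : Continuous fun p : ℝ × ℝ => ∫ z' in (-1 : ℝ)..1, f p.1 p.2 z' :=
    intervalIntegral.continuous_parametric_intervalIntegral_of_continuous' hf _ _
  rw [ii_swap (f := fun u z => ∫ z' in (-1 : ℝ)..1, f u z z') h1 hab (by norm_num)]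
  refine intervalIntegral.integral_congr fun z _ => ?_
  exact ii_swap (f := fun u z' => f u z z')
    (hf.comp (f := fun q : ℝ × ℝ => ((q.1, z), q.2)) (by fun_prop)) hab (by norm_num)

/-- a finite sum leaves an iterated integral -/
lemma g12_sum {F ι : Type} [NormedAddCommGroup F] [NormedSpace ℝ F] (S : Finset ι)
    {f : ι → ℝ → ℝ → F} (hf : ∀ i, Continuous (f i).uncurry) :
    ∫ z in (-1 : ℝ)..1, ∫ z' in (-1 : ℝ)..1, ∑ i ∈ S, f i z z' =
      ∑ i ∈ S, ∫ z in (-1 : ℝ)..1, ∫ z' in (-1 : ℝ)..1, f i z z' := by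
  rw [← intervalIntegral.integral_finsetSum fun i _ =>
    (ii_cont (hf i) _ _).intervalIntegrable _ _]
  refine intervalIntegral.integral_congr fun z _ => ?_
  exact intervalIntegral.integral_finsetSum fun i _ =>
    ((hf i).uncurry_left z).intervalIntegrable _ _

lemma g12_sum3 {F : Type} [NormedAddCommGroup F] [NormedSpace ℝ F] (S : Finset ℕ) (J : Finset ℤ)
    {f : ℕ → ℕ → ℤ → ℝ → ℝ → F} (hf : ∀ m m' j, Continuous (f m m' j).uncurry) :
    ∫ z in (-1 : ℝ)..1, ∫ z' in (-1 : ℝ)..1, ∑ m ∈ S, ∑ m' ∈ S, ∑ j ∈ J, f m m' j z z' =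
      ∑ m ∈ S, ∑ m' ∈ S, ∑ j ∈ J, ∫ z in (-1 : ℝ)..1, ∫ z' in (-1 : ℝ)..1, f m m' j z z' := by
  have h1 : ∀ m m', Continuous (fun z z' => ∑ j ∈ J, f m m' j z z').uncurry := fun m m' =>
    continuous_finsetSum J fun j _ => hf m m' j
  rw [g12_sum S (f := fun m z z' => ∑ m' ∈ S, ∑ j ∈ J, f m m' j z z') fun m =>
    continuous_finsetSum S fun m' _ => h1 m m']
  refine sum_congr rfl fun m _ => ?_
  rw [g12_sum S (f := fun m' z z' => ∑ j ∈ J, f m m' j z z') (h1 m)]
  exact sum_congr rfl fun m' _ => g12_sum J (hf m m')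

lemma g12_sq (f : ℝ → ℂ) : (((‖∫ z in (-1 : ℝ)..1, f z‖ ^ 2 : ℝ)) : ℂ) =
    ∫ z in (-1 : ℝ)..1, ∫ z' in (-1 : ℝ)..1, f z * conj (f z') := by
  simp only [intervalIntegral.integral_const_mul, intervalIntegral.integral_mul_const,
    intervalIntegral.intervalIntegral_conj]
  rw [Complex.mul_conj, Complex.normSq_eq_norm_sq]

/-- expansion of the square -/
lemma g12_exp (W : Finset ℤ) {ψ : ℝ → ℂ} (hψ : Continuous ψ) {k : ℝ → ℝ → ℝ}
    (hk : Continuous k.uncurry) {a b : ℝ} (hab : a ≤ b) :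
    ((∫ u in a..b, ∑ t ∈ W, ‖∫ z in (-1 : ℝ)..1, ψ z * ei (t * z) * ((k u z : ℝ) : ℂ)‖ ^ 2 : ℝ) : ℂ) =
      ∫ z in (-1 : ℝ)..1, ∫ z' in (-1 : ℝ)..1,
        ψ z * conj (ψ z') * rho W (z - z') * ((∫ u in a..b, k u z * k u z' : ℝ) : ℂ) := by
  have h1 : ∀ u, ((∑ t ∈ W, ‖∫ z in (-1 : ℝ)..1, ψ z * ei (t * z) * ((k u z : ℝ) : ℂ)‖ ^ 2 : ℝ) : ℂ) =
      ∫ z in (-1 : ℝ)..1, ∫ z' in (-1 : ℝ)..1,
        ψ z * conj (ψ z') * rho W (z - z') * ((k u z * k u z' : ℝ) : ℂ) := by
    intro u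
    have hu := hk.uncurry_left u
    rw [Complex.ofReal_sum]
    simp only [g12_sq]
    rw [← g12_sum W (f := fun t z z' => ψ z * ei (t * z) * ((k u z : ℝ) : ℂ) *
      conj (ψ z' * ei (t * z') * ((k u z' : ℝ) : ℂ))) fun t => by
        unfold Function.uncurry; fun_prop]
    refine intervalIntegral.integral_congr fun z _ => intervalIntegral.integral_congr fun z' _ => ?_
    simp only [rho, mul_sum, sum_mul]
    refine sum_congr rfl fun t _ => ?_
    rw [map_mul, map_mul, conj_ei, Complex.conj_ofReal,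
      show (t : ℝ) * (z - z') = t * z + -(t * z') by ring, ei_add]
    push_cast; ring
  rw [← intervalIntegral.integral_ofReal]
  simp only [h1]
  rw [g12_swap (f := fun u z z' =>
    ψ z * conj (ψ z') * rho W (z - z') * ((k u z * k u z' : ℝ) : ℂ)) (by fun_prop) hab]
  simp only [intervalIntegral.integral_const_mul, intervalIntegral.integral_ofReal]

theorem g12 : ∃ C : ℝ, 0 < C ∧ ∀ (N T P X : ℕ) (E θ V : ℝ) (W : Finset ℤ) (a : ℕ → ℂ),
    World N T P X E θ V W a → ∀ ψ : ℝ → ℂ, Continuous ψ →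
      SS N P W ψ ≤ C / V ^ 2 *
        QQ N P (fun z => ‖ψ z‖) (fun z => ‖ψ z‖) (nu T (allp N)) {0} +
        4 * ‖TT N P ψ (rho W)‖ := by
  obtain ⟨C, hC, hM⟩ := maj
  refine ⟨32 * C, by positivity, fun N T P X E θ V W a h ψ hψ => ?_⟩
  have hN := h.N1
  have hP := h.P1
  have hδ : (0 : ℝ) < 1 / (32 * N) := by
    have : (0 : ℝ) < N := by exact_mod_cast hN
    positivity
  have hL : (0 : ℝ) ≤ 6 * P + 1 := by positivity
  have c0 := g12_k0 N P
  have cp := g12_kp N P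
  have habs : ∀ {z : ℝ}, z ∈ Set.uIcc (-1 : ℝ) 1 → |z| ≤ 1 := fun hz => by
    rw [Set.uIcc_of_le (by norm_num)] at hz; exact abs_le.2 hz
  set A : ℝ := ∫ u in (0 : ℝ)..1,
    ∑ t ∈ W, ‖∫ z in (-1 : ℝ)..1, ψ z * ei (t * z) * ((kp N P u z : ℝ) : ℂ)‖ ^ 2 with hA
  set B : ℝ := ∫ u in (0 : ℝ)..(6 * P + 1),
    ∑ t ∈ W, ‖∫ z in (-1 : ℝ)..1, ψ z * ei (t * z) * ((k0 N P u z : ℝ) : ℂ)‖ ^ 2 with hB
  have h1 : SS N P W ψ ≤ 4 * A := by
    rw [hA, intervalIntegral.integral_finsetSum (f := fun (t : ℤ) u =>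
      ‖∫ z in (-1 : ℝ)..1, ψ z * ei (t * z) * ((kp N P u z : ℝ) : ℂ)‖ ^ 2) fun t _ =>
      Continuous.intervalIntegrable
      (((ii_cont (f := fun u z => ψ z * ei (t * z) * ((kp N P u z : ℝ) : ℂ))
        (by unfold Function.uncurry; fun_prop) _ _).norm).pow 2) _ _, mul_sum]
    exact sum_le_sum fun t _ => galu N P hN hP (F := fun z => ψ z * ei (t * z)) (by fun_prop)
  have h2 : (A : ℂ) = B + TT N P ψ (rho W) := by
    have e1 : ∀ J : Finset ℤ, ∫ z in (-1 : ℝ)..1, ∫ z' in (-1 : ℝ)..1,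
        ψ z * conj (ψ z') * rho W (z - z') * ((∑ m ∈ Ico P (2 * P), ∑ m' ∈ Ico P (2 * P), ∑ j ∈ J,
          Kr (1 / (32 * N)) (m * exp z - m' * exp z' - j) : ℝ) : ℂ) =
        ∑ m ∈ Ico P (2 * P), ∑ m' ∈ Ico P (2 * P), ∑ j ∈ J,
          ∫ z in (-1 : ℝ)..1, ∫ z' in (-1 : ℝ)..1, ψ z * conj (ψ z') * rho W (z - z') *
          ((Kr (1 / (32 * N)) (m * exp z - m' * exp z' - j) : ℝ) : ℂ) := fun J => by
      simp only [Complex.ofReal_sum, mul_sum]
      exact g12_sum3 _ J fun m m' j => by unfold Function.uncurry; fun_prop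
    rw [hA, hB, g12_exp W hψ cp zero_le_one, g12_exp W hψ c0 hL, TT,
      intervalIntegral.integral_congr fun z hz => intervalIntegral.integral_congr fun z' hz' => by
        rw [ker N P hN hP (habs hz) (habs hz')], e1]
    have e2 := e1 {0}
    simp only [sum_singleton, Int.cast_zero, sub_zero] at e2
    rw [intervalIntegral.integral_congr fun z hz => intervalIntegral.integral_congr fun z' hz' => by
        rw [ker0 N P hN hP (habs hz) (habs hz')], e2]
    simp only [← sum_add_distrib]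
    refine sum_congr rfl fun m _ => sum_congr rfl fun m' _ => ?_
    rw [← add_sum_erase (Jall P) _ (a := 0) (by simp only [Jall, neg_add_rev, Int.reduceNeg, mem_Icc, add_neg_le_iff_le_add, zero_add]; omega), Jst]
    simp only [Int.cast_zero, sub_zero]
  have h3 : B ≤ 8 * C / V ^ 2 *
      QQ N P (fun z => ‖ψ z‖) (fun z => ‖ψ z‖) (nu T (allp N)) {0} := by
    have k0n : ∀ u z, 0 ≤ k0 N P u z := fun u z => sum_nonneg fun _ _ => tri_nonneg hδ _
    have cf : Continuous fun p : (ℝ × ℝ) × ℝ => ‖ψ p.1.2‖ * ‖ψ p.2‖ * nu T (allp N) (p.1.2 - p.2) *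
        (k0 N P p.1.1 p.1.2 * k0 N P p.1.1 p.2) := by fun_prop
    have c1 : Continuous (fun u z : ℝ => ∫ z' in (-1 : ℝ)..1, ‖ψ z‖ * ‖ψ z'‖ *
        nu T (allp N) (z - z') * (k0 N P u z * k0 N P u z')).uncurry :=
      intervalIntegral.continuous_parametric_intervalIntegral_of_continuous'
        (f := fun (p : ℝ × ℝ) z' => ‖ψ p.2‖ * ‖ψ z'‖ * nu T (allp N) (p.2 - z') *
          (k0 N P p.1 p.2 * k0 N P p.1 z')) cf _ _
    have e1 : B ≤ ∫ u in (0 : ℝ)..(6 * P + 1), C / V ^ 2 * ∫ z in (-1 : ℝ)..1, ∫ z' in (-1 : ℝ)..1,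
        ‖ψ z‖ * ‖ψ z'‖ * nu T (allp N) (z - z') * (k0 N P u z * k0 N P u z') := by
      refine intervalIntegral.integral_mono_on hL (Continuous.intervalIntegrable
        (continuous_finsetSum W fun t _ =>
          ((ii_cont (f := fun u z => ψ z * ei (t * z) * ((k0 N P u z : ℝ) : ℂ))
            (by unfold Function.uncurry; fun_prop) _ _).norm).pow 2) _ _)
        (Continuous.intervalIntegrable (continuous_const.mul (ii_cont c1 _ _)) _ _) fun u _ => ?_
      have cu := c0.uncurry_left u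
      have := hM N T W a V hN h.T1 h.hW h.ha h.V0 h.hV (fun z => ψ z * ((k0 N P u z : ℝ) : ℂ))
        (by fun_prop)
      simp only [norm_mul, Complex.norm_real, Real.norm_of_nonneg (k0n _ _)] at this
      convert this using 6 with t _ z
      · ring
      · ring
    rw [intervalIntegral.integral_const_mul, g12_swap (f := fun u z z' => ‖ψ z‖ * ‖ψ z'‖ *
      nu T (allp N) (z - z') * (k0 N P u z * k0 N P u z')) cf hL] at e1
    simp only [intervalIntegral.integral_const_mul] at e1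
    rw [intervalIntegral.integral_congr fun z hz => intervalIntegral.integral_congr fun z' hz' => by
      rw [ker0 N P hN hP (habs hz) (habs hz')]] at e1
    refine e1.trans ?_
    rw [show 8 * C / V ^ 2 = C / V ^ 2 * 8 by ring, mul_assoc, QQ,
      ← g12_sum3 _ _ fun m m' j => by unfold Function.uncurry; fun_prop]
    refine mul_le_mul_of_nonneg_left ?_ (by positivity)
    simp only [← intervalIntegral.integral_const_mul, sum_singleton, Int.cast_zero, sub_zero]
    refine ii_mono (by unfold Function.uncurry; fun_prop) (by unfold Function.uncurry; fun_prop)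
      (by norm_num) (by norm_num) fun z _ z' _ => ?_
    simp only [mul_sum]
    refine sum_le_sum fun m _ => sum_le_sum fun m' _ => ?_
    have h7 := Kr_le hδ (m * exp z - m' * exp z')
    rw [show 4 * (1 / (32 * N) : ℝ) = 1 / (8 * N) by ring] at h7
    have h8 : 0 ≤ ‖ψ z‖ * ‖ψ z'‖ * nu T (allp N) (z - z') :=
      mul_nonneg (by positivity) (nu_nonneg h.T1 _ _)
    exact (mul_le_mul_of_nonneg_left h7 h8).trans_eq (by ring)
  have h4 : A - B ≤ ‖TT N P ψ (rho W)‖ := by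
    have := Complex.re_le_norm (TT N P ψ (rho W))
    have h5 := congrArg Complex.re h2
    simp only [Complex.add_re, Complex.ofReal_re] at h5
    linarith only [this, h5]
  have h6 : 32 * C / V ^ 2 = 4 * (8 * C / V ^ 2) := by ring
  rw [h6]
  linarith only [h1, h3, h4]

end

section


theorem bil_int (n : ℤ) : ei (2 * π * n) = 1 := e_int n

theorem bil_sq (z : ℂ) : ((‖z‖ ^ 2 : ℝ) : ℂ) = z * conj z := by
  rw [Complex.mul_conj']
  push_cast
  rfl

theorem bil_re (x : ℝ) : x ≤ ‖(x : ℂ)‖ := Complex.re_le_norm (x : ℂ)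

theorem bil_sum {F ι : Type} [NormedAddCommGroup F] [NormedSpace ℝ F] (s : Finset ι)
    {G : ι → ℝ → ℝ → F} (hG : ∀ i, Continuous (G i).uncurry) (a b c d : ℝ) :
    ∫ x in a..b, ∫ y in c..d, ∑ i ∈ s, G i x y = ∑ i ∈ s, ∫ x in a..b, ∫ y in c..d, G i x y := by
  rw [← intervalIntegral.integral_finsetSum fun i _ => (ii_cont (hG i) c d).intervalIntegrable _ _]
  exact congrArg (intervalIntegral · a b _) (funext fun x => intervalIntegral.integral_finsetSum
    fun i _ => ((hG i).uncurry_left x).intervalIntegrable _ _)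

/-- A majorant for the periodised tent. -/
theorem bil_fej (J : Finset ℤ) {d : ℝ} {L : ℕ} (hd : 0 < d) (hd1 : d ≤ 1) (L0 : 1 ≤ L)
    (h1 : ∀ k < L, k * d ≤ 1 / 16) (h2 : 1 / d ≤ 32 * L) (y : ℝ) :
    ∑ j ∈ J, tri d (y - j) ≤ 256 / L * ‖∑ k ∈ range L, ei (2 * π * k * y)‖ ^ 2 := by
  have L1 : (1 : ℝ) ≤ L := by exact_mod_cast L0
  by_cases h : ∃ j : ℤ, |y - j| < d
  · obtain ⟨j, hj⟩ := h
    have a1 : ∑ i ∈ J, tri d (y - i) ≤ 2 * (1 / d) := by
      rw [← sum_filter_of_ne (p := fun i => i ∈ Icc ⌊y⌋ (⌊y⌋ + 1)) fun i _ hi => ?_]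
      · refine (sum_le_card_nsmul _ _ _ fun i _ => tri_le hd _).trans ?_
        have : #{i ∈ J | i ∈ Icc ⌊y⌋ (⌊y⌋ + 1)} ≤ 2 :=
          (card_le_card fun i hi => (mem_filter.1 hi).2).trans_eq (by rw [Int.card_Icc]; omega)
        rw [nsmul_eq_mul]
        exact mul_le_mul_of_nonneg_right (by exact_mod_cast this) (by positivity)
      · have := abs_lt.1 (lt_of_tri_ne hd hi)
        refine mem_Icc.2 ⟨Int.lt_add_one_iff.1 ?_, Int.le_add_one_iff.2 ?_⟩
        · exact Int.floor_lt.2 (by push_cast; linarith only [hd1, this])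
        · have : i - 1 ≤ ⌊y⌋ := Int.le_floor.2 (by push_cast; linarith only [hd1, this])
          omega
    have a2 : ‖∑ k ∈ range L, ((1 : ℂ) - ei (2 * π * k * y))‖ ≤ L / 2 := by
      refine (norm_sum_le_of_le (n := fun _ => 1 / 2) _ fun k hk => ?_).trans_eq (by
        rw [sum_const, card_range, nsmul_eq_mul, mul_one_div])
      rw [← bil_int (k * j)]
      refine (norm_ei_sub _ _).trans ?_
      rw [show 2 * π * ((k * j : ℤ) : ℝ) - 2 * π * k * y = -(2 * π * (k * (y - j))) by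
        push_cast; ring, abs_neg, abs_mul, abs_mul (k : ℝ), abs_of_pos two_pi_pos, Nat.abs_cast]
      have : k * |y - j| ≤ 1 / 16 :=
        (mul_le_mul_of_nonneg_left hj.le (by positivity)).trans (h1 k (mem_range.1 hk))
      nlinarith only [pi_le_four, pi_pos, this]
    have a3 := norm_sub_norm_le (L : ℂ) (∑ k ∈ range L, ei (2 * π * k * y))
    rw [sum_sub_distrib, sum_const, card_range, nsmul_eq_mul, mul_one] at a2
    rw [Complex.norm_natCast] at a3
    have a4 := pow_le_pow_left₀ (by positivity)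
      (show (L : ℝ) / 2 ≤ ‖∑ k ∈ range L, ei (2 * π * k * y)‖ by linarith only [a2, a3]) 2
    refine (a1.trans (mul_le_mul_of_nonneg_left h2 two_pos.le)).trans (le_trans (le_of_eq ?_)
      (mul_le_mul_of_nonneg_left a4 (by positivity)))
    field_simp
    norm_num
  · rw [sum_eq_zero fun i _ => tri_zero hd (not_lt.1 fun h' => h ⟨i, h'⟩)]
    positivity

theorem bil_cs {f g : ℝ → ℝ} (hf : Continuous f) (hg : Continuous g) {a b : ℝ} (hab : a ≤ b) :
    (∫ x in a..b, f x * g x) ^ 2 ≤ (∫ x in a..b, f x ^ 2) * ∫ x in a..b, g x ^ 2 := by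
  have := discrim_le_zero (a := ∫ x in a..b, f x ^ 2) (b := 2 * ∫ x in a..b, f x * g x)
    (c := ∫ x in a..b, g x ^ 2) fun t => by
      rw [← intervalIntegral.integral_const_mul, ← intervalIntegral.integral_mul_const,
        ← intervalIntegral.integral_mul_const,
        ← intervalIntegral.integral_add (Continuous.intervalIntegrable (by fun_prop) _ _)
          (Continuous.intervalIntegrable (by fun_prop) _ _),
        ← intervalIntegral.integral_add (Continuous.intervalIntegrable (by fun_prop) _ _)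
          (Continuous.intervalIntegrable (by fun_prop) _ _)]
      exact intervalIntegral.integral_nonneg hab fun x _ => by linarith only [sq_nonneg (f x * t + g x)]
  unfold discrim at this
  linarith

theorem bil_orth (n : ℤ) : ∫ p in (0 : ℝ)..8, ei (2 * π * n * p) = if n = 0 then 8 else 0 := by
  split_ifs with h
  · simp [h, ei_zero]
  · have h0 : Complex.I * (2 * π * n) ≠ 0 := by simp [h, pi_ne_zero]
    have := integral_exp_mul_complex (a := 0) (b := 8) h0
    have e := bil_int (n * 8)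
    simp only [ei] at e ⊢
    push_cast at e this ⊢
    simp only [← mul_assoc] at e this ⊢
    rw [this, e]
    simp

/-- Parseval with multiplicities. -/
theorem bil_pars {ι : Type} (s : Finset ι) (n : ι → ℤ) (c : ι → ℂ) {m : ℝ}
    (h : ∀ i ∈ s, (#{i' ∈ s | n i' = n i} : ℝ) ≤ m) :
    ∫ p in (0 : ℝ)..8, ‖∑ i ∈ s, c i * ei (2 * π * n i * p)‖ ^ 2 ≤ 8 * m * ∑ i ∈ s, ‖c i‖ ^ 2 := by
  have e : ((∫ p in (0 : ℝ)..8, ‖∑ i ∈ s, c i * ei (2 * π * n i * p)‖ ^ 2 : ℝ) : ℂ) =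
      ∑ i ∈ s, ∑ i' ∈ s, c i * conj (c i') * if n i' = n i then 8 else 0 := by
    rw [← intervalIntegral.integral_ofReal]
    simp only [bil_sq, map_sum, sum_mul_sum, map_mul, conj_ei]
    rw [intervalIntegral.integral_finsetSum fun i _ =>
      Continuous.intervalIntegrable (by fun_prop) _ _]
    refine sum_congr rfl fun i _ => ?_
    rw [intervalIntegral.integral_finsetSum fun i _ =>
      Continuous.intervalIntegrable (by fun_prop) _ _]
    refine sum_congr rfl fun i' _ => ?_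
    simp only [mul_mul_mul_comm (c i) (ei _), ← ei_add]
    rw [intervalIntegral.integral_const_mul, if_congr (eq_comm.trans sub_eq_zero.symm) rfl rfl,
      ← bil_orth]
    congr 2
    funext p
    congr 1
    push_cast
    ring
  refine (bil_re _).trans ?_
  rw [e]
  have b : ∀ i ∈ s, ∀ i' ∈ s, ‖c i * conj (c i') * if n i' = n i then 8 else 0‖ ≤
      (if n i' = n i then 4 * ‖c i‖ ^ 2 else 0) + if n i = n i' then 4 * ‖c i'‖ ^ 2 else 0 :=
    fun i _ i' _ => by
      by_cases e : n i' = n i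
      · rw [if_pos e, if_pos e, if_pos e.symm, norm_mul, norm_mul, Complex.norm_conj,
          Complex.norm_ofNat]
        linarith only [sq_nonneg (‖c i‖ - ‖c i'‖)]
      · rw [if_neg e, if_neg e, if_neg (Ne.symm e)]
        simp
  refine (norm_sum_le_of_le _ fun i hi => norm_sum_le_of_le _ (b i hi)).trans ?_
  simp only [sum_add_distrib]
  rw [sum_comm (f := fun i i' => if n i = n i' then 4 * ‖c i'‖ ^ 2 else 0), ← two_mul, mul_sum,
    mul_sum]
  refine sum_le_sum fun i hi => ?_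
  rw [← sum_filter, sum_const, nsmul_eq_mul]
  linarith only [mul_le_mul_of_nonneg_right (h i hi) (sq_nonneg ‖c i‖)]

noncomputable def bil_S (A : Finset ℤ) (f : ℝ → ℝ) (α β : ℝ) (r : ℤ) : ℂ :=
  ∑ a ∈ A, ∫ x in α..β, (f x : ℂ) * ei (2 * π * (r * a : ℤ) * exp x)

theorem bil_bessel (A R : Finset ℤ) {f : ℝ → ℝ} (hf : Continuous f) {α β τ : ℝ} (h1 : -2 ≤ α)
    (h2 : α ≤ β) (h3 : β ≤ 2) (τ0 : 0 ≤ τ)
    (h : ∀ r ∈ R, ∀ a ∈ A, r * a ≠ 0 ∧ (#(r * a).natAbs.divisors : ℝ) ≤ τ) :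
    ∑ r ∈ R, ‖bil_S A f α β r‖ ^ 2 ≤ 128 * τ * #A * ∫ x in α..β, f x ^ 2 := by
  obtain ⟨P, hP⟩ : ∃ P : ℝ → ℂ, P = fun p => ∑ i ∈ R ×ˢ A, conj (bil_S A f α β i.1) *
    ei (2 * π * (i.1 * i.2 : ℤ) * p) := ⟨_, rfl⟩
  have cP : Continuous P := by rw [hP]; fun_prop
  obtain ⟨Q, hQ⟩ : ∃ Q, Q = ∑ r ∈ R, ‖bil_S A f α β r‖ ^ 2 := ⟨_, rfl⟩
  have F0 : 0 ≤ ∫ x in α..β, f x ^ 2 := intervalIntegral.integral_nonneg h2 fun x _ => sq_nonneg _
  have e8 : exp 2 ≤ 8 := by
    have := exp_one_lt_d9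
    rw [show (2 : ℝ) = 1 + 1 by norm_num, exp_add]
    nlinarith only [exp_pos 1, this]
  have a1 : (Q : ℂ) = ∫ x in α..β, (f x : ℂ) * P (exp x) := by
    simp only [hP, hQ, mul_sum, Complex.ofReal_sum, bil_sq]
    rw [intervalIntegral.integral_finsetSum fun i _ =>
      Continuous.intervalIntegrable (by fun_prop) _ _, sum_product]
    refine sum_congr rfl fun r _ => ?_
    simp only [mul_left_comm (f _ : ℂ), intervalIntegral.integral_const_mul]
    rw [← mul_sum, mul_comm]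
    rfl
  have a2 : Q ≤ ∫ x in α..β, |f x| * ‖P (exp x)‖ := by
    refine (bil_re Q).trans ?_
    rw [a1]
    refine (intervalIntegral.norm_integral_le_integral_norm h2).trans_eq ?_
    simp only [norm_mul, Complex.norm_real, Real.norm_eq_abs]
  have a3 := bil_cs hf.abs (cP.comp continuous_exp).norm h2
  have a4 : ∫ x in α..β, ‖P (exp x)‖ ^ 2 ≤ 8 * ∫ p in (0 : ℝ)..8, ‖P p‖ ^ 2 := by
    have s := intervalIntegral.integral_comp_mul_deriv (a := α) (b := β) (f := exp) (f' := exp)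
      (g := fun p => ‖P p‖ ^ 2) (fun x _ => hasDerivAt_exp x) continuous_exp.continuousOn
      (by fun_prop)
    refine le_trans ?_ (mul_le_mul_of_nonneg_left (intervalIntegral.integral_mono_interval
      (exp_pos α).le (exp_le_exp.2 h2) ((exp_le_exp.2 h3).trans e8)
      (Filter.Eventually.of_forall fun _ => sq_nonneg _)
      (Continuous.intervalIntegrable (by fun_prop) _ _)) (by norm_num))
    rw [← s, ← intervalIntegral.integral_const_mul]
    refine intervalIntegral.integral_mono_on h2 (Continuous.intervalIntegrable (by fun_prop) _ _)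
      (Continuous.intervalIntegrable (by fun_prop) _ _) fun x hx => ?_
    have b1 : 1 ≤ exp 2 * exp x := by
      rw [← exp_add]
      exact one_le_exp (by linarith only [hx.1, h1])
    have b2 : 1 ≤ 8 * exp x := b1.trans (mul_le_mul_of_nonneg_right e8 (exp_pos x).le)
    simp only [Function.comp]
    nlinarith only [b2]
  have a5 : ∫ p in (0 : ℝ)..8, ‖P p‖ ^ 2 ≤ 8 * (2 * τ) * (#A * Q) := by
    rw [hP]
    refine (bil_pars (R ×ˢ A) (fun i => i.1 * i.2) (fun i => conj (bil_S A f α β i.1))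
      (m := 2 * τ) fun i hi => ?_).trans_eq ?_
    · obtain ⟨n0, n1⟩ := h i.1 (mem_product.1 hi).1 i.2 (mem_product.1 hi).2
      have : #{i' ∈ R ×ˢ A | i'.1 * i'.2 = i.1 * i.2} ≤
          #((i.1 * i.2).natAbs.divisors ×ˢ (univ : Finset Bool)) := by
        refine card_le_card_of_injOn (fun x => (x.1.natAbs, decide (0 ≤ x.1))) (fun x hx => ?_)
          fun x hx x' hx' e => ?_
        · exact mem_coe.2 (mem_product.2 ⟨Nat.mem_divisors.2 ⟨Int.natAbs_dvd_natAbs.2
            ⟨_, (mem_filter.1 hx).2.symm⟩, Int.natAbs_ne_zero.2 n0⟩, mem_univ _⟩)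
        · have e1 := (mem_filter.1 hx).2
          have e2 := (mem_filter.1 hx').2
          simp only [Prod.mk.injEq, decide_eq_decide] at e
          have e3 : x.1 = x'.1 := by omega
          refine Prod.ext e3 (mul_left_cancel₀ (left_ne_zero_of_mul (e2 ▸ n0)) ?_)
          rw [e2, ← e3, e1]
      rw [card_product, card_univ, Fintype.card_bool] at this
      have := (Nat.cast_le (α := ℝ)).2 this
      push_cast at this
      linarith only [n1, this]
    · rw [sum_product, hQ]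
      simp only [Complex.norm_conj, sum_const, nsmul_eq_mul, ← mul_sum]
  have Q0 : 0 ≤ Q := hQ ▸ sum_nonneg fun _ _ => sq_nonneg _
  rw [← hQ]
  rcases Q0.eq_or_lt with h0 | h0
  · rw [← h0]
    positivity
  refine le_of_mul_le_mul_right ?_ h0
  simp only [sq_abs, Function.comp] at a3
  have a6 := mul_le_mul_of_nonneg_left (a4.trans (mul_le_mul_of_nonneg_left a5 (by norm_num))) F0
  linarith only [pow_le_pow_left₀ Q0 a2 2, a3, a6]

theorem bil : ∃ C : ℝ, 0 < C ∧ ∀ (δ E : ℝ) (Y : ℕ) (A B J : Finset ℤ), 0 < δ → δ ≤ 1 → 0 ≤ E →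
    (∀ a ∈ A, a ≠ 0 ∧ |a| ≤ Y) → (∀ b ∈ B, b ≠ 0 ∧ |b| ≤ Y) →
    (∀ n : ℕ, n ≠ 0 → (n : ℝ) ≤ Y / δ → (#n.divisors : ℝ) ≤ E) →
    ∀ α₁ β₁ α₂ β₂ : ℝ, -2 ≤ α₁ → α₁ ≤ β₁ → β₁ ≤ 2 → -2 ≤ α₂ → α₂ ≤ β₂ → β₂ ≤ 2 →
    ∀ f₁ f₂ : ℝ → ℝ, Continuous f₁ → Continuous f₂ → (∀ x, 0 ≤ f₁ x) → (∀ x, 0 ≤ f₂ x) →
      ∑ a ∈ A, ∑ b ∈ B, ∑ j ∈ J, ∫ x in α₁..β₁, ∫ x' in α₂..β₂,
        f₁ x * f₂ x' * tri δ (a * exp x + b * exp x' - j) ≤
      C * (#A * #B * (∫ x in α₁..β₁, f₁ x) * (∫ x in α₂..β₂, f₂ x) +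
        E * √(#A * ∫ x in α₁..β₁, f₁ x ^ 2) * √(#B * ∫ x in α₂..β₂, f₂ x ^ 2)) := by
  refine ⟨256 * 128, by norm_num, fun d τ Y A B J hd hd1 τ0 hA hB hτ α β α' β' h1 h2 h3 h1' h2' h3'
    f g hf hg f0 g0 => ?_⟩
  obtain ⟨L, hL⟩ : ∃ L, L = ⌊1 / (16 * d)⌋₊ + 1 := ⟨_, rfl⟩
  have L0 : 1 ≤ L := by omega
  have L1 : (0 : ℝ) < L := by exact_mod_cast L0
  have L2 : ∀ k < L, k * d ≤ 1 / 16 := fun k hk => by
    have := (Nat.le_floor_iff (by positivity)).1 (show k ≤ ⌊1 / (16 * d)⌋₊ by omega)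
    rw [le_div_iff₀ (by positivity)] at this
    linarith only [this]
  have L3 : 1 / d ≤ 32 * L := by
    have := Nat.lt_floor_add_one (1 / (16 * d))
    rw [← Nat.cast_succ, Nat.succ_eq_add_one, ← hL, div_lt_iff₀ (by positivity)] at this
    rw [div_le_iff₀ hd]
    linarith only [this]
  obtain ⟨W, hW⟩ : ∃ W : ℤ → ℤ → ℝ, W = fun a b : ℤ => ∫ x in α..β, ∫ y in α'..β',
    f x * g y * ‖∑ k ∈ range L, ei (2 * π * k * (a * exp x + b * exp y))‖ ^ 2 := ⟨_, rfl⟩
  have s1 : ∀ a b : ℤ, ∑ j ∈ J, ∫ x in α..β, ∫ y in α'..β',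
      f x * g y * tri d (a * exp x + b * exp y - j) ≤ 256 / L * W a b := fun a b => by
    rw [hW, ← bil_sum J (fun j => by fun_prop), ← intervalIntegral.integral_const_mul]
    simp only [← intervalIntegral.integral_const_mul]
    refine ii_mono (by fun_prop) (by fun_prop) h2 h2' fun x _ y _ => ?_
    rw [← mul_sum, mul_left_comm]
    exact mul_le_mul_of_nonneg_left (bil_fej J hd hd1 L0 L2 L3 _) (mul_nonneg (f0 x) (g0 y))
  have s2 : ((∑ a ∈ A, ∑ b ∈ B, W a b : ℝ) : ℂ) = ∑ k ∈ range L, ∑ l ∈ range L,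
      bil_S A f α β (k - l) * bil_S B g α' β' (k - l) := by
    rw [← sum_product', ← sum_product']
    simp only [bil_S, sum_mul_sum A, Complex.ofReal_sum, ← sum_product' A]
    rw [sum_comm]
    refine sum_congr rfl fun p _ => ?_
    simp only [hW, ← intervalIntegral.integral_ofReal, Complex.ofReal_mul, bil_sq, map_sum, conj_ei,
      sum_mul_sum, ← sum_product']
    simp only [mul_sum]
    rw [bil_sum _ fun j => by fun_prop]
    refine sum_congr rfl fun q _ => ?_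
    rw [← intervalIntegral.integral_mul_const]
    simp only [← intervalIntegral.integral_const_mul, mul_mul_mul_comm (f _ : ℂ) (ei _), ← ei_add]
    congr 1
    funext x
    congr 1
    funext y
    congr 2
    push_cast
    ring
  have s0 : ∀ (A : Finset ℤ) {f : ℝ → ℝ} {α β : ℝ}, α ≤ β → (∀ x, 0 ≤ f x) →
      ‖bil_S A f α β 0‖ = #A * ∫ x in α..β, f x := fun A f α β h f0 => by
    simp only [bil_S, zero_mul, Int.cast_zero, mul_zero, ei_zero, mul_one, sum_const, nsmul_eq_mul,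
      intervalIntegral.integral_ofReal, norm_mul, Complex.norm_natCast, Complex.norm_real]
    rw [Real.norm_of_nonneg (intervalIntegral.integral_nonneg h fun x _ => f0 x)]
  obtain ⟨R, hR⟩ : ∃ R : Finset ℤ, R = (Ioo (-(L : ℤ)) L).erase 0 := ⟨_, rfl⟩
  have s3 : ∀ A : Finset ℤ, (∀ a ∈ A, a ≠ 0 ∧ |a| ≤ Y) → ∀ r ∈ R, ∀ a ∈ A,
      r * a ≠ 0 ∧ (#(r * a).natAbs.divisors : ℝ) ≤ τ := fun A hA r hr a ha => by
    rw [hR, mem_erase, mem_Ioo] at hr
    have n0 := mul_ne_zero hr.1 (hA a ha).1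
    refine ⟨n0, hτ _ (Int.natAbs_ne_zero.2 n0) ?_⟩
    have b1 := L2 r.natAbs (by omega)
    have b2 : (a.natAbs : ℝ) ≤ Y := by
      exact_mod_cast (show a.natAbs ≤ Y by have := abs_le.1 (hA a ha).2; omega)
    rw [le_div_iff₀ hd, Int.natAbs_mul, Nat.cast_mul, mul_right_comm]
    exact (mul_le_of_le_one_left (by positivity) (by linarith only [b1])).trans b2
  have F0 : 0 ≤ #A * ∫ x in α..β, f x ^ 2 := mul_nonneg (by positivity)
    (intervalIntegral.integral_nonneg h2 fun x _ => sq_nonneg _)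
  have s4 : ∑ r ∈ R, ‖bil_S A f α β r‖ * ‖bil_S B g α' β' r‖ ≤
      128 * (τ * √(#A * ∫ x in α..β, f x ^ 2) * √(#B * ∫ x in α'..β', g x ^ 2)) := by
    refine (sum_mul_le_sqrt_mul_sqrt _ _ _).trans ((mul_le_mul
      (sqrt_le_sqrt (bil_bessel A R hf h1 h2 h3 τ0 (s3 A hA)))
      (sqrt_le_sqrt (bil_bessel B R hg h1' h2' h3' τ0 (s3 B hB))) (sqrt_nonneg _)
      (sqrt_nonneg _)).trans_eq ?_)
    rw [mul_assoc (128 * τ), mul_assoc (128 * τ), sqrt_mul (by positivity),
      sqrt_mul (x := 128 * τ) (by positivity), mul_mul_mul_comm, mul_self_sqrt (by positivity)]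
    ring
  have s5 : ∀ k ∈ range L, ∑ l ∈ range L, ‖bil_S A f α β (k - l) * bil_S B g α' β' (k - l)‖ ≤
      ‖bil_S A f α β 0‖ * ‖bil_S B g α' β' 0‖ +
        ∑ r ∈ R, ‖bil_S A f α β r‖ * ‖bil_S B g α' β' r‖ := fun k hk => by
    rw [← sum_image (f := fun r => ‖bil_S A f α β r * bil_S B g α' β' r‖)
      (g := fun l : ℕ => (k : ℤ) - l) fun l _ l' _ e => by simpa using e, hR,
      add_sum_erase _ (fun r => ‖bil_S A f α β r‖ * ‖bil_S B g α' β' r‖)
        (mem_Ioo.2 ⟨by omega, by omega⟩)]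
    simp only [norm_mul]
    refine sum_le_sum_of_subset_of_nonneg (image_subset_iff.2 fun l hl => ?_) fun _ _ _ => by
      positivity
    have := mem_range.1 hk
    have := mem_range.1 hl
    exact mem_Ioo.2 ⟨by omega, by omega⟩
  have s6 := (bil_re _).trans (s2 ▸ (norm_sum_le_of_le _ fun k hk =>
    (norm_sum_le _ _).trans (s5 k hk)))
  rw [sum_const, card_range, nsmul_eq_mul, s0 A h2 f0, s0 B h2' g0] at s6
  refine (sum_le_sum fun a _ => sum_le_sum fun b _ => s1 a b).trans ?_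
  simp only [← mul_sum]
  refine (mul_le_mul_of_nonneg_left s6 (by positivity)).trans ?_
  rw [← mul_assoc, div_mul_cancel₀ _ L1.ne']
  have := mul_nonneg (s0 A h2 f0 ▸ norm_nonneg _) (s0 B h2' g0 ▸ norm_nonneg _)
  linarith only [s4, this]

end

end Pool.Agent.MP_71ac24_nt.H17
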