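import Pool.Agent.MP_71ac24_nt.H17.Arcs
import Pool.Agent.MP_71ac24_nt.H17.Dual

attribute [-instance] IdemSemiring.toCanonicallyOrderedAdd AddQuantale.instAddLeftMono
  covariant_swap_mul_of_covariant_mul IsOrderedMonoid.toMulLeftMono NumberField.to_charZero
  Quantale.instMulLeftMono IdemSemiring.toMulLeftMono RKHS.instFunLike AddQuantale.instAddRightMono
  LinearOrderedCommMonoidWithZero.toPosMulStrictMono Fintype.decidableForallFintype
  Quantale.instMulRightMono CanonicallyOrderedAdd.toMulLeftMono continuousSub_of_discreteTopology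
  NonarchimedeanRing.toIsTopologicalRing instCoeTOfCoeDep instCoeT Valued.toUniformSpace
  continuousSub_of_indiscreteTopology NeZero.of_gt'

/-! Choice of parameters, subdivision, level sets and dyadic blocks. -/

set_option autoImplicit false

namespace Pool.Agent.MP_71ac24_nt.H17

open Finset Real
open scoped ComplexConjugate
open Pool.Agent.MP_71ac24_nt.H14 (ei Sep ei_add norm_ei ei_zero conj_ei norm_ei_sub continuous_ei)

section

/-! ### block SPL -/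

lemma spl_rho_sq (W : Finset ℤ) : ∫ x in (-π)..π, ‖rho W x‖ ^ 2 = 2 * π * #W := by
  have h := parseval (-π) W fun _ => 1
  rw [show -π + 2 * π = π by ring] at h
  simpa only [rho, one_mul, norm_one, one_pow, sum_const, nsmul_eq_mul, mul_one] using h

end

section

/-! ### block TH -/

lemma th_tri {δ z : ℝ} (hδ : 0 < δ) (hz : -1 ≤ z) (y : ℝ) :
    tri δ (exp z * y) ≤ 12 * tri (6 * δ) y := by
  by_cases h0 : tri δ (exp z * y) = 0
  · rw [h0]
    have := tri_nonneg (δ := 6 * δ) (by linarith) y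
    linarith
  · have h1 := lt_of_tri_ne hδ h0
    rw [abs_mul, abs_of_pos (exp_pos z)] at h1
    have h2 : exp (-z) ≤ 3 := by
      have : exp (-z) ≤ exp 1 := exp_le_exp.2 (by linarith)
      linarith only [exp_one_lt_d9, this]
    have h3 : exp (-z) * exp z = 1 := by rw [← exp_add]; simp
    have h4 : |y| ≤ 6 * δ / 2 := by
      have h5 : |y| = exp (-z) * (exp z * |y|) := by rw [← mul_assoc, h3, one_mul]
      have h6 : exp (-z) * (exp z * |y|) ≤ 3 * δ :=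
        mul_le_mul h2 h1.le (by positivity) (by norm_num)
      linarith only [h5, h6]
    have h7 := tri_ge (δ := 6 * δ) (by linarith only [hδ]) h4
    have h8 := tri_le hδ (exp z * y)
    have h9 : 1 / δ = 12 * (1 / (2 * (6 * δ))) := by field_simp; ring
    linarith only [h7, h8, h9]

lemma th_norm (N P : ℕ) (hN : 1 ≤ N) {ψ G : ℝ → ℂ} (hψ : Continuous ψ) (hG : Continuous G) :
    ‖TT N P ψ G‖ ≤
      8 * QQ N P (fun z => ‖ψ z‖) (fun z => ‖ψ z‖) (fun x => ‖G x‖ + ‖G (-x)‖) (Jst P) := by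
  have N0 : (0 : ℝ) < N := by exact_mod_cast hN
  unfold TT QQ
  simp only [mul_sum]
  refine (norm_sum_le _ _).trans (sum_le_sum fun m _ => ?_)
  refine (norm_sum_le _ _).trans (sum_le_sum fun m' _ => ?_)
  refine (norm_sum_le _ _).trans (sum_le_sum fun j _ => ?_)
  refine (ii_norm (by fun_prop) (by norm_num) (by norm_num)).trans ?_
  simp only [← intervalIntegral.integral_const_mul]
  refine ii_mono (by fun_prop) (by fun_prop) (by norm_num) (by norm_num) fun z _ z' _ => ?_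
  have hδ : (0 : ℝ) < 1 / (32 * N) := by positivity
  have h1 := Kr_le hδ (m * exp z - m' * exp z' - j)
  have h2 := Kr_nonneg hδ (m * exp z - m' * exp z' - j)
  have h3 : 4 * (1 / (32 * (N : ℝ))) = 1 / (8 * N) := by field_simp; ring
  rw [h3] at h1
  rw [norm_mul, norm_mul, norm_mul, Complex.norm_conj, Complex.norm_real, Real.norm_of_nonneg h2]
  calc ‖ψ z‖ * ‖ψ z'‖ * ‖G (z - z')‖ * Kr (1 / (32 * N)) (m * exp z - m' * exp z' - j)
      ≤ ‖ψ z‖ * ‖ψ z'‖ * (‖G (z - z')‖ + ‖G (-(z - z'))‖) *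
          (8 * tri (1 / (8 * N)) (m * exp z - m' * exp z' - j)) :=
        mul_le_mul (mul_le_mul_of_nonneg_left (le_add_of_nonneg_right (norm_nonneg _))
          (by positivity)) h1 h2 (by positivity)
    _ = _ := by ring

lemma th_one {δ : ℝ} (hδ : 0 < δ) {f H : ℝ → ℝ} (hf : Continuous f) (hH : Continuous H)
    (f0 : ∀ x, 0 ≤ f x) (H0 : ∀ x, 0 ≤ H x) (He : ∀ x, H (-x) = H x) (m m' j : ℝ) :
    ∫ z in (-1 : ℝ)..1, ∫ z' in (-1 : ℝ)..1,
        f z * 1 * H (z - z') * tri δ (m * exp z - m' * exp z' - j) ≤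
      12 * ∫ x in (-1 : ℝ)..1, ∫ x' in (-2 : ℝ)..2,
        f (-x) * H x' * tri (6 * δ) (j * exp x + m' * exp x' - m) := by
  have hδ6 : 0 < 6 * δ := by linarith
  have e1 := intervalIntegral.integral_comp_neg (a := (-1 : ℝ)) (b := 1)
    (fun x => ∫ x' in (-2 : ℝ)..2, f (-x) * H x' * tri (6 * δ) (j * exp x + m' * exp x' - m))
  simp only [neg_neg] at e1
  rw [← e1, ← intervalIntegral.integral_const_mul]
  refine intervalIntegral.integral_mono_on (by norm_num)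
    ((ii_cont (f := fun z z' => f z * 1 * H (z - z') * tri δ (m * exp z - m' * exp z' - j))
      (by fun_prop) _ _).intervalIntegrable _ _)
    ((continuous_const.mul (ii_cont
      (f := fun z x' => f z * H x' * tri (6 * δ) (j * exp (-z) + m' * exp x' - m))
      (by fun_prop) _ _)).intervalIntegrable _ _) fun z hz => ?_
  have e2 := intervalIntegral.integral_comp_sub_right (a := (-1 : ℝ)) (b := 1)
    (fun x' => 12 * (f z * H x' * tri (6 * δ) (j * exp (-z) + m' * exp x' - m))) z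
  rw [← intervalIntegral.integral_const_mul]
  refine le_trans ?_ (intervalIntegral.integral_mono_interval (a := -1 - z) (b := 1 - z)
    (by linarith [hz.2]) (by linarith) (by linarith [hz.1])
    (Filter.Eventually.of_forall fun x => ?_) (Continuous.intervalIntegrable (by fun_prop) _ _))
  · rw [← e2]
    refine intervalIntegral.integral_mono_on (by norm_num)
      (Continuous.intervalIntegrable (by fun_prop) _ _)
      (Continuous.intervalIntegrable (by fun_prop) _ _) fun z' _ => ?_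
    have h1 := th_tri hδ hz.1 (-(j * exp (-z) + m' * exp (z' - z) - m))
    have h2 : exp z * (-(j * exp (-z) + m' * exp (z' - z) - m)) = m * exp z - m' * exp z' - j := by
      have a1 : exp z * exp (-z) = 1 := by rw [← exp_add]; simp
      have a2 : exp z * exp (z' - z) = exp z' := by rw [← exp_add]; congr 1; ring
      linear_combination (-j) * a1 - m' * a2
    rw [h2, tri_neg] at h1
    have h3 : H (z - z') = H (z' - z) := by rw [← He]; congr 1; ring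
    rw [h3, mul_one]
    calc f z * H (z' - z) * tri δ (m * exp z - m' * exp z' - j)
        ≤ f z * H (z' - z) * (12 * tri (6 * δ) (j * exp (-z) + m' * exp (z' - z) - m)) :=
          mul_le_mul_of_nonneg_left h1 (mul_nonneg (f0 _) (H0 _))
      _ = _ := by ring
  · exact mul_nonneg (by norm_num) (mul_nonneg (mul_nonneg (f0 _) (H0 _)) (tri_nonneg hδ6 _))

lemma th_even {g : ℝ → ℝ} (hg : Continuous g) (g0 : ∀ x, 0 ≤ g x) :
    ∫ x in (-2 : ℝ)..2, (g x + g (-x)) ≤ 2 * ∫ x in (-π)..π, g x := by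
  have h1 : ∫ x in (-2 : ℝ)..2, g x ≤ ∫ x in (-π)..π, g x :=
    intervalIntegral.integral_mono_interval (by linarith [pi_gt_three]) (by norm_num)
      (by linarith [pi_gt_three]) (Filter.Eventually.of_forall g0) (hg.intervalIntegrable _ _)
  have h2 := intervalIntegral.integral_comp_neg (a := (-2 : ℝ)) (b := 2) g
  simp only [neg_neg] at h2
  rw [intervalIntegral.integral_add (hg.intervalIntegrable _ _)
    (Continuous.intervalIntegrable (by fun_prop) _ _), h2]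
  linarith

theorem th : ∃ (C : ℝ) (k : ℕ), 0 < C ∧ ∀ (N T P X : ℕ) (E θ V : ℝ) (W : Finset ℤ) (a : ℕ → ℂ),
    World N T P X E θ V W a → ∀ ψ G : ℝ → ℂ, Continuous ψ → Continuous G →
      ‖TT N P ψ G‖ ≤ C * E ^ k *
        (P ^ 2 * (∫ z in (-1 : ℝ)..1, ‖ψ z‖ ^ 2) * (∫ x in (-π)..π, ‖G x‖) +
          P * √(∫ z in (-1 : ℝ)..1, ‖ψ z‖ ^ 4) * √(∫ x in (-π)..π, ‖G x‖ ^ 2)) := by
  obtain ⟨C, C0, hC⟩ := bil
  refine ⟨96 * 30 * C, 1, by positivity, fun N T P X E θ V W a h ψ G hψ hG => ?_⟩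
  have hN := h.N1
  have N0 : (0 : ℝ) < N := by exact_mod_cast hN
  have N1000 : (1000 : ℝ) ≤ N := by exact_mod_cast h.N1000
  have P1 : (1 : ℝ) ≤ P := by exact_mod_cast h.P1
  have PN : 12 * (P : ℝ) ≤ N := by exact_mod_cast h.PX.trans h.XN
  have E1 := h.E1
  have hδ : (0 : ℝ) < 1 / (8 * N) := by positivity
  set H : ℝ → ℝ := fun x => ‖G x‖ + ‖G (-x)‖ with hHd
  have hH : Continuous H := by fun_prop
  have H0 : ∀ x, 0 ≤ H x := fun x => by positivity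
  have He : ∀ x, H (-x) = H x := fun x => by simp only [hHd, neg_neg]; ring
  set B : Finset ℤ := (Ico P (2 * P)).map Nat.castEmbedding with hB
  have cB : (#B : ℝ) = P := by
    rw [hB, card_map, Nat.card_Ico]
    congr 1
    omega
  have cA : (#(Jst P) : ℝ) ≤ 15 * P := by
    have h1 : #(Jst P) ≤ #(Jall P) := card_erase_le
    have h2 : #(Jall P) = 12 * P + 3 := by
      unfold Jall
      rw [Int.card_Icc]
      omega
    have h3 : #(Jst P) ≤ 15 * P := by have := h.P1; omega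
    exact_mod_cast h3
  have s1 := th_norm N P hN hψ hG
  have s2 := sym N P hN (f := fun z => ‖ψ z‖) (H := H) (by fun_prop) hH H0 He (Jst P) (Jst_neg P)
  have s3 : QQ N P (fun z => ‖ψ z‖ ^ 2) (fun _ => 1) H (Jst P) ≤
      12 * ∑ j ∈ Jst P, ∑ b ∈ B, ∑ i ∈ B, ∫ x in (-1 : ℝ)..1, ∫ x' in (-2 : ℝ)..2,
        ‖ψ (-x)‖ ^ 2 * H x' * tri (6 * (1 / (8 * N))) (j * exp x + b * exp x' - i) := by
    unfold QQ
    rw [sum_comm, hB]
    simp only [sum_map, Nat.castEmbedding_apply, Int.cast_natCast]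
    rw [sum_comm (s := Jst P), mul_sum]
    refine sum_le_sum fun m' _ => ?_
    rw [sum_comm (s := Jst P), mul_sum]
    refine sum_le_sum fun m _ => ?_
    rw [mul_sum]
    exact sum_le_sum fun j _ => th_one hδ (f := fun z => ‖ψ z‖ ^ 2) (by fun_prop) hH
      (fun x => by positivity) H0 He _ _ _
  have s4 := hC (6 * (1 / (8 * N))) E (6 * P + 1) (Jst P) B B (by positivity)
    (by rw [mul_one_div, div_le_one (by positivity)]; linarith only [N1000]) (by linarith only [E1])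
    (fun j hj => by
      simp only [Jst, Jall, mem_erase, mem_Icc] at hj
      exact ⟨hj.1, abs_le.2 (by push_cast; exact hj.2)⟩)
    (fun b hb => by
      simp only [hB, mem_map, mem_Ico, Nat.castEmbedding_apply] at hb
      obtain ⟨n, hn, rfl⟩ := hb
      have := h.P1
      exact ⟨by omega, abs_le.2 ⟨by omega, by omega⟩⟩)
    (fun n hn hle => h.tau n hn (by
      have h1 : (((6 * P + 1 : ℕ) : ℝ)) / (6 * (1 / (8 * N))) ≤ (N : ℝ) ^ 4 := by
        rw [div_le_iff₀ (by positivity)]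
        have h2 : (N : ℝ) ^ 4 * (6 * (1 / (8 * N))) = 3 / 4 * N ^ 3 := by field_simp; ring
        rw [h2]
        push_cast
        nlinarith only [mul_le_mul N1000 N1000 (by norm_num) N0.le, PN]
      exact_mod_cast hle.trans h1))
    (-1) 1 (-2) 2 (by norm_num) (by norm_num) (by norm_num) (by norm_num) (by norm_num)
    (by norm_num) (fun x => ‖ψ (-x)‖ ^ 2) H (by fun_prop) hH (fun x => by positivity) H0
  have i2 := intervalIntegral.integral_comp_neg (a := (-1 : ℝ)) (b := 1) (fun z => ‖ψ z‖ ^ 2)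
  have i4 := intervalIntegral.integral_comp_neg (a := (-1 : ℝ)) (b := 1) (fun z => ‖ψ z‖ ^ 4)
  simp only [neg_neg] at i2 i4
  have i4' : ∫ x in (-1 : ℝ)..1, (‖ψ (-x)‖ ^ 2) ^ 2 = ∫ z in (-1 : ℝ)..1, ‖ψ z‖ ^ 4 := by
    rw [← i4]
    exact intervalIntegral.integral_congr fun x _ => by ring
  have j1 : ∫ x in (-2 : ℝ)..2, H x ≤ 2 * ∫ x in (-π)..π, ‖G x‖ :=
    th_even (g := fun x => ‖G x‖) (by fun_prop) fun x => norm_nonneg _
  have j2 : ∫ x in (-2 : ℝ)..2, H x ^ 2 ≤ 4 * ∫ x in (-π)..π, ‖G x‖ ^ 2 := by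
    have h1 := th_even (g := fun x => ‖G x‖ ^ 2) (by fun_prop) fun x => by positivity
    have h2 : ∫ x in (-2 : ℝ)..2, H x ^ 2 ≤
        ∫ x in (-2 : ℝ)..2, 2 * (‖G x‖ ^ 2 + ‖G (-x)‖ ^ 2) :=
      intervalIntegral.integral_mono_on (by norm_num)
        (Continuous.intervalIntegrable (by fun_prop) _ _)
        (Continuous.intervalIntegrable (by fun_prop) _ _) fun x _ => by
          simp only [hHd]
          linarith only [sq_nonneg (‖G x‖ - ‖G (-x)‖)]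
    rw [intervalIntegral.integral_const_mul] at h2
    linarith only [h1, h2]
  rw [i2, i4', cB] at s4
  set I2 := ∫ z in (-1 : ℝ)..1, ‖ψ z‖ ^ 2
  set I4 := ∫ z in (-1 : ℝ)..1, ‖ψ z‖ ^ 4
  set J1 := ∫ x in (-π)..π, ‖G x‖
  set J2 := ∫ x in (-π)..π, ‖G x‖ ^ 2
  have I20 : 0 ≤ I2 := intervalIntegral.integral_nonneg (by norm_num) fun x _ => by positivity
  have I40 : 0 ≤ I4 := intervalIntegral.integral_nonneg (by norm_num) fun x _ => by positivity
  have J10 : 0 ≤ J1 :=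
    intervalIntegral.integral_nonneg (by linarith only [pi_pos]) fun x _ => by positivity
  have K10 : 0 ≤ ∫ x in (-2 : ℝ)..2, H x :=
    intervalIntegral.integral_nonneg (by norm_num) fun x _ => H0 x
  have b1 : (#(Jst P) : ℝ) * P * I2 * (∫ x in (-2 : ℝ)..2, H x) ≤ 30 * E * (P ^ 2 * I2 * J1) := by
    calc (#(Jst P) : ℝ) * P * I2 * (∫ x in (-2 : ℝ)..2, H x)
        ≤ 15 * P * P * I2 * (2 * J1) := by gcongr
      _ = 30 * 1 * (P ^ 2 * I2 * J1) := by ring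
      _ ≤ _ := by gcongr
  have r1 : √(#(Jst P) * I4) ≤ 4 * √P * √I4 := by
    have : (4 : ℝ) = √16 := by
      rw [show (16 : ℝ) = 4 ^ 2 by norm_num, sqrt_sq (by norm_num)]
    rw [this, ← sqrt_mul (by norm_num), ← sqrt_mul (by positivity)]
    exact sqrt_le_sqrt (mul_le_mul_of_nonneg_right (by linarith only [P1, cA]) I40)
  have r2 : √(P * ∫ x in (-2 : ℝ)..2, H x ^ 2) ≤ 2 * √P * √J2 := by
    have : (2 : ℝ) * √P * √J2 = √(4 * P * J2) := by
      rw [sqrt_mul (by positivity), sqrt_mul (by norm_num),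
        show (4 : ℝ) = 2 ^ 2 by norm_num, sqrt_sq (by norm_num)]
    rw [this]
    exact sqrt_le_sqrt (by nlinarith only [j2])
  have b2 : E * √(#(Jst P) * I4) * √(P * ∫ x in (-2 : ℝ)..2, H x ^ 2) ≤
      30 * E * (P * √I4 * √J2) := by
    have hP : √(P : ℝ) * √P = P := mul_self_sqrt (by linarith only [P1])
    calc E * √(#(Jst P) * I4) * √(P * ∫ x in (-2 : ℝ)..2, H x ^ 2)
        ≤ E * (4 * √P * √I4) * (2 * √P * √J2) := by gcongr
      _ = 8 * E * (√P * √P * √I4 * √J2) := by ring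
      _ = 8 * E * (P * √I4 * √J2) := by rw [hP]
      _ ≤ _ := by gcongr; norm_num
  have s5 := mul_le_mul_of_nonneg_left (add_le_add b1 b2) C0.le
  calc ‖TT N P ψ G‖ ≤ 8 * (12 * (C * (30 * E * (P ^ 2 * I2 * J1) + 30 * E * (P * √I4 * √J2)))) := by
        linarith only [s1, s2, s3, s4, s5]
    _ = _ := by ring

end

section

lemma tri_isum {F ι : Type} [NormedAddCommGroup F] [NormedSpace ℝ F] (S : Finset ι)
    {f : ι → ℝ → ℝ → F} (hc : ∀ i, Continuous (f i).uncurry) (a b c d : ℝ) :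
    ∫ x in a..b, ∫ y in c..d, ∑ i ∈ S, f i x y = ∑ i ∈ S, ∫ x in a..b, ∫ y in c..d, f i x y := by
  rw [← intervalIntegral.integral_finsetSum fun i _ => (ii_cont (hc i) c d).intervalIntegrable _ _]
  congr 1
  funext x
  exact intervalIntegral.integral_finsetSum fun i _ =>
    ((hc i).uncurry_left x).intervalIntegrable _ _

lemma tri_shift {F : Type} [NormedAddCommGroup F] [NormedSpace ℝ F] {P m : ℕ} (hP : 1 ≤ P)
    (hm : m ∈ Ico P (2 * P)) {Φ : ℝ → F} (h0 : ∀ z, 1 ≤ |z| → Φ z = 0) :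
    ∫ z in (-1 : ℝ)..1, Φ z =
      ∫ ξ in (Real.log P - 1)..(Real.log P - 1 + 3), Φ (ξ - Real.log m) := by
  obtain ⟨h1, h2⟩ := mem_Ico.1 hm
  have P0 : (0 : ℝ) < P := by exact_mod_cast hP
  have e1 : Real.log P ≤ Real.log m := Real.log_le_log P0 (by exact_mod_cast h1)
  have e2 : Real.log m ≤ Real.log (2 * P) :=
    Real.log_le_log (by exact_mod_cast hP.trans h1) (by exact_mod_cast h2.le)
  rw [Real.log_mul two_ne_zero P0.ne'] at e2
  have e3 := Real.log_two_lt_d9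
  rw [intervalIntegral.integral_comp_sub_right Φ]
  refine (int_supp (by linarith only [e1]) (by norm_num) (by linarith only [e2, e3]) fun x hx => h0 x ?_).symm
  rcases hx with hx | hx
  · exact le_abs.2 (Or.inr (by linarith only [hx]))
  · exact le_abs.2 (Or.inl hx)

lemma tri_exp {P m : ℕ} (hP : 1 ≤ P) (hm : m ∈ Ico P (2 * P)) (ξ : ℝ) :
    m * exp (ξ - Real.log m) = exp ξ := by
  have : (0 : ℝ) < m := by exact_mod_cast hP.trans (mem_Ico.1 hm).1
  rw [exp_sub, exp_log this, mul_div_cancel₀ _ this.ne']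

end

section

/-! ### block BLG -/

lemma blg_tt_add (N P : ℕ) {ψ G₁ G₂ : ℝ → ℂ} (hψ : Continuous ψ) (h1 : Continuous G₁)
    (h2 : Continuous G₂) :
    TT N P ψ (fun x => G₁ x + G₂ x) = TT N P ψ G₁ + TT N P ψ G₂ := by
  unfold TT
  simp only [← sum_add_distrib]
  refine sum_congr rfl fun m _ => sum_congr rfl fun m' _ => sum_congr rfl fun j _ => ?_
  have hc : Continuous fun z => conj (ψ z) := Complex.continuous_conj.comp hψ
  have key : ∀ {G : ℝ → ℂ}, Continuous G → Continuous (Function.uncurry fun z z' : ℝ =>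
      ψ z * conj (ψ z') * G (z - z') *
        ((Kr (1 / (32 * N)) (m * exp z - m' * exp z' - j) : ℝ) : ℂ)) := by
    intro G hG
    unfold Function.uncurry
    refine Continuous.mul (Continuous.mul (Continuous.mul (hψ.comp continuous_fst)
      (hc.comp continuous_snd)) (hG.comp (continuous_fst.sub continuous_snd))) ?_
    exact Complex.continuous_ofReal.comp ((cont_Kr _).comp (by fun_prop))
  rw [← intervalIntegral.integral_add ((ii_cont (key h1) _ _).intervalIntegrable _ _)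
    ((ii_cont (key h2) _ _).intervalIntegrable _ _)]
  refine intervalIntegral.integral_congr fun z _ => ?_
  rw [← intervalIntegral.integral_add (((key h1).uncurry_left z).intervalIntegrable _ _)
    (((key h2).uncurry_left z).intervalIntegrable _ _)]
  refine intervalIntegral.integral_congr fun z' _ => ?_
  ring

lemma blg_ss_add (N P : ℕ) (W : Finset ℤ) {g h : ℝ → ℂ} (hg : Continuous g) (hh : Continuous h) :
    SS N P W (fun z => g z + h z) ≤ 2 * SS N P W g + 2 * SS N P W h := by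
  unfold SS
  simp only [mul_sum, ← sum_add_distrib]
  refine sum_le_sum fun t _ => sum_le_sum fun l _ => ?_
  have e1 : ∑ m ∈ Ico P (2 * P), ∫ z in (-1 : ℝ)..1,
      (g z + h z) * ei (t * z) * e (-(m * l * exp z)) =
      (∑ m ∈ Ico P (2 * P), ∫ z in (-1 : ℝ)..1, g z * ei (t * z) * e (-(m * l * exp z))) +
      ∑ m ∈ Ico P (2 * P), ∫ z in (-1 : ℝ)..1, h z * ei (t * z) * e (-(m * l * exp z)) := by
    rw [← sum_add_distrib]
    refine sum_congr rfl fun m _ => ?_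
    rw [← intervalIntegral.integral_add (Continuous.intervalIntegrable (by fun_prop) _ _)
      (Continuous.intervalIntegrable (by fun_prop) _ _)]
    refine intervalIntegral.integral_congr fun z _ => ?_
    ring
  rw [e1]
  generalize (∑ m ∈ Ico P (2 * P), ∫ z in (-1 : ℝ)..1,
    g z * ei (t * z) * e (-(m * l * exp z))) = A
  generalize (∑ m ∈ Ico P (2 * P), ∫ z in (-1 : ℝ)..1,
    h z * ei (t * z) * e (-(m * l * exp z))) = B
  have h1 := norm_add_le A B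
  have h2 : ‖A + B‖ ^ 2 ≤ (‖A‖ + ‖B‖) ^ 2 := pow_le_pow_left₀ (norm_nonneg _) h1 2
  linarith only [sq_nonneg (‖A‖ - ‖B‖), h2]

lemma blg_l2 {W : Finset ℤ} {g : ℝ → ℂ} (hg : Adm W g) :
    ∫ z in (-1 : ℝ)..1, ‖g z‖ ^ 2 ≤ 7 * #W := by
  have hc := hg.cont
  have h1 : ∫ z in (-1 : ℝ)..1, ‖g z‖ ^ 2 ≤ ∫ z in (-1 : ℝ)..1, ‖rho W (-z)‖ ^ 2 :=
    intervalIntegral.integral_mono_on (by norm_num)
      (Continuous.intervalIntegrable (by fun_prop) _ _)
      (Continuous.intervalIntegrable (by fun_prop) _ _) fun z _ =>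
        pow_le_pow_left₀ (norm_nonneg _) (hg.le z) 2
  have h2 := rho_l2 W (α := -1) (β := 1) (by norm_num) (by linarith [Real.pi_gt_three])
  have h3 : (0 : ℝ) ≤ #W := Nat.cast_nonneg _
  nlinarith only [Real.pi_lt_d2, h1, h2]

lemma blg_r4 {X R I : ℝ} (X0 : 0 < X) (R0 : 0 < R) (h : I ≤ X * R * (7 * R)) :
    √I ≤ 3 * √X * R := by
  refine Real.sqrt_le_iff.2 ⟨by positivity, h.trans ?_⟩
  rw [mul_pow, mul_pow, Real.sq_sqrt X0.le]
  linarith only [mul_pos X0 (mul_pos R0 R0)]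

end

section

lemma cor_card {T : ℕ} {W : Finset ℤ} (hW : ∀ t ∈ W, 0 ≤ t ∧ t ≤ T) : #W ≤ T + 1 := by
  have : W ⊆ Icc (0 : ℤ) T := fun t ht => mem_Icc.2 (hW t ht)
  refine (card_le_card this).trans ?_
  rw [Int.card_Icc]; omega

lemma cor_triv (N : ℕ) {a : ℕ → ℂ} (ha : ∀ n, ‖a n‖ ≤ 1) (t : ℝ) : ‖DP N a t‖ ≤ N := by
  refine (norm_sum_le _ _).trans ?_
  have h : ∀ m ∈ Ioc N (2 * N), ‖a m * ei (t * Real.log m)‖ ≤ 1 := fun m _ => by
    rw [norm_mul, norm_ei, mul_one]; exact ha m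
  refine (sum_le_card_nsmul _ _ _ h).trans ?_
  rw [Nat.card_Ioc, nsmul_eq_mul, mul_one, two_mul, Nat.add_sub_cancel]

lemma cor_Zs (Y : ℕ) (s : ℝ) : ‖Zs Y s‖ ≤ Y := by
  refine (norm_sum_le _ _).trans ?_
  simp only [norm_ei, sum_const, Nat.card_Icc, add_tsub_cancel_right, nsmul_eq_mul, mul_one, Std.le_refl]

lemma cor_mvt {N T : ℕ} (hN : 1 ≤ N) (hT : N ≤ T) {W : Finset ℤ} (hW : ∀ t ∈ W, 0 ≤ t ∧ t ≤ T)
    {a : ℕ → ℂ} (ha : ∀ n, ‖a n‖ ≤ 1) : ∑ t ∈ W, ‖DP N a t‖ ^ 2 ≤ 30000 * T * N := by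
  have h := H14.mvt N hN T (by exact_mod_cast hT) (W.image (Int.cast : ℤ → ℝ)) ?_ ?_ a ha
  · rwa [sum_image fun x _ y _ hxy => Int.cast_injective hxy] at h
  · intro t ht u hu htu
    obtain ⟨x, -, rfl⟩ := mem_image.1 ht
    obtain ⟨y, -, rfl⟩ := mem_image.1 hu
    have : x ≠ y := fun h => htu (by rw [h])
    have h1 : 1 ≤ |x - y| := Int.one_le_abs (sub_ne_zero.2 this)
    exact_mod_cast h1
  · intro t ht
    obtain ⟨x, hx, rfl⟩ := mem_image.1 ht
    exact ⟨by exact_mod_cast (hW x hx).1, by exact_mod_cast (hW x hx).2⟩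

lemma cor_ev {e : ℝ} (he : 0 < e) (c : ℝ) : ∃ N₀ : ℕ, ∀ N ≥ N₀,
    177147 ≤ (N : ℝ) ^ (1 / 4 : ℝ) ∧ 2 + 4 * Real.log N ≤ (N : ℝ) ^ e ∧ c ≤ (N : ℝ) ^ e ∧
      ∀ n : ℕ, n ≠ 0 → n ≤ N ^ 4 → (#n.divisors : ℝ) ≤ (N : ℝ) ^ e := by
  have ev : ∀ {r : ℝ}, 0 < r → ∀ b : ℝ, ∀ᶠ N : ℕ in Filter.atTop, b ≤ (N : ℝ) ^ r := fun hr b =>
    ((tendsto_rpow_atTop hr).comp tendsto_natCast_atTop_atTop).eventually_ge_atTop b
  obtain ⟨s, hs⟩ := exists_nat_ge (5 / e)
  obtain ⟨C, C1, hC⟩ := MP_e4c747_an.divisor_bound s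
  have hs' : 5 ≤ e * s := by rwa [div_le_iff₀ he, mul_comm] at hs
  have s0 : s ≠ 0 := by rintro rfl; simp at hs'; linarith only [hs']
  refine Filter.eventually_atTop.1 ?_
  filter_upwards [ev (r := 1 / 4) (by norm_num) 177147, ev (half_pos he) (2 + 8 / e), ev he c,
    Filter.eventually_ge_atTop C] with N h1 h2 h3 h4
  have N1 : (1 : ℝ) ≤ N := by exact_mod_cast C1.trans h4
  refine ⟨h1, ?_, h3, fun n hn hn' => ?_⟩
  · have h5 := Real.log_le_rpow_div (x := N) (by linarith only [N1]) (half_pos he)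
    have h6 : (N : ℝ) ^ e = (N : ℝ) ^ (e / 2) * (N : ℝ) ^ (e / 2) := by
      rw [← Real.rpow_add (by linarith only [N1])]; congr 1; ring
    have h7 : (1 : ℝ) ≤ (N : ℝ) ^ (e / 2) := Real.one_le_rpow N1 (by linarith only [he])
    have h8 : (N : ℝ) ^ (e / 2) / (e / 2) * 4 = 8 / e * (N : ℝ) ^ (e / 2) := by field_simp; ring
    rw [h6]
    nlinarith only [h2, h5, h7, h8]
  · refine le_of_pow_le_pow_left₀ s0 (by positivity) ?_
    have h5 : ((#n.divisors : ℝ)) ^ s ≤ (N : ℝ) ^ 5 := by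
      have : #n.divisors ^ s ≤ N ^ 5 := (hC n hn).trans (by
        rw [pow_succ']; exact Nat.mul_le_mul h4 hn')
      exact_mod_cast this
    refine h5.trans ?_
    rw [← Real.rpow_natCast, ← Real.rpow_natCast, ← Real.rpow_mul (by linarith only [N1])]
    exact Real.rpow_le_rpow_of_exponent_le N1 (by exact_mod_cast hs')

lemma cor_err {N T R F E : ℝ} {A : ℕ} (hN : 32 ≤ N) (hE : 4 ≤ E) (hA : N ^ 12 ≤ E ^ A) (R0 : 0 ≤ R)
    (hR : R ≤ 2 * N ^ 2) (T0 : 0 ≤ T) (hF : E * T ≤ F * N) (F0 : 0 < F) (hF' : F ≤ 2 * N) :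
    R ^ 3 * N * (N * F * (2 * T / (F * N)) ^ A) ^ 2 ≤ 1 := by
  have N0 : 0 < N := by linarith
  have E0 : 0 < E := by linarith only [hE]
  have h1 : 2 * T / (F * N) ≤ 2 / E := by
    rw [div_le_div_iff₀ (by positivity) E0]; linarith only [hF]
  have h2 : ((2 / E) ^ A) ^ 2 ≤ 1 / N ^ 12 := by
    rw [← pow_mul, mul_comm, pow_mul]
    have h3 : (2 / E) ^ 2 ≤ 1 / E := by
      rw [div_pow, div_le_div_iff₀ (by positivity) E0]; nlinarith only [hE]
    calc _ ≤ (1 / E) ^ A := by gcongr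
      _ = 1 / E ^ A := by rw [div_pow, one_pow]
      _ ≤ _ := by gcongr
  calc _ ≤ (2 * N ^ 2) ^ 3 * N * (N * (2 * N) * (2 / E) ^ A) ^ 2 := by gcongr
    _ = 32 * N ^ 11 * ((2 / E) ^ A) ^ 2 := by ring
    _ ≤ N * N ^ 11 * (1 / N ^ 12) := by gcongr
    _ = 1 := by field_simp

lemma cor_y {N T E y : ℝ} (T0 : 0 ≤ T) (E4 : 4 ≤ E) (Ey : E ≤ y) (f1 : 177147 ≤ y) (Ny : y ^ 4 = N)
    (Ty : T ≤ 3 * y ^ 5) :
    13 * E * T ≤ N * N ∧ 1000 * E ≤ N ∧ T ^ 2 ≤ N ^ 3 ∧ T ^ 11 ≤ N ^ 14 := by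
  subst Ny
  have y1 : 1 ≤ y := by linarith
  have y0 : 0 ≤ y := by linarith only [f1]
  refine ⟨?_, ?_, ?_, ?_⟩
  · calc 13 * E * T ≤ 13 * y * (3 * y ^ 5) := by gcongr
      _ = 39 * 1 * y ^ 6 := by ring
      _ ≤ y * y * y ^ 6 := by gcongr; linarith
      _ = _ := by ring
  · calc 1000 * E ≤ y * y := by gcongr; linarith
      _ = y ^ 2 := by ring
      _ ≤ _ := pow_le_pow_right₀ y1 (by norm_num)
  · calc T ^ 2 ≤ (3 * y ^ 5) ^ 2 := by gcongr
      _ = 9 * 1 * y ^ 10 := by ring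
      _ ≤ y * y * y ^ 10 := by gcongr; linarith
      _ = _ := by ring
  · calc T ^ 11 ≤ (3 * y ^ 5) ^ 11 := by gcongr
      _ = 177147 * y ^ 55 := by ring
      _ ≤ y * y ^ 55 := by gcongr
      _ = _ := by ring

lemma cor_XL {N T : ℕ} {E : ℝ} (hN : 1 ≤ N) (hT : N ≤ T) (E1 : 1 ≤ E)
    (ET : 13 * E * T ≤ (N : ℝ) * N) (f2 : 2 + 4 * Real.log N ≤ E) :
    ∃ X L : ℕ, 12 * E * T ≤ X * N ∧ (X : ℝ) * N ≤ 13 * E * T ∧ X ≤ N ∧
      (2 : ℝ) ^ L * N ≤ E * T ∧ E * T ≤ (2 : ℝ) ^ (L + 1) * N ∧ (2 : ℝ) ^ L ≤ N ∧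
      ((L + 1 : ℕ) : ℝ) ≤ E := by
  have N1 : (1 : ℝ) ≤ N := by exact_mod_cast hN
  have NT : (N : ℝ) ≤ T := by exact_mod_cast hT
  have N0 : (0 : ℝ) < N := by linarith only [N1]
  have q1 : 1 ≤ E * T / N := by rw [le_div_iff₀ N0]; nlinarith only [E1, NT]
  have X2 : (⌈12 * (E * T / N)⌉₊ : ℝ) * N ≤ 13 * E * T := by
    have h1 := (Nat.ceil_lt_add_one (a := 12 * (E * T / N)) (by positivity)).le
    rw [← le_div_iff₀ N0, show 13 * E * T / N = 13 * (E * T / N) by ring]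
    linarith only [q1, h1]
  have F1 : 1 ≤ ⌊E * T / N⌋₊ := Nat.le_floor (by exact_mod_cast q1)
  have L1 : (2 : ℝ) ^ Nat.log 2 ⌊E * T / N⌋₊ ≤ E * T / N := by
    have h1 : 2 ^ Nat.log 2 ⌊E * T / N⌋₊ ≤ ⌊E * T / N⌋₊ := Nat.pow_log_le_self 2 (by omega)
    have h2 : ((2 ^ Nat.log 2 ⌊E * T / N⌋₊ : ℕ) : ℝ) ≤ ⌊E * T / N⌋₊ := by exact_mod_cast h1
    push_cast at h2
    exact h2.trans (Nat.floor_le (by positivity))
  have L3 : (2 : ℝ) ^ Nat.log 2 ⌊E * T / N⌋₊ ≤ N := by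
    refine L1.trans ?_
    rw [div_le_iff₀ N0]
    have : 0 ≤ E * T := by positivity
    linarith only [ET, this]
  refine ⟨⌈12 * (E * T / N)⌉₊, Nat.log 2 ⌊E * T / N⌋₊, ?_, X2, ?_, ?_, ?_, L3, ?_⟩
  · have := Nat.le_ceil (12 * (E * T / N))
    rw [← div_le_iff₀ N0, show 12 * E * T / N = 12 * (E * T / N) by ring]
    exact this
  · have : (⌈12 * (E * T / N)⌉₊ : ℝ) ≤ N := le_of_mul_le_mul_right (X2.trans ET) N0
    exact_mod_cast this
  · rwa [← le_div_iff₀ N0]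
  · have h1 : ⌊E * T / N⌋₊ + 1 ≤ 2 ^ (Nat.log 2 ⌊E * T / N⌋₊ + 1) :=
      Nat.lt_pow_succ_log_self (by norm_num) _
    have h2 : ((⌊E * T / N⌋₊ + 1 : ℕ) : ℝ) ≤ ((2 ^ (Nat.log 2 ⌊E * T / N⌋₊ + 1) : ℕ) : ℝ) := by
      exact_mod_cast h1
    push_cast at h2
    rw [← div_le_iff₀ N0]
    exact (Nat.lt_floor_add_one (E * T / N)).le.trans h2
  · have h1 := Real.log_le_log (by positivity) L3
    rw [Real.log_pow] at h1
    have h2 := Real.log_two_gt_d9
    have h3 : (0 : ℝ) ≤ Nat.log 2 ⌊E * T / N⌋₊ := Nat.cast_nonneg _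
    push_cast
    nlinarith only [f2, h1, h2]

end

section

theorem cnt_shift (N : ℕ) (a : ℕ → ℂ) (s t : ℝ) :
    DP N (fun n => a n * ei (s * Real.log n)) (t - s) = DP N a t := by
  unfold DP
  refine sum_congr rfl fun n _ => ?_
  rw [mul_assoc, ← ei_add]
  congr 2
  ring

theorem cnt_norm (N : ℕ) (a : ℕ → ℂ) (ha : ∀ n, ‖a n‖ ≤ 1) (t : ℝ) : ‖DP N a t‖ ≤ N := by
  unfold DP
  refine (norm_sum_le _ _).trans ((sum_le_card_nsmul _ _ 1 fun n _ => ?_).trans ?_)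
  · rw [norm_mul, norm_ei, mul_one]
    exact ha n
  · rw [Nat.card_Ioc, show 2 * N - N = N by omega]
    simp

theorem subdiv (N T T₀ : ℕ) (hT₀ : 1 ≤ T₀) (V B : ℝ) (hB : 0 ≤ B)
    (h : ∀ (W : Finset ℤ) (a : ℕ → ℂ), (∀ t ∈ W, 0 ≤ t ∧ t ≤ T₀) → (∀ n, ‖a n‖ ≤ 1) →
      (∀ t ∈ W, V ≤ ‖DP N a t‖) → (#W : ℝ) ≤ B)
    (W : Finset ℤ) (a : ℕ → ℂ) (hW : ∀ t ∈ W, 0 ≤ t ∧ t ≤ T) (ha : ∀ n, ‖a n‖ ≤ 1)
    (hV : ∀ t ∈ W, V ≤ ‖DP N a t‖) : (#W : ℝ) ≤ (T / T₀ + 1) * B := by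
  have h0 : (0 : ℤ) < T₀ := by exact_mod_cast hT₀
  have h1 : #W = ∑ i ∈ Icc (0 : ℤ) ((T / T₀ : ℕ) : ℤ), #(W.filter fun t => t / (T₀ : ℤ) = i) := by
    refine card_eq_sum_card_fiberwise fun t ht => ?_
    obtain ⟨a1, a2⟩ := hW t ht
    simp only [coe_Icc, Set.mem_Icc]
    refine ⟨Int.ediv_nonneg a1 h0.le, ?_⟩
    push_cast
    exact Int.ediv_le_ediv h0 a2
  have h2 : ∀ i : ℤ, (#(W.filter fun t => t / (T₀ : ℤ) = i) : ℝ) ≤ B := by
    intro i
    rw [← card_image_of_injective _ (sub_left_injective (b := i * (T₀ : ℤ)))]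
    refine h _ (fun n => a n * ei (((i * (T₀ : ℤ) : ℤ) : ℝ) * Real.log n)) ?_ ?_ ?_
    · intro t ht
      obtain ⟨u, hu, rfl⟩ := mem_image.1 ht
      obtain ⟨-, rfl⟩ := mem_filter.1 hu
      have e1 := Int.emod_nonneg u h0.ne'
      have e2 := Int.emod_lt_of_pos u h0
      have e3 := Int.emod_add_ediv_mul u (T₀ : ℤ)
      constructor <;> linarith only [e1, e3, e2]
    · intro n
      rw [norm_mul, norm_ei, mul_one]
      exact ha n
    · intro t ht
      obtain ⟨u, hu, rfl⟩ := mem_image.1 ht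
      rw [Int.cast_sub, cnt_shift]
      exact hV u (mem_filter.1 hu).1
  rw [h1, Nat.cast_sum]
  refine (sum_le_card_nsmul _ _ B fun i _ => h2 i).trans ?_
  rw [nsmul_eq_mul, Int.card_Icc]
  refine mul_le_mul_of_nonneg_right ?_ hB
  have h3 := Nat.cast_div_le (α := ℝ) (m := T) (n := T₀)
  generalize T / T₀ = k at h3 ⊢
  rw [show ((k : ℤ) + 1 - 0).toNat = k + 1 by omega]
  push_cast
  linarith only [h3]

theorem cnt_card (T : ℕ) (W : Finset ℤ) (hW : ∀ t ∈ W, 0 ≤ t ∧ t ≤ T) : (#W : ℝ) ≤ T + 1 := by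
  have h1 : #W ≤ #(Icc (0 : ℤ) T) := card_le_card fun t ht => mem_Icc.2 (hW t ht)
  rw [Int.card_Icc, show ((T : ℤ) + 1 - 0).toNat = T + 1 by omega] at h1
  exact_mod_cast h1

theorem cnt_a {n s Q V T T₀ : ℝ} (hs : 1 ≤ s) (hQ : Q * s = n ^ 3) (hn : 0 < n) (hV : 0 < V)
    (hVs : V ^ 2 ≤ n * s) (h1 : s ^ 2 ≤ T₀) (h2 : T₀ ≤ 2 * s ^ 2) (hT : s ^ 2 ≤ T) :
    (T / T₀ + 1) * (n ^ 2 / V ^ 2 + √T₀ * n ^ 3 / V ^ 4) ≤ 6 * (T * Q / V ^ 4) := by
  have s0 : 0 < s := by linarith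
  have T0 : 0 < T := lt_of_lt_of_le (by positivity) hT
  have a1 : T / T₀ + 1 ≤ 2 * T / s ^ 2 := by
    have b1 : T / T₀ ≤ T / s ^ 2 := div_le_div_of_nonneg_left T0.le (by positivity) h1
    have b2 : 1 ≤ T / s ^ 2 := (one_le_div (by positivity)).2 hT
    rw [mul_div_assoc]
    linarith
  have a2 : √T₀ ≤ 2 * s := by
    rw [Real.sqrt_le_left (by positivity)]
    nlinarith only [h2]
  have a3 : n ^ 2 / V ^ 2 + √T₀ * n ^ 3 / V ^ 4 ≤ 3 * s * n ^ 3 / V ^ 4 := by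
    have b1 : n ^ 2 / V ^ 2 = n ^ 2 * V ^ 2 / V ^ 4 := by field_simp
    rw [b1, ← add_div]
    refine div_le_div_of_nonneg_right ?_ (by positivity)
    have b2 := mul_le_mul_of_nonneg_left hVs (sq_nonneg n)
    have b3 := mul_le_mul_of_nonneg_right a2 (by positivity : 0 ≤ n ^ 3)
    linarith only [b2, b3]
  refine (mul_le_mul a1 a3 (by positivity) (by positivity)).trans (le_of_eq ?_)
  rw [← hQ]
  field_simp
  ring

theorem cnt_b {n s Q V T T₀ C E D : ℝ} (hs : 0 < s) (hQ : Q * s = n ^ 3) (hn : 0 < n) (hV : 0 < V)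
    (hVs : n * s ≤ V ^ 2) (hC : 1 ≤ C) (hE : 1 ≤ E) (hD : D ^ 2 = C ^ 2 * n ^ 2 * E)
    (h0 : 0 < T₀) (h1 : V ^ 4 ≤ 2 * T₀ * D ^ 2) (hT : 0 ≤ T) :
    (T / T₀ + 1) * (C * n ^ 2 / V ^ 2) ≤
      C * E * (n ^ 2 / V ^ 2) + 2 * C ^ 3 * E * (T * Q / V ^ 4) := by
  have Q0 : 0 < Q := by
    have : 0 < Q * s := by rw [hQ]; positivity
    exact (mul_pos_iff_of_pos_right hs).1 this
  have a1 : 1 / T₀ ≤ 2 * D ^ 2 / V ^ 4 := by
    rw [div_le_div_iff₀ h0 (by positivity)]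
    linarith
  have a2 : n ^ 4 / V ^ 2 ≤ Q := by
    rw [div_le_iff₀ (by positivity)]
    have b1 := mul_le_mul_of_nonneg_left hVs Q0.le
    have b2 : Q * (n * s) = n ^ 4 := by linear_combination n * hQ
    linarith only [b1, b2]
  have a3 : T / T₀ * (C * n ^ 2 / V ^ 2) ≤ 2 * C ^ 3 * E * (T * Q / V ^ 4) := by
    calc T / T₀ * (C * n ^ 2 / V ^ 2) = T * (C * n ^ 2 / V ^ 2) * (1 / T₀) := by ring
      _ ≤ T * (C * n ^ 2 / V ^ 2) * (2 * D ^ 2 / V ^ 4) := by gcongr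
      _ = 2 * C ^ 3 * E * (T / V ^ 4) * (n ^ 4 / V ^ 2) := by rw [hD]; ring
      _ ≤ 2 * C ^ 3 * E * (T / V ^ 4) * Q := by gcongr
      _ = _ := by ring
  have a4 : C * n ^ 2 / V ^ 2 ≤ C * E * (n ^ 2 / V ^ 2) := by
    rw [mul_div_assoc]
    gcongr
    nlinarith only [hC, hE]
  rw [add_mul, one_mul]
  linarith

end

section

/-! ### block TP1 -/

theorem tp1_log (ε : ℝ) (hε : 0 < ε) : ∃ C : ℝ, 0 < C ∧ ∀ N : ℕ, 1 ≤ N →
    (Nat.log 2 N : ℝ) + 1 ≤ C * (N : ℝ) ^ ε := by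
  refine ⟨2 / ε + 1, by positivity, fun N hN => ?_⟩
  have hN1 : (1 : ℝ) ≤ N := by exact_mod_cast hN
  have h1 : (Nat.log 2 N : ℝ) * Real.log 2 ≤ Real.log N := by
    rw [← Real.log_pow]
    apply Real.log_le_log (by positivity)
    exact_mod_cast Nat.pow_log_le_self 2 (by omega : N ≠ 0)
  have h2 : Real.log N ≤ (N : ℝ) ^ ε / ε := Real.log_le_rpow_div (by positivity) hε
  have h3 : (1 : ℝ) ≤ (N : ℝ) ^ ε := Real.one_le_rpow hN1 hε.le
  have h4 : (1 / 2 : ℝ) ≤ Real.log 2 := by have := Real.log_two_gt_d9; linarith only [this]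
  have h6 : (Nat.log 2 N : ℝ) * (1 / 2) ≤ (Nat.log 2 N : ℝ) * Real.log 2 :=
    mul_le_mul_of_nonneg_left h4 (by positivity)
  have h7 : (2 / ε + 1) * (N : ℝ) ^ ε = 2 * ((N : ℝ) ^ ε / ε) + (N : ℝ) ^ ε := by ring
  linarith only [h1, h2, h3, h6, h7]

theorem tp1_sum (W : Finset ℤ) (f : ℤ → ℝ) (N : ℕ) (B : ℝ) (hf : ∀ t ∈ W, 0 ≤ f t ∧ f t ≤ N)
    (hB : ∀ V : ℝ, 0 < V → (#{t ∈ W | V ≤ f t} : ℝ) * V ^ 2 ≤ B) :
    ∑ t ∈ W, f t ^ 2 ≤ #W + 4 * ((Nat.log 2 N : ℝ) + 1) * B := by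
  have key : ∀ t ∈ W, f t ^ 2 ≤ 1 + ∑ i ∈ range (Nat.log 2 N + 1),
      if (2 : ℝ) ^ i ≤ f t then 4 * ((2 : ℝ) ^ i) ^ 2 else 0 := by
    intro t ht
    obtain ⟨h0, h1⟩ := hf t ht
    have hnn : ∀ i ∈ range (Nat.log 2 N + 1),
        (0 : ℝ) ≤ if (2 : ℝ) ^ i ≤ f t then 4 * ((2 : ℝ) ^ i) ^ 2 else 0 := by
      intro i _
      split_ifs <;> positivity
    rcases lt_or_ge (f t) 1 with h | h
    · have := sum_nonneg hnn
      nlinarith only [h0, h, this]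
    · have hfl : 1 ≤ ⌊f t⌋₊ := Nat.le_floor (by simpa only [Nat.cast_one] using h)
      have hi : Nat.log 2 ⌊f t⌋₊ ∈ range (Nat.log 2 N + 1) := by
        rw [mem_range, Nat.lt_succ_iff]
        exact Nat.log_mono_right (Nat.floor_le_of_le h1)
      have h2 := single_le_sum hnn hi
      have h3 : (2 : ℝ) ^ Nat.log 2 ⌊f t⌋₊ ≤ f t := by
        refine le_trans ?_ (Nat.floor_le h0)
        exact_mod_cast Nat.pow_log_le_self 2 (by omega : ⌊f t⌋₊ ≠ 0)
      have h4 : f t ≤ 2 * (2 : ℝ) ^ Nat.log 2 ⌊f t⌋₊ := by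
        refine (Nat.lt_floor_add_one (f t)).le.trans ?_
        have := Nat.lt_pow_succ_log_self (b := 2) (by norm_num) ⌊f t⌋₊
        rw [pow_succ, mul_comm] at this
        exact_mod_cast this
      rw [if_pos h3] at h2
      have h5 := pow_le_pow_left₀ h0 h4 2
      rw [mul_pow] at h5
      linarith only [h2, h5]
  refine (sum_le_sum key).trans ?_
  rw [sum_add_distrib, sum_comm, sum_const, nsmul_eq_mul, mul_one]
  have h2 : ∀ i ∈ range (Nat.log 2 N + 1),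
      (∑ t ∈ W, if (2 : ℝ) ^ i ≤ f t then 4 * ((2 : ℝ) ^ i) ^ 2 else 0) ≤ 4 * B := by
    intro i _
    rw [← sum_filter, sum_const, nsmul_eq_mul]
    have := hB ((2 : ℝ) ^ i) (by positivity)
    linarith
  have h3 := sum_le_sum h2
  rw [sum_const, card_range, nsmul_eq_mul] at h3
  push_cast at h3
  linarith

theorem tp1_triv (N : ℕ) (a : ℕ → ℂ) (ha : ∀ m, ‖a m‖ ≤ 1) (t : ℝ) : ‖DP N a t‖ ≤ N := by
  refine (norm_sum_le _ _).trans ?_
  have h : ∀ m ∈ Ioc N (2 * N), ‖a m * ei (t * Real.log m)‖ ≤ 1 := by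
    intro m _
    rw [norm_mul, norm_ei, mul_one]
    exact ha m
  refine (sum_le_sum h).trans ?_
  rw [sum_const, Nat.card_Ioc, nsmul_eq_mul, mul_one, show 2 * N - N = N by omega]

theorem tp1_shift (N : ℕ) (c : ℕ → ℂ) (y : ℝ) :
    ‖∑ n ∈ Ioc N (2 * N), c n * ei ((Real.log n - Real.log N) * y)‖ = ‖DP N c y‖ := by
  have h : DP N c y = (∑ n ∈ Ioc N (2 * N), c n * ei ((Real.log n - Real.log N) * y)) *
      ei (Real.log N * y) := by
    rw [DP, sum_mul]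
    refine sum_congr rfl fun n _ => ?_
    rw [mul_assoc, ← ei_add]
    congr 2
    ring
  rw [h, norm_mul, norm_ei, mul_one]

theorem tp1_avg (N : ℕ) (hN : 1 ≤ N) (a : ℕ → ℂ) (ha : ∀ n, ‖a n‖ ≤ 1) :
    ∃ b : ℕ → ℂ, (∀ n, ‖b n‖ ≤ 1) ∧ ∀ t : ℝ, ‖DP N a t‖ ^ 2 ≤
      4 * ∫ x in (0 : ℝ)..2, ‖DP N b ((⌊t⌋ : ℝ) + x)‖ ^ 2 := by
  obtain ⟨g, hg, H⟩ := H14.avg_rep (Ioc N (2 * N)) (fun n : ℕ => Real.log n - Real.log N) a
    (fun n _ => ha n) 1 one_pos (fun n hn => by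
      obtain ⟨h1, h2⟩ := H14.mvt_log_range hN hn
      rw [mul_one, abs_le]
      constructor <;> linarith only [h1, h2])
  refine ⟨fun n => if n ∈ Ioc N (2 * N) then g n else 0, fun n => ?_, fun t => ?_⟩
  · dsimp only
    split_ifs with h
    · exact hg n h
    · simp
  have e : ∀ y : ℝ, DP N (fun n => if n ∈ Ioc N (2 * N) then g n else 0) y = DP N g y := by
    intro y
    refine sum_congr rfl fun n hn => ?_
    dsimp only
    rw [if_pos hn]
  have hc : Continuous fun y : ℝ => ‖DP N g y‖ ^ 2 := by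
    refine (Continuous.norm ?_).pow 2
    exact continuous_finsetSum _ fun n _ =>
      continuous_const.mul (continuous_ei.comp (continuous_id.mul continuous_const))
  have h1 := H t
  simp only [tp1_shift, div_one] at h1
  simp only [e]
  refine h1.trans (mul_le_mul_of_nonneg_left ?_ (by norm_num))
  rw [intervalIntegral.integral_comp_add_left (fun y : ℝ => ‖DP N g y‖ ^ 2), add_zero]
  refine intervalIntegral.integral_mono_interval (Int.floor_le t) (by linarith only []) ?_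
    (Filter.Eventually.of_forall fun y => by positivity) (hc.intervalIntegrable _ _)
  linarith [Int.lt_floor_add_one t]

end

section

theorem tp2_log (k : ℕ) (ε : ℝ) (hε : 0 < ε) : ∃ C : ℝ, 0 < C ∧ ∀ N : ℕ, 1 ≤ N →
    ((Nat.log 2 N : ℝ) + 1) ^ k ≤ C * (N : ℝ) ^ ε := by
  obtain ⟨δ, hδ, hk⟩ : ∃ δ : ℝ, 0 < δ ∧ δ * k ≤ ε := by
    refine ⟨ε / (k + 1), by positivity, ?_⟩
    rw [div_mul_eq_mul_div, div_le_iff₀ (by positivity)]
    linarith only [hε]
  refine ⟨(2 / δ + 1) ^ k, by positivity, fun N hN => ?_⟩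
  have hN1 : (1 : ℝ) ≤ N := by exact_mod_cast hN
  have h1 : (Nat.log 2 N : ℝ) * Real.log 2 ≤ Real.log N := by
    rw [← Real.log_pow]
    apply Real.log_le_log (by positivity)
    exact_mod_cast Nat.pow_log_le_self 2 (by omega : N ≠ 0)
  have h2 : Real.log N ≤ (N : ℝ) ^ δ / δ := Real.log_le_rpow_div (by positivity) hδ
  have h3 : (1 : ℝ) ≤ (N : ℝ) ^ δ := Real.one_le_rpow hN1 hδ.le
  have h4 : (1 / 2 : ℝ) ≤ Real.log 2 := by have := Real.log_two_gt_d9; linarith only [this]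
  have h5 : (Nat.log 2 N : ℝ) + 1 ≤ (2 / δ + 1) * (N : ℝ) ^ δ := by
    have h6 : (Nat.log 2 N : ℝ) * (1 / 2) ≤ (Nat.log 2 N : ℝ) * Real.log 2 :=
      mul_le_mul_of_nonneg_left h4 (by positivity)
    have h7 : (2 / δ + 1) * (N : ℝ) ^ δ = 2 * ((N : ℝ) ^ δ / δ) + (N : ℝ) ^ δ := by ring
    linarith only [h1, h2, h3, h6, h7]
  calc ((Nat.log 2 N : ℝ) + 1) ^ k ≤ ((2 / δ + 1) * (N : ℝ) ^ δ) ^ k :=
        pow_le_pow_left₀ (by positivity) h5 k
    _ = (2 / δ + 1) ^ k * (N : ℝ) ^ (δ * k) := by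
        rw [mul_pow, Real.rpow_mul (by positivity), Real.rpow_natCast]
    _ ≤ (2 / δ + 1) ^ k * (N : ℝ) ^ ε :=
        mul_le_mul_of_nonneg_left (Real.rpow_le_rpow_of_exponent_le hN1 hk) (by positivity)

theorem tp2_split (g : ℕ → ℂ) (K : ℕ) : ∑ m ∈ Icc 1 (2 ^ K), g m =
    g 1 + ∑ i ∈ range K, ∑ m ∈ Ioc (2 ^ i) (2 * 2 ^ i), g m := by
  induction K with
  | zero => simp only [pow_zero, Icc_self, sum_singleton, range_zero, sum_empty, add_zero]
  | succ K ih =>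
    rw [sum_range_succ, ← add_assoc, ← ih, ← sum_union]
    · congr 1
      ext m
      have : 1 ≤ 2 ^ K := Nat.one_le_two_pow
      simp only [mem_Icc, mem_union, mem_Ioc, pow_succ]
      omega
    · rw [disjoint_left]
      intro m h1 h2
      simp only [mem_Icc, mem_Ioc] at h1 h2
      omega

theorem tp2_card {S : Finset ℝ} {T : ℝ} (hT : 0 ≤ T) (hS : Sep S) (hr : ∀ t ∈ S, 0 ≤ t ∧ t ≤ T) :
    (#S : ℝ) ≤ 2 + 2 * (√(#S : ℝ) * √T) := by
  have h1 : #S ≤ #(range (⌊T⌋₊ + 1)) := by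
    refine card_le_card_of_injOn (fun t => ⌊t⌋₊) (fun t ht => ?_) (fun t ht u hu h => ?_)
    · exact mem_coe.2 (mem_range.2 (Nat.lt_succ_of_le (Nat.floor_le_floor (hr t ht).2)))
    · by_contra hne
      have h2 := hS t ht u hu hne
      have h3 := Nat.floor_le (hr t ht).1
      have h4 := Nat.floor_le (hr u hu).1
      have h5 := Nat.lt_floor_add_one t
      have h6 := Nat.lt_floor_add_one u
      have h7 : ((⌊t⌋₊ : ℕ) : ℝ) = ⌊u⌋₊ := by exact_mod_cast h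
      rcases le_abs.1 h2 with h8 | h8 <;> linarith only [h4, h5, h7, h8, h3, h6]
  rw [card_range] at h1
  have h2 : (#S : ℝ) ≤ ⌊T⌋₊ + 1 := by exact_mod_cast h1
  have h3 := Nat.floor_le hT
  have h4 : √(#S : ℝ) ^ 2 = #S := Real.sq_sqrt (by positivity)
  have h5 : √T ^ 2 = T := Real.sq_sqrt hT
  have h6 := Real.sqrt_nonneg (#S : ℝ)
  have h7 := Real.sqrt_nonneg T
  rcases le_total √(#S : ℝ) (2 * √T) with h | h <;> nlinarith only [h4, h6, h, h2, h3, h5, h7]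

end

end Pool.Agent.MP_71ac24_nt.H17
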